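import Mathlib

/-!
HD3: every convex body of Euclidean 3-space is covered by 8 translates of its interior.
Paper proof: ideas row 630. This file: definitions and targets.
-/

namespace Pool.Agent.HD3

open MeasureTheory ProbabilityTheory Set
open scoped InnerProductSpace Pointwise

/-- Euclidean 3-space. -/
abbrev E := EuclideanSpace ℝ (Fin 3)

/-- Support function of a set. -/
noncomputable def h (K : Set E) (g : E) : ℝ := sSup ((fun x => ⟪g, x⟫_ℝ) '' K)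

/-- Gradient of the support function. -/
noncomputable def G (K : Set E) (g : E) : E := gradient (h K) g

/-- The standard Gaussian measure of `E`. -/
noncomputable def γ : Measure E := stdGaussian E

/-- The point with angle `t` on the ellipse spanned by the pair `p`. -/
noncomputable def circ (t : ℝ) (p : E × E) : E := Real.cos t • p.1 + Real.sin t • p.2

/-- The shadow boundary of `K` in the direction orthogonal to `p.1` and `p.2`. -/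
def rim (K : Set E) (p : E × E) : Set E :=
  {x | x ∈ K ∧ ∃ t : ℝ, ⟪circ t p, x⟫_ℝ = h K (circ t p)}

/-- No face of `K` with normal in the span of `p` contains a segment orthogonal to `p`. -/
def Generic (K : Set E) (p : E × E) : Prop :=
  ∀ a ∈ K, ∀ b ∈ K, ∀ t : ℝ, ⟪circ t p, a⟫_ℝ = h K (circ t p) →
    ⟪circ t p, b⟫_ℝ = h K (circ t p) → ⟪p.1, b - a⟫_ℝ = 0 → ⟪p.2, b - a⟫_ℝ = 0 → a = b

/-- `K` is covered by 8 translates of its interior. -/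
def Cov8 (K : Set E) : Prop :=
  ∃ t : Fin 8 → E, K ⊆ ⋃ i, (fun x => t i + x) '' interior K

/-- Length of the closed polygon with the `2 ^ k` vertices `G K (circ (2 π i / 2 ^ k) p)`. -/
noncomputable def plen (K : Set E) (k : ℕ) (p : E × E) : ℝ :=
  ∑ i ∈ Finset.range (2 ^ k),
    ‖G K (circ (2 * Real.pi * ((i : ℝ) + 1) / 2 ^ k) p) -
      G K (circ (2 * Real.pi * (i : ℝ) / 2 ^ k) p)‖

/-- John property: for every linear map `H` some contact point `u` of the unit ball has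
`trace H ≤ 3 ⟪u, H u⟫`. -/
def JohnProp (S : Set E) : Prop :=
  ∀ H : E →ₗ[ℝ] E, ∃ u : E, ‖u‖ = 1 ∧ (∀ x ∈ S, ⟪u, x⟫_ℝ ≤ 1) ∧
    LinearMap.trace ℝ E H ≤ 3 * ⟪u, H u⟫_ℝ

/-- `S` contains the 8 vertices of the cube of an orthonormal basis and lies in that cube. -/
def IsCube (S : Set E) : Prop :=
  ∃ b : OrthonormalBasis (Fin 3) ℝ E,
    (∀ s : Fin 3 → ℝ, (∀ i, s i = 1 ∨ s i = -1) → ∑ i, s i • b i ∈ S) ∧
    ∀ x ∈ S, ∀ i, |⟪b i, x⟫_ℝ| ≤ 1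

/-! ### Targets -/

/-- BASIC. Facts on support functions (all proved in `Basic.lean`, cite them from there). -/
def T_BASIC : Prop :=
  ∀ K : Set E, IsCompact K → K.Nonempty →
    ConvexOn ℝ univ (h K) ∧ (∃ R : NNReal, LipschitzWith R (h K) ∧ ∀ x ∈ K, ‖x‖ ≤ R) ∧
    (∀ c : ℝ, 0 ≤ c → ∀ g, h K (c • g) = c * h K g) ∧
    (∀ x ∈ K, ∀ g, ⟪g, x⟫_ℝ ≤ h K g) ∧ (∀ g, ∃ x ∈ K, ⟪g, x⟫_ℝ = h K g) ∧
    (∀ g, DifferentiableAt ℝ (h K) g → ∀ x ∈ K, ⟪g, x⟫_ℝ = h K g → x = G K g) ∧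
    (∀ g, h (K - K) g = h K g + h K (-g))

/-- AC. -/
def T_AC : Prop := γ ≪ (volume : Measure E)

/-- ROT. The law of `(circ t p, circ (t + π/2) p)` is the law of `p`. -/
def T_ROT : Prop :=
  ∀ t : ℝ, MeasurePreserving (fun p : E × E => (circ t p, circ (t + Real.pi / 2) p))
    (γ.prod γ) (γ.prod γ)

/-- ABS. -/
def T_ABS : Prop :=
  ∀ u : E, Integrable (fun x : E => |⟪u, x⟫_ℝ|) γ ∧
    ∫ x, |⟪u, x⟫_ℝ| ∂γ = Real.sqrt (2 / Real.pi) * ‖u‖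

/-- IBP. Gaussian integration by parts. -/
def T_IBP : Prop :=
  ∀ f : E → ℝ, ContDiff ℝ 2 f → (∃ C : ℝ, ∀ x, ‖fderiv ℝ f x‖ ≤ C) →
    (∃ C : ℝ, ∀ x, ‖fderiv ℝ (fderiv ℝ f) x‖ ≤ C) →
    ∫ x, (∑ i : Fin 3, fderiv ℝ (fderiv ℝ f) x (EuclideanSpace.single i 1)
      (EuclideanSpace.single i 1)) ∂γ = ∫ x, ⟪x, gradient f x⟫_ℝ ∂γ

/-- PSD. Mean of the norm of a positive semidefinite map at a Gaussian vector. -/
def T_PSD : Prop :=
  ∀ A : E →L[ℝ] E, (∀ x y, ⟪A x, y⟫_ℝ = ⟪x, A y⟫_ℝ) → (∀ x, 0 ≤ ⟪A x, x⟫_ℝ) →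
    ∫ y, ‖A y‖ ∂γ ≤ Real.sqrt (2 / Real.pi) *
      ∑ i : Fin 3, ⟪A (EuclideanSpace.single i 1), EuclideanSpace.single i 1⟫_ℝ

/-- SMOOTH. Mean increment of the gradient of a smooth convex function along the ellipse. -/
def T_SMOOTH : Prop :=
  ∀ f : E → ℝ, ContDiff ℝ 2 f → ConvexOn ℝ univ f → (∃ C : ℝ, ∀ x, ‖fderiv ℝ f x‖ ≤ C) →
    (∃ C : ℝ, ∀ x, ‖fderiv ℝ (fderiv ℝ f) x‖ ≤ C) → ∀ a : ℝ, 0 ≤ a →
    ∫ p, ‖gradient f (circ a p) - gradient f p.1‖ ∂(γ.prod γ) ≤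
      a * Real.sqrt (2 / Real.pi) * ∫ x, ⟪x, gradient f x⟫_ℝ ∂γ

/-- MOLL. Smooth convex approximations of a convex Lipschitz function. -/
def T_MOLL : Prop :=
  ∀ f : E → ℝ, ConvexOn ℝ univ f → ∀ R : NNReal, LipschitzWith R f →
    ∀ ε : ℝ, 0 < ε → ∃ F : E → ℝ, ContDiff ℝ 2 F ∧ ConvexOn ℝ univ F ∧ (∀ x, |F x - f x| ≤ ε) ∧
      (∀ x, ‖fderiv ℝ F x‖ ≤ R) ∧ ∃ C : ℝ, ∀ x, ‖fderiv ℝ (fderiv ℝ F) x‖ ≤ C

/-- GRADLIM. Gradients of uniformly converging differentiable convex functions converge at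
points of differentiability of the limit. -/
def T_GRADLIM : Prop :=
  ∀ (f : E → ℝ) (F : ℕ → E → ℝ), (∀ n, Differentiable ℝ (F n)) → (∀ n, ConvexOn ℝ univ (F n)) →
    (∀ x, Filter.Tendsto (fun n => F n x) Filter.atTop (nhds (f x))) →
    ∀ x, DifferentiableAt ℝ f x →
      Filter.Tendsto (fun n => gradient (F n) x) Filter.atTop (nhds (gradient f x))

/-- INC. Mean increment of the gradient of the support function. -/
def T_INC : Prop :=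
  ∀ K : Set E, IsCompact K → Convex ℝ K → K.Nonempty → ∀ a : ℝ, 0 ≤ a →
    ∫ p, ‖G K (circ a p) - G K p.1‖ ∂(γ.prod γ) ≤
      a * Real.sqrt (2 / Real.pi) * ∫ x, h K x ∂γ

/-- RIM. Mean length of the dyadic polygons. -/
def T_RIM : Prop :=
  ∀ K : Set E, IsCompact K → Convex ℝ K → K.Nonempty → ∀ k : ℕ,
    Integrable (plen K k) (γ.prod γ) ∧
    ∫ p, plen K k p ∂(γ.prod γ) ≤ 2 * Real.pi * Real.sqrt (2 / Real.pi) * ∫ x, h K x ∂γ

/-- LI. Almost every pair is linearly independent. -/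
def T_LI : Prop := ∀ᵐ p ∂(γ.prod γ), LinearIndependent ℝ ![p.1, p.2]

/-- DIFF. Almost everywhere differentiability along the ellipse. -/
def T_DIFF : Prop :=
  ∀ K : Set E, IsCompact K → K.Nonempty → ∀ t : ℝ,
    ∀ᵐ p ∂(γ.prod γ), DifferentiableAt ℝ (h K) (circ t p)

/-- PLANE. Differences of points of two planar convex sets with a common outer normal form a
set of area zero. -/
def T_PLANE : Prop :=
  ∀ A B : Set (ℝ × ℝ), IsCompact A → Convex ℝ A → IsCompact B → Convex ℝ B →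
    (volume : Measure (ℝ × ℝ)) {d | ∃ n : ℝ × ℝ, n ≠ 0 ∧ ∃ a ∈ A, ∃ b ∈ B,
      (∀ x ∈ A, n.1 * x.1 + n.2 * x.2 ≤ n.1 * a.1 + n.2 * a.2) ∧
      (∀ x ∈ B, n.1 * x.1 + n.2 * x.2 ≤ n.1 * b.1 + n.2 * b.2) ∧ d = b - a} = 0

/-- Vectors parallel to a nondegenerate segment contained in a face of `K`. -/
def badDir (K : Set E) : Set E :=
  {u | ∃ a ∈ K, ∃ b ∈ K, a ≠ b ∧ (∃ g : E, g ≠ 0 ∧ (∀ x ∈ K, ⟪g, x⟫_ℝ ≤ ⟪g, a⟫_ℝ) ∧
    ⟪g, b⟫_ℝ = ⟪g, a⟫_ℝ) ∧ ∃ l : ℝ, b - a = l • u}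

/-- DIRNULL. -/
def T_DIRNULL : Prop :=
  ∀ K : Set E, IsCompact K → Convex ℝ K → (volume : Measure E) (badDir K) = 0

/-- PULL. A null set avoids the normals of almost every plane. -/
def T_PULL : Prop :=
  ∀ D : Set E, (volume : Measure E) D = 0 → (∀ u ∈ D, ∀ l : ℝ, l ≠ 0 → l • u ∈ D) →
    ∀ᵐ p ∂(γ.prod γ), ∀ u : E, u ≠ 0 → ⟪p.1, u⟫_ℝ = 0 → ⟪p.2, u⟫_ℝ = 0 → u ∉ D

/-- GEN. Almost every pair is generic. -/
def T_GEN : Prop :=
  ∀ K : Set E, IsCompact K → Convex ℝ K → K.Nonempty → ∀ᵐ p ∂(γ.prod γ), Generic K p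

/-- PICK. Existence of a good pair. -/
def T_PICK : Prop :=
  ∀ K : Set E, IsCompact K → Convex ℝ K → K.Nonempty →
    2 * Real.pi * Real.sqrt (2 / Real.pi) * ∫ x, h K x ∂γ < 6 →
    ∃ p : E × E, LinearIndependent ℝ ![p.1, p.2] ∧ Generic K p ∧
      (∀ (k i : ℕ), DifferentiableAt ℝ (h K) (circ (2 * Real.pi * (i : ℝ) / 2 ^ k) p)) ∧
      ∃ c : ℝ, 0 < c ∧ c < 1 ∧ ∀ k, plen K k p ≤ 6 * c

/-- CHAIN. A chain of points whose steps lie in multiples of `K - K` lies in a translate of a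
multiple of `K`. -/
def T_CHAIN : Prop :=
  ∀ K : Set E, Convex ℝ K → K.Nonempty → ∀ (m : ℕ) (q : ℕ → E) (l : ℕ → ℝ),
    (∀ i, 0 ≤ l i) → (∀ i < m, ∃ x ∈ K, ∃ y ∈ K, q (i + 1) - q i = l i • (x - y)) →
    ∃ t : E, ∀ i ≤ m, ∃ x ∈ K, q i = t + (∑ j ∈ Finset.range m, l j) • x

/-- CURVE. The curve lemma. -/
def T_CURVE : Prop :=
  ∀ K : Set E, IsCompact K → Convex ℝ K → K.Nonempty → Metric.closedBall 0 1 ⊆ K - K →
    ∀ (c a b : ℝ) (f : ℝ → E), 0 ≤ c → a ≤ b →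
      (∀ s ∈ Icc a b, ∀ t ∈ Icc a b, ‖f s - f t‖ ≤ c * |s - t|) →
      ∃ z : E, ∀ s ∈ Icc a b, ∃ x ∈ K, f s = z + (c * (b - a)) • x

/-- POLY. Constant speed parametrisation of a polygon. -/
def T_POLY : Prop :=
  ∀ (m : ℕ) (q : ℕ → E) (L : ℝ), 0 < L →
    (∑ i ∈ Finset.range m, ‖q (i + 1) - q i‖) ≤ L →
    ∃ f : ℝ → E, (∀ s t : ℝ, ‖f s - f t‖ ≤ L * |s - t|) ∧
      (∀ K : Set E, Convex ℝ K → (∀ i ≤ m, q i ∈ K) → ∀ s, f s ∈ K) ∧
      ∀ i < m, ∀ y ∈ segment ℝ (q i) (q (i + 1)), ∃ s ∈ Icc (0 : ℝ) 1, f s = y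

/-- DET. Covering of the rim by six small copies. -/
def T_DET : Prop :=
  ∀ K : Set E, IsCompact K → Convex ℝ K → K.Nonempty → Metric.closedBall 0 1 ⊆ K - K →
    ∀ p : E × E, LinearIndependent ℝ ![p.1, p.2] → Generic K p →
      (∀ (k i : ℕ), DifferentiableAt ℝ (h K) (circ (2 * Real.pi * (i : ℝ) / 2 ^ k) p)) →
      ∀ c : ℝ, 0 < c → (∀ k, plen K k p ≤ 6 * c) →
      ∃ z : Fin 6 → E, ∀ x ∈ rim K p, ∃ j, ∃ y ∈ K, x = z j + c • y

/-- COVER. From the rim to the whole body. -/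
def T_COVER : Prop :=
  ∀ K : Set E, IsCompact K → Convex ℝ K → (interior K).Nonempty →
    ∀ p : E × E, LinearIndependent ℝ ![p.1, p.2] → ∀ c : ℝ, 0 < c → c < 1 →
      (∃ z : Fin 6 → E, ∀ x ∈ rim K p, ∃ j, ∃ y ∈ K, x = z j + c • y) → Cov8 K

/-- JOHN. Existence of the position. -/
def T_JOHN : Prop :=
  ∀ S : Set E, IsCompact S → Convex ℝ S → (∀ x ∈ S, -x ∈ S) → (interior S).Nonempty →
    ∃ A : E ≃L[ℝ] E, Metric.closedBall 0 1 ⊆ A '' S ∧ JohnProp (A '' S)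

/-- MW. The mean width bound in John position. -/
def T_MW : Prop :=
  ∀ S : Set E, IsCompact S → Convex ℝ S → (∀ x ∈ S, -x ∈ S) → Metric.closedBall 0 1 ⊆ S →
    JohnProp S → ∫ x, h S x ∂γ ≤ 3 * Real.sqrt (2 / Real.pi)

/-- EQ. The equality case. -/
def T_EQ : Prop :=
  ∀ S : Set E, IsCompact S → Convex ℝ S → (∀ x ∈ S, -x ∈ S) → Metric.closedBall 0 1 ⊆ S →
    JohnProp S → ∫ x, h S x ∂γ = 3 * Real.sqrt (2 / Real.pi) → IsCube S

/-- BOX. -/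
def T_BOX : Prop :=
  ∀ K : Set E, IsCompact K → Convex ℝ K → (interior K).Nonempty → IsCube (K - K) → Cov8 K

/-- MAIN. -/
def T_MAIN : Prop :=
  ∀ K : Set E, IsCompact K → Convex ℝ K → (interior K).Nonempty → Cov8 K

end Pool.Agent.HD3
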