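import Mathlib
import Pool.Agent.HD3.Spec

/-! HD3-AC (helper38): the Gaussian measure is absolutely continuous; pairs are independent. -/

set_option autoImplicit false

namespace Pool.Agent.HD3

open MeasureTheory ProbabilityTheory Set
open scoped InnerProductSpace

namespace AC_

lemma pi_ac : ∀ (n : ℕ) (μ ν : Fin n → Measure ℝ) (_ : ∀ i, SigmaFinite (μ i))
    (_ : ∀ i, SigmaFinite (ν i)), (∀ i, μ i ≪ ν i) → Measure.pi μ ≪ Measure.pi ν := by
  intro n
  induction n with
  | zero =>
    intro μ ν h1 h2 h
    rw [Measure.pi_of_empty, Measure.pi_of_empty]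
  | succ n ih =>
    intro μ ν h1 h2 h
    have e1 := (measurePreserving_piFinSuccAbove μ 0).symm
    have e2 := (measurePreserving_piFinSuccAbove ν 0).symm
    rw [← e1.map_eq, ← e2.map_eq]
    apply Measure.AbsolutelyContinuous.map _ e1.measurable
    exact (h 0).prod (ih _ _ (fun i => h1 _) (fun i => h2 _) fun i => h _)

end AC_

theorem p_AC : T_AC := by
  have h1 : (Measure.pi (fun _ : Fin 3 => gaussianReal 0 1)) ≪
      (volume : Measure (Fin 3 → ℝ)) :=
    AC_.pi_ac 3 _ _ (fun _ => inferInstance) (fun _ => inferInstance)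
      fun _ => gaussianReal_absolutelyContinuous 0 one_ne_zero
  have h2 := (PiLp.volume_preserving_toLp (Fin 3))
  have h3 : (Measure.pi (fun _ : Fin 3 => gaussianReal 0 1)).map (WithLp.toLp 2) ≪
      (volume : Measure (Fin 3 → ℝ)).map (WithLp.toLp 2) := h1.map h2.measurable
  rw [h2.map_eq, map_pi_eq_stdGaussian] at h3
  exact h3

theorem p_LI (h : T_AC) : T_LI := by
  have hopen : IsOpen {p : E × E | LinearIndependent ℝ ![p.1, p.2]} := by
    have h1 : IsOpen {f : Fin 2 → E | LinearIndependent ℝ f} := isOpen_setOfPred_linearIndependent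
    have h2 : Continuous (fun p : E × E => ![p.1, p.2]) := by
      apply continuous_pi
      intro i
      fin_cases i
      · exact continuous_fst
      · exact continuous_snd
    exact h1.preimage h2
  have hγ : IsProbabilityMeasure γ := by unfold γ; infer_instance
  change ∀ᵐ p ∂(γ.prod γ), p ∈ {p : E × E | LinearIndependent ℝ ![p.1, p.2]}
  rw [Measure.ae_prod_mem_iff_ae_ae_mem hopen.measurableSet]
  have h0 : ∀ᵐ x ∂(volume : Measure E), x ≠ 0 := by
    rw [ae_iff]
    simp
  filter_upwards [h.ae_le h0] with x hx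
  have h1 : ∀ᵐ y ∂(volume : Measure E), y ∉ (Submodule.span ℝ {x} : Submodule ℝ E) := by
    rw [ae_iff]
    have h2 : {a : E | ¬ a ∉ (Submodule.span ℝ {x} : Submodule ℝ E)} =
        ((Submodule.span ℝ {x} : Submodule ℝ E) : Set E) := by
      ext a; simp
    rw [h2]
    apply Measure.addHaar_submodule
    intro htop
    have h3 := finrank_span_singleton (K := ℝ) hx
    rw [htop, finrank_top, finrank_euclideanSpace_fin] at h3
    omega
  filter_upwards [h.ae_le h1] with y hy
  rw [linearIndependent_fin2]
  refine ⟨?_, ?_⟩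
  · intro h4
    apply hy
    change y = 0 at h4
    rw [h4]
    exact Submodule.zero_mem _
  · intro a ha
    change a • y = x at ha
    apply hy
    have ha0 : a ≠ 0 := by
      rintro rfl
      rw [zero_smul] at ha
      exact hx ha.symm
    rw [Submodule.mem_span_singleton]
    refine ⟨a⁻¹, ?_⟩
    rw [← ha, smul_smul, inv_mul_cancel₀ ha0, one_smul]

end Pool.Agent.HD3
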