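import Mathlib
import Pool.Agent.HD3.Spec

/-!
HD3, job BASIC: elementary facts on support functions.
-/

namespace Pool.Agent.HD3

open MeasureTheory ProbabilityTheory Set
open scoped InnerProductSpace Pointwise

variable {K : Set E}

lemma bddAbove_inner (hK : IsCompact K) (g : E) : BddAbove ((fun x => ⟪g, x⟫_ℝ) '' K) :=
  (hK.image (by fun_prop)).bddAbove

/-- the support function dominates the values of the functional on `K` -/
lemma le_h (hK : IsCompact K) {x : E} (hx : x ∈ K) (g : E) : ⟪g, x⟫_ℝ ≤ h K g :=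
  le_csSup (bddAbove_inner hK g) ⟨x, hx, rfl⟩

/-- the support function is attained -/
lemma exists_eq_h (hK : IsCompact K) (hne : K.Nonempty) (g : E) :
    ∃ x ∈ K, ⟪g, x⟫_ℝ = h K g := by
  obtain ⟨x, hx, hmax⟩ := hK.exists_isMaxOn hne
    (f := fun x => ⟪g, x⟫_ℝ) (by fun_prop)
  refine ⟨x, hx, le_antisymm (le_h hK hx g) ?_⟩
  apply csSup_le (hne.image _)
  rintro _ ⟨y, hy, rfl⟩
  exact hmax hy

lemma h_le (hne : K.Nonempty) {g : E} {c : ℝ} (hc : ∀ x ∈ K, ⟪g, x⟫_ℝ ≤ c) : h K g ≤ c := by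
  apply csSup_le (hne.image _)
  rintro _ ⟨y, hy, rfl⟩
  exact hc y hy

lemma h_convexOn (hK : IsCompact K) (hne : K.Nonempty) : ConvexOn ℝ univ (h K) := by
  refine ⟨convex_univ, ?_⟩
  intro g _ g' _ a b ha hb _
  apply h_le hne
  intro x hx
  rw [inner_add_left, real_inner_smul_left, real_inner_smul_left]
  have h1 := le_h hK hx g
  have h2 := le_h hK hx g'
  simp only [smul_eq_mul]
  gcongr

lemma h_lip_aux (hK : IsCompact K) (hne : K.Nonempty) {R : ℝ} (hR : ∀ x ∈ K, ‖x‖ ≤ R) (g g' : E) :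
    h K g - h K g' ≤ R * ‖g - g'‖ := by
  obtain ⟨x, hx, hxe⟩ := exists_eq_h hK hne g
  have h1 := le_h hK hx g'
  have h2 : ⟪g - g', x⟫_ℝ ≤ ‖g - g'‖ * ‖x‖ := real_inner_le_norm _ _
  have h3 : ‖g - g'‖ * ‖x‖ ≤ ‖g - g'‖ * R := by
    have := hR x hx
    gcongr
  rw [inner_sub_left] at h2
  linarith

lemma h_lipschitz_of_bound (hK : IsCompact K) (hne : K.Nonempty) {R : NNReal}
    (hR : ∀ x ∈ K, ‖x‖ ≤ R) : LipschitzWith R (h K) := by
  apply LipschitzWith.of_dist_le_mul
  intro g g'
  rw [Real.dist_eq, dist_eq_norm, abs_le]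
  constructor
  · have := h_lip_aux hK hne hR g' g
    rw [norm_sub_rev] at this
    linarith
  · exact h_lip_aux hK hne hR g g'

lemma exists_bound (hK : IsCompact K) : ∃ R : NNReal, ∀ x ∈ K, ‖x‖ ≤ R := by
  obtain ⟨C, hC⟩ := hK.isBounded.exists_norm_le
  refine ⟨C.toNNReal, fun x hx => (hC x hx).trans (Real.le_coe_toNNReal C)⟩

lemma h_lipschitz (hK : IsCompact K) (hne : K.Nonempty) :
    ∃ R : NNReal, LipschitzWith R (h K) ∧ ∀ x ∈ K, ‖x‖ ≤ R := by
  obtain ⟨R, hR⟩ := exists_bound hK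
  exact ⟨R, h_lipschitz_of_bound hK hne hR, hR⟩

lemma h_continuous (hK : IsCompact K) (hne : K.Nonempty) : Continuous (h K) := by
  obtain ⟨R, hR, _⟩ := h_lipschitz hK hne
  exact hR.continuous

lemma h_smul (hK : IsCompact K) (hne : K.Nonempty) {c : ℝ} (hc : 0 ≤ c) (g : E) :
    h K (c • g) = c * h K g := by
  apply le_antisymm
  · apply h_le hne
    intro x hx
    rw [real_inner_smul_left]
    have := le_h hK hx g
    gcongr
  · obtain ⟨x, hx, hxe⟩ := exists_eq_h hK hne g
    have := le_h hK hx (c • g)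
    rw [real_inner_smul_left, hxe] at this
    exact this

lemma h_zero (hK : IsCompact K) (hne : K.Nonempty) : h K 0 = 0 := by
  have := h_smul hK hne le_rfl (0 : E)
  simpa using this

/-- A maximiser of the functional `⟪g, ·⟫` is the gradient of the support function. -/
lemma eq_G (hK : IsCompact K) {g : E} (hd : DifferentiableAt ℝ (h K) g) {x : E} (hx : x ∈ K)
    (hxe : ⟪g, x⟫_ℝ = h K g) : x = G K g := by
  have hmin : IsLocalMin (fun g' => h K g' - ⟪g', x⟫_ℝ) g := by
    apply Filter.Eventually.of_forall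
    intro g'
    have h1 := le_h hK hx g'
    simp only
    linarith
  have hder : HasFDerivAt (fun g' : E => h K g' - ⟪g', x⟫_ℝ)
      (fderiv ℝ (h K) g - InnerProductSpace.toDual ℝ E x) g := by
    apply hd.hasFDerivAt.sub
    have h2 : (fun g' : E => ⟪g', x⟫_ℝ) = fun g' => (InnerProductSpace.toDual ℝ E x) g' := by
      funext g'
      rw [InnerProductSpace.toDual_apply_apply, real_inner_comm]
    rw [h2]
    exact (InnerProductSpace.toDual ℝ E x).hasFDerivAt
  have h0 := hmin.hasFDerivAt_eq_zero hder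
  have h3 : fderiv ℝ (h K) g = InnerProductSpace.toDual ℝ E x := sub_eq_zero.mp h0
  unfold G gradient
  rw [h3]
  simp

lemma G_mem (hK : IsCompact K) (hne : K.Nonempty) {g : E} (hd : DifferentiableAt ℝ (h K) g) :
    G K g ∈ K ∧ ⟪g, G K g⟫_ℝ = h K g := by
  obtain ⟨x, hx, hxe⟩ := exists_eq_h hK hne g
  have := eq_G hK hd hx hxe
  rw [← this]
  exact ⟨hx, hxe⟩

lemma norm_G_le (hK : IsCompact K) (hne : K.Nonempty) {R : ℝ} (hR : ∀ x ∈ K, ‖x‖ ≤ R) (g : E) :
    ‖G K g‖ ≤ R := by
  by_cases hd : DifferentiableAt ℝ (h K) g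
  · exact hR _ (G_mem hK hne hd).1
  · obtain ⟨x, hx⟩ := hne
    have h1 : G K g = 0 := by
      unfold G gradient
      rw [fderiv_zero_of_not_differentiableAt hd]
      simp
    rw [h1, norm_zero]
    exact (norm_nonneg x).trans (hR x hx)

lemma measurable_G (K : Set E) : Measurable (G K) := by
  unfold G gradient
  exact (InnerProductSpace.toDual ℝ E).symm.continuous.measurable.comp (measurable_fderiv ℝ _)

/-- `G K g` is the gradient of the support function (as a Fréchet derivative). -/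
lemma inner_G (K : Set E) (g v : E) : ⟪G K g, v⟫_ℝ = fderiv ℝ (h K) g v := by
  unfold G gradient
  exact InnerProductSpace.toDual_symm_apply

lemma h_sub (hK : IsCompact K) (hne : K.Nonempty) (g : E) :
    h (K - K) g = h K g + h K (-g) := by
  apply le_antisymm
  · apply h_le (hne.sub hne)
    rintro _ ⟨x, hx, y, hy, rfl⟩
    have h1 := le_h hK hx g
    have h2 := le_h hK hy (-g)
    rw [inner_neg_left] at h2
    simp only [inner_sub_right]
    linarith
  · obtain ⟨x, hx, hxe⟩ := exists_eq_h hK hne g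
    obtain ⟨y, hy, hye⟩ := exists_eq_h hK hne (-g)
    have hc : IsCompact (K - K) := by
      rw [sub_eq_add_neg]
      exact hK.add hK.neg
    have h3 := le_h hc (Set.sub_mem_sub hx hy) g
    rw [inner_sub_right] at h3
    rw [inner_neg_left] at hye
    linarith

theorem p_BASIC : T_BASIC := by
  intro K hK hne
  exact ⟨h_convexOn hK hne, h_lipschitz hK hne, fun c hc g => h_smul hK hne hc g,
    fun x hx g => le_h hK hx g, exists_eq_h hK hne, fun g hd x hx hxe => eq_G hK hd hx hxe,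
    h_sub hK hne⟩

end Pool.Agent.HD3
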