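import Pool.Agent.HD3.Spec

/-!
HD3-BOX: a body whose difference body is a cube is a box, hence covered by 8 translates of its
interior.
-/

namespace Pool.Agent.HD3

open Set
open scoped InnerProductSpace Pointwise

theorem p_BOX : T_BOX := by
  intro K hKc hconv _ hcube
  obtain ⟨b, hvert, hbd⟩ := hcube
  have hbd' : ∀ x ∈ K, ∀ y ∈ K, ∀ i, ⟪b i, x⟫_ℝ - ⟪b i, y⟫_ℝ ≤ 1 := by
    intro x hx y hy i
    have h1 := hbd (x - y) (Set.sub_mem_sub hx hy) i
    rw [inner_sub_right] at h1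
    exact (abs_le.mp h1).2
  have hsum : ∀ (s : Fin 3 → ℝ) (i : Fin 3), ⟪b i, ∑ j, s j • b j⟫_ℝ = s i := by
    intro s i
    rw [inner_sum]
    simp_rw [inner_smul_right, OrthonormalBasis.inner_eq_ite]
    simp
  obtain ⟨p, hp, q, hq, hpq⟩ := Set.mem_sub.mp (hvert (fun _ => 1) (fun _ => Or.inl rfl))
  have hpq' : ∀ i, ⟪b i, p⟫_ℝ - ⟪b i, q⟫_ℝ = 1 := by
    intro i
    have h1 := hsum (fun _ => 1) i
    rw [← hpq, inner_sub_right] at h1
    exact h1
  -- lower bound
  have hlow : ∀ x ∈ K, ∀ i, ⟪b i, q⟫_ℝ ≤ ⟪b i, x⟫_ℝ := by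
    intro x hx i
    have h1 := hbd' p hp x hx i
    have h2 := hpq' i
    linarith
  have hup : ∀ x ∈ K, ∀ i, ⟪b i, x⟫_ℝ ≤ ⟪b i, q⟫_ℝ + 1 := by
    intro x hx i
    have h1 := hbd' x hx q hq i
    linarith
  -- expansion
  have hexp : ∀ x : E, x = q + ∑ i, (⟪b i, x⟫_ℝ - ⟪b i, q⟫_ℝ) • b i := by
    intro x
    have h1 := b.sum_repr' (x - q)
    simp_rw [inner_sub_right] at h1
    rw [h1]
    abel
  -- vertices
  have hv : ∀ e : Fin 3 → ℝ, (∀ i, e i = 0 ∨ e i = 1) → q + ∑ i, e i • b i ∈ K := by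
    intro e he
    obtain ⟨x, hx, y, hy, hxy⟩ := Set.mem_sub.mp (hvert (fun i => 2 * e i - 1) (fun i => by
      rcases he i with h | h
      · right; rw [h]; norm_num
      · left; rw [h]; norm_num))
    have h2 : ∀ i, ⟪b i, x⟫_ℝ - ⟪b i, y⟫_ℝ = 2 * e i - 1 := by
      intro i
      have h1 := hsum (fun i => 2 * e i - 1) i
      rw [← hxy, inner_sub_right] at h1
      exact h1
    have h3 : ∀ i, ⟪b i, x⟫_ℝ - ⟪b i, q⟫_ℝ = e i := by
      intro i
      have a1 := hlow x hx i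
      have a2 := hup x hx i
      have a3 := hlow y hy i
      have a4 := hup y hy i
      have a5 := h2 i
      rcases he i with h | h
      · rw [h] at a5 ⊢; linarith
      · rw [h] at a5 ⊢; linarith
    have h4 := hexp x
    simp_rw [h3] at h4
    rw [← h4]
    exact hx
  -- the box is in K
  have hbox : ∀ e : Fin 3 → ℝ, (∀ i, 0 ≤ e i ∧ e i ≤ 1) → q + ∑ i, e i • b i ∈ K := by
    intro e he
    let L : (Fin 3 → ℝ) →ₗ[ℝ] E :=
      { toFun := fun e => ∑ i, e i • b i
        map_add' := by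
          intro u v
          simp only [Pi.add_apply, add_smul, Finset.sum_add_distrib]
        map_smul' := by
          intro c u
          simp only [Pi.smul_apply, smul_eq_mul, mul_smul, Finset.smul_sum, RingHom.id_apply] }
    have hconvS : Convex ℝ {e : Fin 3 → ℝ | q + L e ∈ K} := by
      intro u hu v hv' α β hα hβ hαβ
      simp only [Set.mem_ofPred_eq] at hu hv' ⊢
      have h1 : q + L (α • u + β • v) = α • (q + L u) + β • (q + L v) := by
        rw [map_add, map_smul, map_smul, smul_add, smul_add]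
        have h2 : q = α • q + β • q := by rw [← add_smul, hαβ, one_smul]
        nth_rewrite 1 [h2]
        abel
      rw [h1]
      exact hconv hu hv' hα hβ hαβ
    have hsub : convexHull ℝ (Set.univ.pi fun _ : Fin 3 => ({0, 1} : Set ℝ)) ⊆
        {e : Fin 3 → ℝ | q + L e ∈ K} := by
      apply convexHull_min _ hconvS
      intro u hu
      simp only [Set.mem_ofPred_eq]
      apply hv u
      intro i
      have := hu i (Set.mem_univ i)
      simpa using this
    have hmem : e ∈ convexHull ℝ (Set.univ.pi fun _ : Fin 3 => ({0, 1} : Set ℝ)) := by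
      rw [convexHull_pi]
      intro i _
      rw [convexHull_pair, segment_eq_Icc (by norm_num : (0 : ℝ) ≤ 1)]
      exact he i
    exact hsub hmem
  -- interior
  have hint : ∀ x : E, (∀ i, 0 < ⟪b i, x⟫_ℝ - ⟪b i, q⟫_ℝ ∧ ⟪b i, x⟫_ℝ - ⟪b i, q⟫_ℝ < 1) →
      x ∈ interior K := by
    intro x hx
    have hopen : IsOpen {x : E | ∀ i, 0 < ⟪b i, x⟫_ℝ - ⟪b i, q⟫_ℝ ∧
        ⟪b i, x⟫_ℝ - ⟪b i, q⟫_ℝ < 1} := by
      rw [Set.ofPred_forall]
      apply isOpen_iInter_of_finite
      intro i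
      have hcont : Continuous (fun x : E => ⟪b i, x⟫_ℝ - ⟪b i, q⟫_ℝ) := by fun_prop
      apply IsOpen.inter
      · exact isOpen_lt continuous_const hcont
      · exact isOpen_lt hcont continuous_const
    have hsubK : {x : E | ∀ i, 0 < ⟪b i, x⟫_ℝ - ⟪b i, q⟫_ℝ ∧
        ⟪b i, x⟫_ℝ - ⟪b i, q⟫_ℝ < 1} ⊆ K := by
      intro y hy
      rw [hexp y]
      exact hbox _ (fun i => ⟨(hy i).1.le, (hy i).2.le⟩)
    exact mem_interior.mpr ⟨_, hsubK, hopen, hx⟩
  -- the translates
  let φ : (Fin 3 → Bool) ≃ Fin 8 := Fintype.equivFinOfCardEq (by simp)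
  let T : (Fin 3 → Bool) → E := fun s => ∑ i, (if s i then (1 / 3 : ℝ) else -(1 / 3)) • b i
  refine ⟨fun k => T (φ.symm k), ?_⟩
  intro x hx
  rw [Set.mem_iUnion]
  let s : Fin 3 → Bool := fun i => decide (1 / 2 ≤ ⟪b i, x⟫_ℝ - ⟪b i, q⟫_ℝ)
  refine ⟨φ s, x - T s, ?_, ?_⟩
  · apply hint
    intro i
    have h1 : ⟪b i, T s⟫_ℝ = if s i then (1 / 3 : ℝ) else -(1 / 3) := hsum _ i
    rw [inner_sub_right, h1]
    have a1 := hlow x hx i
    have a2 := hup x hx i
    by_cases hc : 1 / 2 ≤ ⟪b i, x⟫_ℝ - ⟪b i, q⟫_ℝ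
    · have : s i = true := decide_eq_true hc
      rw [this]
      simp only [if_true]
      constructor <;> linarith
    · have : s i = false := decide_eq_false hc
      rw [this]
      simp only [Bool.false_eq_true, if_false]
      rw [not_le] at hc
      constructor <;> linarith
  · simp only [Equiv.symm_apply_apply]
    abel

end Pool.Agent.HD3
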