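import Mathlib
import Pool.Agent.HD3.Spec

/-!
HD3, COVER: from the rim to the whole body.
-/

namespace Pool.Agent.HD3

open MeasureTheory ProbabilityTheory Set
open scoped InnerProductSpace Pointwise

namespace COVER_

/-- a nonzero vector orthogonal to `p`, which spans the orthogonal complement -/
lemma exists_orth (p : E × E) (hp : LinearIndependent ℝ ![p.1, p.2]) :
    ∃ u : E, u ≠ 0 ∧ ⟪p.1, u⟫_ℝ = 0 ∧ ⟪p.2, u⟫_ℝ = 0 ∧
      ∀ g : E, ⟪g, u⟫_ℝ = 0 → ∃ a b : ℝ, g = a • p.1 + b • p.2 := by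
  set V : Submodule ℝ E := Submodule.span ℝ (Set.range ![p.1, p.2]) with hV
  have hfin : Module.finrank ℝ V = 2 := by
    rw [hV, finrank_span_eq_card hp]; simp
  have hE : Module.finrank ℝ E = 3 := by simp
  have hsum := V.finrank_add_finrank_orthogonal
  have hV1 : Module.finrank ℝ Vᗮ = 1 := by omega
  obtain ⟨⟨u, huV⟩, hu0, hu⟩ := finrank_eq_one_iff'.1 hV1
  have hu0' : u ≠ 0 := fun h => hu0 (by ext1; exact h)
  have hmem : ∀ v ∈ V, ⟪v, u⟫_ℝ = 0 := fun v hv => (V.mem_orthogonal u).1 huV v hv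
  refine ⟨u, hu0', hmem _ (Submodule.subset_span ⟨0, rfl⟩),
    hmem _ (Submodule.subset_span ⟨1, rfl⟩), fun g hg => ?_⟩
  have hgV : g ∈ V := by
    rw [← V.orthogonal_orthogonal, Submodule.mem_orthogonal]
    intro w hw
    obtain ⟨c, hc⟩ := hu ⟨w, hw⟩
    have hc' : c • u = w := congrArg Subtype.val hc
    rw [← hc', real_inner_smul_left, real_inner_comm, hg, mul_zero]
  rw [hV, Matrix.range_cons, Matrix.range_cons, Matrix.range_empty, Set.union_empty,
    Set.singleton_union, Submodule.mem_span_pair] at hgV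
  obtain ⟨a, b, hab⟩ := hgV
  exact ⟨a, b, hab.symm⟩

lemma polar (p : E × E) (a b : ℝ) (hab : a • p.1 + b • p.2 ≠ 0) :
    ∃ r t : ℝ, 0 < r ∧ a • p.1 + b • p.2 = r • circ t p := by
  set z : ℂ := ⟨a, b⟩ with hz
  have hz0 : z ≠ 0 := by
    intro h
    have h1 : a = 0 := congrArg Complex.re h
    have h2 : b = 0 := congrArg Complex.im h
    exact hab (by rw [h1, h2]; simp)
  refine ⟨‖z‖, z.arg, norm_pos_iff.2 hz0, ?_⟩
  have h1 : ‖z‖ * Real.cos z.arg = a := Complex.norm_mul_cos_arg z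
  have h2 : ‖z‖ * Real.sin z.arg = b := Complex.norm_mul_sin_arg z
  unfold circ
  rw [smul_add, smul_smul, smul_smul, h1, h2]

lemma mem_rim {K : Set E} {p : E × E} {x g : E} (hx : x ∈ K) (hg0 : g ≠ 0)
    (hg : ∃ a b : ℝ, g = a • p.1 + b • p.2) (hmax : ∀ y ∈ K, ⟪g, y⟫_ℝ ≤ ⟪g, x⟫_ℝ) :
    x ∈ rim K p := by
  obtain ⟨a, b, rfl⟩ := hg
  obtain ⟨r, t, hr, hrt⟩ := polar p a b hg0
  refine ⟨hx, t, ?_⟩
  have h1 : ∀ y ∈ K, ⟪circ t p, y⟫_ℝ ≤ ⟪circ t p, x⟫_ℝ := by
    intro y hy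
    have := hmax y hy
    rw [hrt, real_inner_smul_left, real_inner_smul_left] at this
    exact le_of_mul_le_mul_left this hr
  have h2 : IsGreatest ((fun x => ⟪circ t p, x⟫_ℝ) '' K) ⟪circ t p, x⟫_ℝ :=
    ⟨⟨x, hx, rfl⟩, by rintro _ ⟨y, hy, rfl⟩; exact h1 y hy⟩
  exact h2.csSup_eq.symm

/-- off the rim the line in direction `u` enters the interior -/
lemma off_rim {K : Set E} (hK : IsCompact K) (hc : Convex ℝ K) (hi : (interior K).Nonempty)
    {p : E × E} {u : E} (hu : ∀ g : E, ⟪g, u⟫_ℝ = 0 → ∃ a b : ℝ, g = a • p.1 + b • p.2)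
    {x : E} (hx : x ∈ K) (hxr : x ∉ rim K p) : ∃ s : ℝ, s ≠ 0 ∧ x + s • u ∈ interior K := by
  by_contra hcon
  push Not at hcon
  have hline : ∀ s : ℝ, x + s • u ∉ interior K := by
    intro s hs
    rcases eq_or_ne s 0 with rfl | h0
    · rw [zero_smul, add_zero] at hs
      have hcont : Filter.Tendsto (fun s : ℝ => x + s • u) (nhdsWithin 0 {0}ᶜ) (nhds x) := by
        have : Continuous fun s : ℝ => x + s • u := by fun_prop
        have h2 := this.tendsto 0
        rw [zero_smul, add_zero] at h2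
        exact h2.mono_left nhdsWithin_le_nhds
      have h3 := (hcont.eventually (isOpen_interior.mem_nhds hs)).and
        (self_mem_nhdsWithin : ({0}ᶜ : Set ℝ) ∈ nhdsWithin 0 {0}ᶜ)
      obtain ⟨s, hs1, hs2⟩ := h3.exists
      exact hcon s hs2 hs1
    · exact hcon s h0 hs
  have hlc : Convex ℝ (Set.range fun s : ℝ => x + s • u) := by
    rintro _ ⟨s, rfl⟩ _ ⟨t, rfl⟩ a b ha hb hab
    refine ⟨a * s + b * t, ?_⟩
    have : x = (a + b) • x := by rw [hab, one_smul]
    simp only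
    nth_rewrite 1 [this]
    module
  have hdisj : Disjoint (interior K) (Set.range fun s : ℝ => x + s • u) := by
    rw [Set.disjoint_right]
    rintro _ ⟨s, rfl⟩
    exact hline s
  obtain ⟨f, r, hf1, hf2⟩ := geometric_hahn_banach_open hc.interior isOpen_interior hlc hdisj
  have hfu : f u = 0 := by
    by_contra hne
    have h1 := hf2 _ ⟨(r - 1 - f x) / f u, rfl⟩
    rw [map_add, map_smul, smul_eq_mul, div_mul_cancel₀ _ hne] at h1
    linarith
  have hfx : r ≤ f x := by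
    have h1 := hf2 _ ⟨0, rfl⟩
    simpa using h1
  have hfK : ∀ y ∈ K, f y ≤ r := by
    intro y hy
    have hcl : y ∈ closure (interior K) := by
      rw [hc.closure_interior_eq_closure_of_nonempty_interior hi]
      exact subset_closure hy
    exact closure_minimal (fun z hz => (hf1 z hz).le) (isClosed_le f.continuous
      continuous_const) hcl
  obtain ⟨w, hw⟩ := hi
  set g : E := (InnerProductSpace.toDual ℝ E).symm f with hg
  have hgf : ∀ y, ⟪g, y⟫_ℝ = f y := fun y => by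
    rw [hg, InnerProductSpace.toDual_symm_apply]
  have hg0 : g ≠ 0 := by
    intro h0
    have h1 := hf1 w hw
    rw [← hgf w, h0, inner_zero_left] at h1
    rw [← hgf x, h0, inner_zero_left] at hfx
    linarith
  refine hxr (mem_rim hx hg0 (hu g (by rw [hgf, hfu])) fun y hy => ?_)
  rw [hgf, hgf]
  exact (hfK y hy).trans hfx

lemma shrink {K : Set E} (hc : Convex ℝ K) {x u : E} {s δ : ℝ} (hx : x ∈ K)
    (hs : x + s • u ∈ interior K) (hδ : 0 < δ) (hδs : δ ≤ s) : x + δ • u ∈ interior K := by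
  have hs0 : 0 < s := hδ.trans_le hδs
  have h1 := hc.combo_interior_self_mem_interior hs hx (div_pos hδ hs0)
    (sub_nonneg.2 ((div_le_one hs0).2 hδs)) (by ring : δ / s + (1 - δ / s) = 1)
  have h2 : (δ / s) • (x + s • u) + (1 - δ / s) • x = x + δ • u := by
    rw [smul_add, smul_smul, div_mul_cancel₀ _ hs0.ne']
    module
  rwa [h2] at h1

end COVER_

open COVER_

theorem p_COVER : T_COVER := by
  intro K hK hc hi p hp c hc0 hc1 hz
  obtain ⟨z, hz⟩ := hz
  obtain ⟨u, hu0, hu1, hu2, hu⟩ := exists_orth p hp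
  obtain ⟨c0, hc0i⟩ := id hi
  set W : Set E := ⋃ j : Fin 6, (fun x => (z j - (1 - c) • c0) + x) '' interior K with hW
  have hWo : IsOpen W := isOpen_iUnion fun j =>
    (Homeomorph.addLeft (z j - (1 - c) • c0)).isOpenMap _ isOpen_interior
  have hrW : rim K p ⊆ W := by
    intro x hx
    obtain ⟨j, y, hy, rfl⟩ := hz x hx
    rw [hW, mem_iUnion]
    refine ⟨j, (1 - c) • c0 + c • y, hc.combo_interior_self_mem_interior hc0i hy
      (by linarith) hc0.le (by ring), ?_⟩
    simp only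
    abel
  have hKW : IsCompact (K \ W) := hK.diff hWo
  set P : ℕ → Set E := fun n => ⋃ s : {s : ℝ // 1 / ((n : ℝ) + 1) ≤ s},
    ((fun x => x + (s : ℝ) • u) ⁻¹' interior K ∪ (fun x => x - (s : ℝ) • u) ⁻¹' interior K)
    with hP
  have hPo : ∀ n, IsOpen (P n) := by
    intro n
    refine isOpen_iUnion fun s => IsOpen.union ?_ ?_
    · exact isOpen_interior.preimage (by fun_prop)
    · exact isOpen_interior.preimage (by fun_prop)
  have hPm : Monotone P := by
    intro m n hmn x hx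
    simp only [hP, mem_iUnion] at hx ⊢
    obtain ⟨⟨s, hs⟩, hx⟩ := hx
    refine ⟨⟨s, le_trans ?_ hs⟩, hx⟩
    have : (m : ℝ) ≤ n := by exact_mod_cast hmn
    apply one_div_le_one_div_of_le (by positivity)
    linarith
  have hPc : K \ W ⊆ ⋃ n, P n := by
    rintro x ⟨hxK, hxW⟩
    obtain ⟨s, hs0, hs⟩ := off_rim hK hc hi hu hxK fun hr => hxW (hrW hr)
    obtain ⟨n, hn⟩ := exists_nat_one_div_lt (abs_pos.2 hs0)
    rw [mem_iUnion]
    refine ⟨n, ?_⟩
    simp only [hP, mem_iUnion]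
    refine ⟨⟨|s|, hn.le⟩, ?_⟩
    rcases abs_choice s with h | h
    · left
      simp only [mem_preimage, h]
      exact hs
    · right
      simp only [mem_preimage, h, neg_smul, sub_neg_eq_add]
      exact hs
  obtain ⟨N, hN⟩ := hKW.elim_directed_cover P hPo hPc hPm.directed_le
  set δ : ℝ := 1 / ((N : ℝ) + 1) with hδ
  have hδ0 : 0 < δ := by positivity
  refine ⟨![z 0 - (1 - c) • c0, z 1 - (1 - c) • c0, z 2 - (1 - c) • c0, z 3 - (1 - c) • c0,
    z 4 - (1 - c) • c0, z 5 - (1 - c) • c0, -(δ • u), δ • u], ?_⟩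
  intro x hx
  rw [mem_iUnion]
  by_cases hxW : x ∈ W
  · rw [hW, mem_iUnion] at hxW
    obtain ⟨j, hj⟩ := hxW
    fin_cases j
    · exact ⟨0, hj⟩
    · exact ⟨1, hj⟩
    · exact ⟨2, hj⟩
    · exact ⟨3, hj⟩
    · exact ⟨4, hj⟩
    · exact ⟨5, hj⟩
  · have h1 := hN ⟨hx, hxW⟩
    simp only [hP, mem_iUnion] at h1
    obtain ⟨⟨s, hs⟩, h1 | h1⟩ := h1
    · refine ⟨6, x + δ • u, shrink hc hx h1 hδ0 hs, ?_⟩
      show -(δ • u) + (x + δ • u) = x
      abel
    · have h2 : x + s • (-u) ∈ interior K := by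
        rw [smul_neg, ← sub_eq_add_neg]; exact h1
      refine ⟨7, x + δ • (-u), shrink hc hx h2 hδ0 hs, ?_⟩
      show δ • u + (x + δ • (-u)) = x
      rw [smul_neg]
      abel

end Pool.Agent.HD3
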