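import Mathlib
import Pool.Agent.HD3.Spec

/-!
HD3, job CURVE: a curve of length at most `c` in the norm of `K - K` lies in a translate of `c K`.
-/

namespace Pool.Agent.HD3

open MeasureTheory ProbabilityTheory Set
open scoped InnerProductSpace Pointwise

theorem p_CHAIN : T_CHAIN := by
  intro K hK hne m
  induction m with
  | zero =>
    intro q l _ _
    obtain ⟨x, hx⟩ := hne
    refine ⟨q 0, fun i hi => ⟨x, hx, ?_⟩⟩
    have : i = 0 := by omega
    subst this
    simp
  | succ m ih =>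
    intro q l hl hq
    obtain ⟨t, ht⟩ := ih q l hl (fun i hi => hq i (by omega))
    obtain ⟨x, hx, y, hy, hxy⟩ := hq m (by omega)
    have hL : 0 ≤ ∑ j ∈ Finset.range m, l j := Finset.sum_nonneg fun i _ => hl i
    refine ⟨t - l m • y, fun i hi => ?_⟩
    rw [Finset.sum_range_succ]
    rcases Nat.lt_or_ge m i with h | h
    · have hi' : i = m + 1 := by omega
      subst hi'
      obtain ⟨k, hk, hk2⟩ := ht m le_rfl
      obtain ⟨w, hw, hw2⟩ := hK.exists_mem_add_smul_eq hk hx hL (hl m)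
      refine ⟨w, hw, ?_⟩
      rw [hw2]
      have h1 : q (m + 1) = q m + l m • (x - y) := by rw [← hxy]; abel
      rw [h1, hk2, smul_sub]
      abel
    · obtain ⟨k, hk, hk2⟩ := ht i h
      obtain ⟨w, hw, hw2⟩ := hK.exists_mem_add_smul_eq hk hy hL (hl m)
      refine ⟨w, hw, ?_⟩
      rw [hw2, hk2]
      abel

theorem p_CURVE (hChain : T_CHAIN) : T_CURVE := by
  intro K hK hcv hne hball c a b f hc hab hf
  set L : ℝ := c * (b - a) with hL
  have hL0 : 0 ≤ L := mul_nonneg hc (by linarith)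
  -- discretisation
  have key : ∀ n : ℕ, ∃ z : E, ∀ i ≤ n + 1, ∃ x ∈ K,
      f (a + (b - a) * ((i : ℝ) / ((n : ℝ) + 1))) = z + L • x := by
    intro n
    have hn : (0 : ℝ) < (n : ℝ) + 1 := by positivity
    have hmem : ∀ i : ℕ, i ≤ n + 1 → a + (b - a) * ((i : ℝ) / ((n : ℝ) + 1)) ∈ Icc a b := by
      intro i hi
      have h1 : (0 : ℝ) ≤ (i : ℝ) / ((n : ℝ) + 1) := by positivity
      have h2 : (i : ℝ) / ((n : ℝ) + 1) ≤ 1 := by
        rw [div_le_one hn]
        exact_mod_cast hi
      constructor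
      · nlinarith
      · nlinarith
    obtain ⟨z, hz⟩ := hChain K hcv hne (n + 1)
      (fun i => f (a + (b - a) * ((i : ℝ) / ((n : ℝ) + 1)))) (fun _ => L / ((n : ℝ) + 1))
      (fun _ => by positivity) (by
        intro i hi
        have hd := hf _ (hmem (i + 1) (by omega)) _ (hmem i (by omega))
        have habs : |a + (b - a) * (((i + 1 : ℕ) : ℝ) / ((n : ℝ) + 1)) -
            (a + (b - a) * ((i : ℝ) / ((n : ℝ) + 1)))| = (b - a) / ((n : ℝ) + 1) := by
          have h1 : a + (b - a) * (((i + 1 : ℕ) : ℝ) / ((n : ℝ) + 1)) -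
            (a + (b - a) * ((i : ℝ) / ((n : ℝ) + 1))) = (b - a) / ((n : ℝ) + 1) := by
            push_cast
            field_simp
            ring
          rw [h1]
          exact abs_of_nonneg (div_nonneg (by linarith) hn.le)
        rw [habs] at hd
        have hd' : ‖f (a + (b - a) * (((i + 1 : ℕ) : ℝ) / ((n : ℝ) + 1))) -
            f (a + (b - a) * ((i : ℝ) / ((n : ℝ) + 1)))‖ ≤ L / ((n : ℝ) + 1) := by
          refine hd.trans (le_of_eq ?_)
          rw [hL]; ring
        rcases (div_nonneg hL0 hn.le).eq_or_lt with h0 | h0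
        · obtain ⟨x, hx⟩ := hne
          refine ⟨x, hx, x, hx, ?_⟩
          rw [← h0] at hd'
          have := norm_le_zero_iff.1 hd'
          simpa using this
        · set w : E := (L / ((n : ℝ) + 1))⁻¹ • (f (a + (b - a) * (((i + 1 : ℕ) : ℝ) / ((n : ℝ) + 1))) -
            f (a + (b - a) * ((i : ℝ) / ((n : ℝ) + 1)))) with hw
          have hw1 : w ∈ K - K := by
            apply hball
            rw [Metric.mem_closedBall, dist_zero_right, hw, norm_smul, norm_inv, Real.norm_eq_abs,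
              abs_of_pos h0, inv_mul_le_iff₀ h0, mul_one]
            exact hd'
          obtain ⟨x, hx, y, hy, hxy⟩ := hw1
          refine ⟨x, hx, y, hy, ?_⟩
          have hxy' : x - y = w := hxy
          rw [hxy', hw, smul_smul, mul_inv_cancel₀ h0.ne', one_smul])
    refine ⟨z, fun i hi => ?_⟩
    obtain ⟨x, hx, hx2⟩ := hz i hi
    refine ⟨x, hx, ?_⟩
    rw [hx2]
    have : ∑ _j ∈ Finset.range (n + 1), L / ((n : ℝ) + 1) = L := by
      rw [Finset.sum_const, Finset.card_range, nsmul_eq_mul]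
      push_cast
      field_simp
    rw [this]
  choose z hz using key
  -- compactness
  have hKL : IsCompact ((fun x : E => L • x) '' K) := hK.image (continuous_const_smul L)
  have hz0 : ∀ n, z n ∈ (fun x : E => f a - x) '' ((fun x : E => L • x) '' K) := by
    intro n
    obtain ⟨x, hx, hx2⟩ := hz n 0 (by omega)
    refine ⟨L • x, ⟨x, hx, rfl⟩, ?_⟩
    have h1 : a + (b - a) * (((0 : ℕ) : ℝ) / ((n : ℝ) + 1)) = a := by simp
    rw [h1] at hx2
    simp only
    rw [hx2]
    abel
  obtain ⟨z0, -, φ, hφ, hlim⟩ :=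
    (hKL.image (continuous_const.sub continuous_id : Continuous fun x : E => f a - x)).tendsto_subseq
      hz0
  refine ⟨z0, fun s hs => ?_⟩
  -- write `s = a + θ (b - a)`
  obtain ⟨θ, hθ0, hθ1, hsθ⟩ : ∃ θ : ℝ, 0 ≤ θ ∧ θ ≤ 1 ∧ s = a + (b - a) * θ := by
    rcases hab.eq_or_lt with h | h
    · refine ⟨0, le_rfl, zero_le_one, ?_⟩
      subst h
      have := le_antisymm hs.2 hs.1
      simp [this]
    · have hba : 0 < b - a := by linarith
      refine ⟨(s - a) / (b - a), div_nonneg (by linarith [hs.1]) hba.le, ?_, ?_⟩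
      · rw [div_le_one hba]; linarith [hs.2]
      · field_simp
        ring
  have hfl : Filter.Tendsto (fun n : ℕ => (⌊θ * ((n : ℝ) + 1)⌋₊ : ℝ) / ((n : ℝ) + 1)) Filter.atTop
      (nhds θ) := by
    have h1 := tendsto_nat_floor_mul_div_atTop (R := ℝ) hθ0
    have h2 : Filter.Tendsto (fun n : ℕ => (n : ℝ) + 1) Filter.atTop Filter.atTop :=
      Filter.tendsto_atTop_add_const_right _ _ tendsto_natCast_atTop_atTop
    exact h1.comp h2
  have hfi : ∀ n : ℕ, ⌊θ * ((n : ℝ) + 1)⌋₊ ≤ n + 1 := by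
    intro n
    have hn : (0 : ℝ) < (n : ℝ) + 1 := by positivity
    have h1 : θ * ((n : ℝ) + 1) ≤ ((n + 1 : ℕ) : ℝ) := by
      push_cast
      nlinarith
    have h2 := Nat.floor_le_floor h1
    rwa [Nat.floor_natCast] at h2
  set u : ℕ → ℝ := fun n => a + (b - a) * ((⌊θ * ((n : ℝ) + 1)⌋₊ : ℝ) / ((n : ℝ) + 1)) with hu
  have hulim : Filter.Tendsto u Filter.atTop (nhds s) := by
    rw [hsθ]
    exact (hfl.const_mul (b - a)).const_add a
  have humem : ∀ n, u n ∈ Icc a b := by
    intro n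
    have hn : (0 : ℝ) < (n : ℝ) + 1 := by positivity
    have h1 : (0 : ℝ) ≤ (⌊θ * ((n : ℝ) + 1)⌋₊ : ℝ) / ((n : ℝ) + 1) := by positivity
    have h2 : (⌊θ * ((n : ℝ) + 1)⌋₊ : ℝ) / ((n : ℝ) + 1) ≤ 1 := by
      rw [div_le_one hn]
      exact_mod_cast hfi n
    constructor
    · simp only [hu]; nlinarith
    · simp only [hu]; nlinarith
  have hflim : Filter.Tendsto (fun n => f (u n)) Filter.atTop (nhds (f s)) := by
    rw [tendsto_iff_norm_sub_tendsto_zero]
    have h1 : Filter.Tendsto (fun n => c * |u n - s|) Filter.atTop (nhds 0) := by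
      have h2 : Filter.Tendsto (fun n => |u n - s|) Filter.atTop (nhds 0) := by
        have h3 := (hulim.sub_const s).abs
        simpa using h3
      simpa using h2.const_mul c
    exact squeeze_zero (fun n => norm_nonneg _) (fun n => hf _ (humem n) _ hs) h1
  have hmem : ∀ n, f (u (φ n)) - z (φ n) ∈ (fun x : E => L • x) '' K := by
    intro n
    obtain ⟨x, hx, hx2⟩ := hz (φ n) _ (hfi (φ n))
    refine ⟨x, hx, ?_⟩
    simp only [hu]
    rw [hx2]
    abel
  have hlast : Filter.Tendsto (fun n => f (u (φ n)) - z (φ n)) Filter.atTop (nhds (f s - z0)) :=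
    (hflim.comp hφ.tendsto_atTop).sub hlim
  obtain ⟨x, hx, hx2⟩ := hKL.isClosed.mem_of_tendsto hlast (Filter.Eventually.of_forall hmem)
  refine ⟨x, hx, ?_⟩
  simp only at hx2
  rw [hx2]
  abel

end Pool.Agent.HD3
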