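import Mathlib
import Pool.Agent.HD3.Spec

/-!
HD3-DET: the rim of a generic pair is covered by six small copies of the body.
-/

namespace Pool.Agent.HD3

open MeasureTheory ProbabilityTheory Set
open scoped InnerProductSpace Pointwise

namespace DET_

lemma circ_sub (t D : ℝ) (p : E × E) :
    circ (t - D) p = Real.cos D • circ t p - Real.sin D • circ (t + Real.pi / 2) p := by
  unfold circ
  rw [Real.cos_sub, Real.sin_sub, Real.cos_add_pi_div_two, Real.sin_add_pi_div_two]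
  module

lemma circ_add (t D : ℝ) (p : E × E) :
    circ (t + D) p = Real.cos D • circ t p + Real.sin D • circ (t + Real.pi / 2) p := by
  unfold circ
  rw [Real.cos_add, Real.sin_add, Real.cos_add_pi_div_two, Real.sin_add_pi_div_two]
  module

lemma fst_eq (t : ℝ) (p : E × E) :
    p.1 = Real.cos t • circ t p - Real.sin t • circ (t + Real.pi / 2) p := by
  have h := circ_sub t t p
  rw [← h]
  simp [circ]

lemma snd_eq (t : ℝ) (p : E × E) :
    p.2 = Real.sin t • circ t p + Real.cos t • circ (t + Real.pi / 2) p := by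
  unfold circ
  rw [Real.cos_add_pi_div_two, Real.sin_add_pi_div_two]
  have h := Real.sin_sq_add_cos_sq t
  have : p.2 = (Real.sin t ^ 2 + Real.cos t ^ 2) • p.2 := by rw [h, one_smul]
  conv_lhs => rw [this]
  module

lemma circ_dist (s t : ℝ) (p : E × E) :
    ‖circ s p - circ t p‖ ≤ (‖p.1‖ + ‖p.2‖) * |s - t| := by
  have e : circ s p - circ t p = (Real.cos s - Real.cos t) • p.1 +
      (Real.sin s - Real.sin t) • p.2 := by
    unfold circ; module
  rw [e]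
  have h1 : |Real.cos s - Real.cos t| ≤ |s - t| := by
    have := Real.lipschitzWith_cos.dist_le_mul s t
    simpa [Real.dist_eq] using this
  have h2 : |Real.sin s - Real.sin t| ≤ |s - t| := by
    have := Real.lipschitzWith_sin.dist_le_mul s t
    simpa [Real.dist_eq] using this
  calc _ ≤ ‖(Real.cos s - Real.cos t) • p.1‖ + ‖(Real.sin s - Real.sin t) • p.2‖ :=
        norm_add_le _ _
    _ = |Real.cos s - Real.cos t| * ‖p.1‖ + |Real.sin s - Real.sin t| * ‖p.2‖ := by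
        rw [norm_smul, norm_smul, Real.norm_eq_abs, Real.norm_eq_abs]
    _ ≤ |s - t| * ‖p.1‖ + |s - t| * ‖p.2‖ := by gcongr
    _ = _ := by ring

lemma circ_periodic (t : ℝ) (n : ℤ) (p : E × E) :
    circ (t - n * (2 * Real.pi)) p = circ t p := by
  unfold circ
  rw [Real.cos_sub_int_mul_two_pi, Real.sin_sub_int_mul_two_pi]

/-- One dyadic level: a point of the polygon close to the support plane of `x`. -/
lemma level (K : Set E) (p : E × E) (R C : ℝ) (hRn : 0 ≤ R)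
    (hLip : ∀ g g' : E, |h K g - h K g'| ≤ R * ‖g - g'‖) (hR : ∀ x ∈ K, ‖x‖ ≤ R)
    (hle : ∀ x ∈ K, ∀ g, ⟪g, x⟫_ℝ ≤ h K g)
    (hG : ∀ (k i : ℕ), G K (circ (2 * Real.pi * (i : ℝ) / 2 ^ k) p) ∈ K ∧
      ⟪circ (2 * Real.pi * (i : ℝ) / 2 ^ k) p, G K (circ (2 * Real.pi * (i : ℝ) / 2 ^ k) p)⟫_ℝ =
        h K (circ (2 * Real.pi * (i : ℝ) / 2 ^ k) p))
    (hu : ∀ (k i : ℕ), ∀ x ∈ K, ⟪circ (2 * Real.pi * (i : ℝ) / 2 ^ k) p, x⟫_ℝ =
        h K (circ (2 * Real.pi * (i : ℝ) / 2 ^ k) p) →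
        x = G K (circ (2 * Real.pi * (i : ℝ) / 2 ^ k) p))
    (hC : ∀ s t : ℝ, ‖circ s p - circ t p‖ ≤ C * |s - t|) (hC0 : 0 ≤ C)
    (x : E) (hx : x ∈ K) (t : ℝ) (ht0 : 0 ≤ t) (ht1 : t < 2 * Real.pi)
    (hxt : ⟪circ t p, x⟫_ℝ = h K (circ t p)) (k : ℕ) (hk : 3 ≤ k) :
    ∃ i : ℕ, i < 2 ^ k ∧ ∃ y ∈ segment ℝ (G K (circ (2 * Real.pi * (i : ℝ) / 2 ^ k) p))
        (G K (circ (2 * Real.pi * ((i + 1 : ℕ) : ℝ) / 2 ^ k) p)),
      ⟪circ (t + Real.pi / 2) p, y⟫_ℝ = ⟪circ (t + Real.pi / 2) p, x⟫_ℝ ∧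
      h K (circ t p) - 2 * R * C * (2 * Real.pi / 2 ^ k) ≤ ⟪circ t p, y⟫_ℝ := by
  have hpi := Real.pi_pos
  have h2k : (0 : ℝ) < 2 ^ k := by positivity
  have h8 : (8 : ℝ) ≤ 2 ^ k := by
    calc (8 : ℝ) = 2 ^ 3 := by norm_num
      _ ≤ 2 ^ k := pow_le_pow_right₀ (by norm_num) hk
  set g := circ t p with hg
  set g' := circ (t + Real.pi / 2) p with hg'
  set i : ℕ := ⌊t * 2 ^ k / (2 * Real.pi)⌋₊ with hi
  have hi1 : (i : ℝ) ≤ t * 2 ^ k / (2 * Real.pi) := Nat.floor_le (by positivity)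
  have hi2 : t * 2 ^ k / (2 * Real.pi) < i + 1 := Nat.lt_floor_add_one _
  have hik : i < 2 ^ k := by
    rw [hi, Nat.floor_lt (by positivity)]
    push_cast
    rw [div_lt_iff₀ (by positivity)]
    nlinarith
  have hi1' : 2 * Real.pi * (i : ℝ) / 2 ^ k ≤ t := by
    rw [le_div_iff₀ (by positivity)] at hi1
    rw [div_le_iff₀ h2k]; linarith
  have hi2' : t < 2 * Real.pi * ((i + 1 : ℕ) : ℝ) / 2 ^ k := by
    rw [div_lt_iff₀ (by positivity)] at hi2
    rw [lt_div_iff₀ h2k]; push_cast; linarith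
  have hstep : 2 * Real.pi * ((i + 1 : ℕ) : ℝ) / 2 ^ k - 2 * Real.pi * (i : ℝ) / 2 ^ k
      = 2 * Real.pi / 2 ^ k := by
    push_cast; ring
  have hsmall : 2 * Real.pi / 2 ^ k ≤ Real.pi / 4 := by
    rw [div_le_iff₀ h2k]; nlinarith
  set a := 2 * Real.pi * (i : ℝ) / 2 ^ k with ha
  set b := 2 * Real.pi * ((i + 1 : ℕ) : ℝ) / 2 ^ k with hb
  set D := t - a with hD
  set D' := b - t with hD'
  have hD0 : 0 ≤ D := by linarith
  have hD1 : D ≤ 2 * Real.pi / 2 ^ k := by linarith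
  have hD'0 : 0 < D' := by linarith
  have hD'1 : D' ≤ 2 * Real.pi / 2 ^ k := by linarith
  obtain ⟨hqa, hqa2⟩ := hG k i
  obtain ⟨hqb, hqb2⟩ := hG k (i + 1)
  rw [← ha] at hqa hqa2
  rw [← hb] at hqb hqb2
  set qa := G K (circ a p) with hqadef
  set qb := G K (circ b p) with hqbdef
  -- values of `g` at the two vertices
  have key : ∀ s : ℝ, |t - s| ≤ 2 * Real.pi / 2 ^ k → ∀ q ∈ K, ⟪circ s p, q⟫_ℝ = h K (circ s p) →
      h K g - 2 * R * C * (2 * Real.pi / 2 ^ k) ≤ ⟪g, q⟫_ℝ := by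
    intro s hs q hq hqs
    have e1 : ‖g - circ s p‖ ≤ C * (2 * Real.pi / 2 ^ k) :=
      (hC t s).trans (mul_le_mul_of_nonneg_left hs hC0)
    have e2 := hLip g (circ s p)
    have e3 : |⟪g - circ s p, q⟫_ℝ| ≤ ‖g - circ s p‖ * ‖q‖ := abs_real_inner_le_norm _ _
    have e4 := hR q hq
    have e5 : ⟪g, q⟫_ℝ = ⟪g - circ s p, q⟫_ℝ + ⟪circ s p, q⟫_ℝ := by
      rw [inner_sub_left]; ring
    have e6 : ‖g - circ s p‖ * ‖q‖ ≤ (C * (2 * Real.pi / 2 ^ k)) * R := by gcongr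
    have e7 : R * ‖g - circ s p‖ ≤ R * (C * (2 * Real.pi / 2 ^ k)) := by gcongr
    have e8 := abs_le.1 e2
    have e9 := abs_le.1 e3
    rw [e5, hqs]
    nlinarith [e8.1, e8.2, e9.1, e9.2]
  have ka := key a (by rw [abs_le]; constructor <;> linarith) qa hqa hqa2
  have kb := key b (by rw [abs_le]; constructor <;> linarith) qb hqb hqb2
  rcases hD0.eq_or_lt with hz | hpos
  · -- `t` is a dyadic angle
    have hta : t = a := by linarith
    have hxq : x = qa := by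
      have := hu k i x hx
      rw [← ha, ← hta] at this
      have h3 := this hxt
      rw [hqadef, ← hta]; exact h3
    refine ⟨i, hik, x, ?_, rfl, ?_⟩
    · rw [← ha, ← hb, ← hqadef, ← hqbdef, hxq]; exact left_mem_segment ℝ _ _
    · rw [hxq]; exact ka
  · have hsinD : 0 < Real.sin D := Real.sin_pos_of_pos_of_lt_pi hpos (by linarith)
    have hcosD : 0 ≤ Real.cos D := Real.cos_nonneg_of_neg_pi_div_two_le_of_le (by linarith)
      (by linarith)
    have hsinD' : 0 < Real.sin D' := Real.sin_pos_of_pos_of_lt_pi hD'0 (by linarith)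
    have hcosD' : 0 ≤ Real.cos D' := Real.cos_nonneg_of_neg_pi_div_two_le_of_le (by linarith)
      (by linarith)
    have ea : circ a p = Real.cos D • g - Real.sin D • g' := by
      rw [← circ_sub]; congr 1; rw [hD]; ring
    have eb : circ b p = Real.cos D' • g + Real.sin D' • g' := by
      rw [← circ_add]; congr 1; rw [hD']; ring
    have ga : ⟪g, qa⟫_ℝ ≤ ⟪g, x⟫_ℝ := by rw [hxt]; exact hle qa hqa g
    have gb : ⟪g, qb⟫_ℝ ≤ ⟪g, x⟫_ℝ := by rw [hxt]; exact hle qb hqb g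
    have oa : ⟪circ a p, x⟫_ℝ ≤ ⟪circ a p, qa⟫_ℝ := by rw [hqa2]; exact hle x hx _
    have ob : ⟪circ b p, x⟫_ℝ ≤ ⟪circ b p, qb⟫_ℝ := by rw [hqb2]; exact hle x hx _
    rw [ea, inner_sub_left, inner_sub_left, real_inner_smul_left, real_inner_smul_left,
      real_inner_smul_left, real_inner_smul_left] at oa
    rw [eb, inner_add_left, inner_add_left, real_inner_smul_left, real_inner_smul_left,
      real_inner_smul_left, real_inner_smul_left] at ob
    have la : ⟪g', qa⟫_ℝ ≤ ⟪g', x⟫_ℝ := by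
      have h1 : Real.cos D * ⟪g, qa⟫_ℝ ≤ Real.cos D * ⟪g, x⟫_ℝ :=
        mul_le_mul_of_nonneg_left ga hcosD
      have h2 : Real.sin D * ⟪g', qa⟫_ℝ ≤ Real.sin D * ⟪g', x⟫_ℝ := by linarith
      exact le_of_mul_le_mul_left h2 hsinD
    have lb : ⟪g', x⟫_ℝ ≤ ⟪g', qb⟫_ℝ := by
      have h1 : Real.cos D' * ⟪g, qb⟫_ℝ ≤ Real.cos D' * ⟪g, x⟫_ℝ :=
        mul_le_mul_of_nonneg_left gb hcosD'
      have h2 : Real.sin D' * ⟪g', x⟫_ℝ ≤ Real.sin D' * ⟪g', qb⟫_ℝ := by linarith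
      exact le_of_mul_le_mul_left h2 hsinD'
    -- intermediate value on the segment
    have hmem : ∃ θ : ℝ, 0 ≤ θ ∧ θ ≤ 1 ∧
        (1 - θ) * ⟪g', qa⟫_ℝ + θ * ⟪g', qb⟫_ℝ = ⟪g', x⟫_ℝ := by
      rcases (la.trans lb).eq_or_lt with h0 | h0
      · exact ⟨0, le_rfl, zero_le_one, by linarith⟩
      · refine ⟨(⟪g', x⟫_ℝ - ⟪g', qa⟫_ℝ) / (⟪g', qb⟫_ℝ - ⟪g', qa⟫_ℝ), ?_, ?_, ?_⟩
        · exact div_nonneg (by linarith) (by linarith)
        · rw [div_le_one (by linarith)]; linarith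
        · have : ⟪g', qb⟫_ℝ - ⟪g', qa⟫_ℝ ≠ 0 := by linarith
          field_simp
          ring
    obtain ⟨θ, hθ0, hθ1, hθ⟩ := hmem
    refine ⟨i, hik, (1 - θ) • qa + θ • qb, ?_, ?_, ?_⟩
    · rw [← ha, ← hb, ← hqadef, ← hqbdef]
      exact ⟨1 - θ, θ, by linarith, hθ0, by ring, rfl⟩
    · rw [inner_add_right, real_inner_smul_right, real_inner_smul_right]; exact hθ
    · rw [inner_add_right, real_inner_smul_right, real_inner_smul_right]
      have m1 := mul_le_mul_of_nonneg_left ka (sub_nonneg.2 hθ1)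
      have m2 := mul_le_mul_of_nonneg_left kb hθ0
      linarith

end DET_

open DET_

theorem p_DET (hB : T_BASIC) (hCu : T_CURVE) (hPo : T_POLY) : T_DET := by
  intro K hK hKc hKn hball p hLI hgen hdiff c hc hlen
  obtain ⟨-, ⟨R, hLip, hR⟩, -, hle, hex, hu, -⟩ := hB K hK hKn
  have hpi := Real.pi_pos
  have hG : ∀ (k i : ℕ), G K (circ (2 * Real.pi * (i : ℝ) / 2 ^ k) p) ∈ K ∧
      ⟪circ (2 * Real.pi * (i : ℝ) / 2 ^ k) p, G K (circ (2 * Real.pi * (i : ℝ) / 2 ^ k) p)⟫_ℝ =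
        h K (circ (2 * Real.pi * (i : ℝ) / 2 ^ k) p) := by
    intro k i
    obtain ⟨x, hx, hx2⟩ := hex (circ (2 * Real.pi * (i : ℝ) / 2 ^ k) p)
    have := hu _ (hdiff k i) x hx hx2
    rw [← this]; exact ⟨hx, hx2⟩
  have hLip' : ∀ g g' : E, |h K g - h K g'| ≤ R * ‖g - g'‖ := by
    intro g g'
    have := hLip.dist_le_mul g g'
    rwa [Real.dist_eq, dist_eq_norm] at this
  -- the polygons
  have hf : ∀ k : ℕ, ∃ f : ℝ → E, (∀ s t : ℝ, ‖f s - f t‖ ≤ 6 * c * |s - t|) ∧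
      (∀ s, f s ∈ K) ∧ ∀ i : ℕ, i < 2 ^ k → ∀ y ∈ segment ℝ
        (G K (circ (2 * Real.pi * (i : ℝ) / 2 ^ k) p))
        (G K (circ (2 * Real.pi * ((i + 1 : ℕ) : ℝ) / 2 ^ k) p)),
        ∃ s ∈ Icc (0 : ℝ) 1, f s = y := by
    intro k
    obtain ⟨f, h1, h2, h3⟩ := hPo (2 ^ k)
      (fun i => G K (circ (2 * Real.pi * (i : ℝ) / 2 ^ k) p)) (6 * c) (by positivity) (by
        have := hlen k
        unfold plen at this
        simpa using this)
    exact ⟨f, h1, h2 K hKc (fun i _ => (hG k i).1), h3⟩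
  choose f hf1 hf2 hf3 using hf
  -- ultrafilter limit
  set U : Ultrafilter ℕ := Filter.hyperfilter ℕ with hU
  have hUinf : (U : Filter ℕ) ≤ Filter.atTop := by
    rw [← Nat.cofinite_eq_atTop]; exact Filter.hyperfilter_le_cofinite
  have hlim : ∀ s : ℝ, ∃ y ∈ K, Filter.Tendsto (fun k => f k s) U (nhds y) := by
    intro s
    obtain ⟨y, hy, hy2⟩ := isCompact_iff_ultrafilter_le_nhds.1 hK (U.map (fun k => f k s)) (by
      rw [Filter.le_principal_iff]
      exact Filter.mem_map.2 (Filter.univ_mem' (fun k => hf2 k s)))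
    exact ⟨y, hy, hy2⟩
  choose F hFK hF using hlim
  have hFL : ∀ s t : ℝ, ‖F s - F t‖ ≤ 6 * c * |s - t| := by
    intro s t
    have h1 : Filter.Tendsto (fun k => ‖f k s - f k t‖) U (nhds ‖F s - F t‖) :=
      ((hF s).sub (hF t)).norm
    exact le_of_tendsto h1 (Filter.Eventually.of_forall fun k => hf1 k s t)
  -- the six pieces
  have hz : ∀ j : Fin 6, ∃ z : E, ∀ s ∈ Icc ((j : ℝ) / 6) (((j : ℝ) + 1) / 6), ∃ x ∈ K,
      F s = z + c • x := by
    intro j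
    obtain ⟨z, hz⟩ := hCu K hK hKc hKn hball (6 * c) ((j : ℝ) / 6) (((j : ℝ) + 1) / 6) F
      (by positivity) (by linarith) (fun s _ t _ => hFL s t)
    refine ⟨z, fun s hs => ?_⟩
    obtain ⟨x, hx, hx2⟩ := hz s hs
    refine ⟨x, hx, ?_⟩
    rw [hx2]; congr 2; ring
  choose z hz using hz
  refine ⟨z, ?_⟩
  rintro x ⟨hxK, t0, ht0⟩
  -- reduce the angle
  set n : ℤ := ⌊t0 / (2 * Real.pi)⌋ with hn
  set t : ℝ := t0 - n * (2 * Real.pi) with ht
  have htc : circ t p = circ t0 p := circ_periodic t0 n p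
  have hxt : ⟪circ t p, x⟫_ℝ = h K (circ t p) := by rw [htc]; exact ht0
  have htn : 0 ≤ t := by
    have := Int.floor_le (t0 / (2 * Real.pi))
    rw [le_div_iff₀ (by positivity)] at this
    rw [ht, hn]; linarith
  have htl : t < 2 * Real.pi := by
    have := Int.lt_floor_add_one (t0 / (2 * Real.pi))
    rw [div_lt_iff₀ (by positivity)] at this
    rw [ht, hn]; linarith
  set C : ℝ := ‖p.1‖ + ‖p.2‖ with hC
  have hC0 : 0 ≤ C := by positivity
  have hs : ∀ k : ℕ, ∃ s ∈ Icc (0 : ℝ) 1, 3 ≤ k →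
      ⟪circ (t + Real.pi / 2) p, f k s⟫_ℝ = ⟪circ (t + Real.pi / 2) p, x⟫_ℝ ∧
      h K (circ t p) - 2 * R * C * (2 * Real.pi / 2 ^ k) ≤ ⟪circ t p, f k s⟫_ℝ := by
    intro k
    by_cases hk : 3 ≤ k
    · obtain ⟨i, hi, y, hy, hy1, hy2⟩ := level K p R C R.2 hLip' hR hle hG
        (fun k i x hx he => hu _ (hdiff k i) x hx he) (fun s t => circ_dist s t p) hC0 x hxK t
        htn htl hxt k hk
      obtain ⟨s, hs, hs2⟩ := hf3 k i hi y hy
      exact ⟨s, hs, fun _ => by rw [hs2]; exact ⟨hy1, hy2⟩⟩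
    · exact ⟨0, ⟨le_rfl, zero_le_one⟩, fun h => absurd h hk⟩
  choose σ hσ1 hσ2 using hs
  obtain ⟨s, hsI, hs⟩ := isCompact_iff_ultrafilter_le_nhds.1 (isCompact_Icc (a := (0:ℝ)) (b := 1))
    (U.map σ) (by
      rw [Filter.le_principal_iff]
      exact Filter.mem_map.2 (Filter.univ_mem' (fun k => hσ1 k)))
  have hs' : Filter.Tendsto σ U (nhds s) := hs
  have hfs : Filter.Tendsto (fun k => f k (σ k)) U (nhds (F s)) := by
    have h1 : Filter.Tendsto (fun k => f k (σ k) - f k s) U (nhds 0) := by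
      rw [tendsto_zero_iff_norm_tendsto_zero]
      have h2 : Filter.Tendsto (fun k => 6 * c * |σ k - s|) U (nhds (6 * c * |s - s|)) :=
        ((hs'.sub_const s).abs).const_mul _
      rw [sub_self, abs_zero, mul_zero] at h2
      exact squeeze_zero (fun k => norm_nonneg _) (fun k => hf1 k _ _) h2
    have h3 := h1.add (hF s)
    simpa using h3
  have hev : ∀ᶠ k in (U : Filter ℕ), 3 ≤ k := hUinf (Filter.eventually_ge_atTop 3)
  have e1 : ⟪circ (t + Real.pi / 2) p, F s⟫_ℝ = ⟪circ (t + Real.pi / 2) p, x⟫_ℝ := by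
    have h1 : Filter.Tendsto (fun k => ⟪circ (t + Real.pi / 2) p, f k (σ k)⟫_ℝ) U
        (nhds ⟪circ (t + Real.pi / 2) p, F s⟫_ℝ) := tendsto_const_nhds.inner hfs
    have h2 : Filter.Tendsto (fun k => ⟪circ (t + Real.pi / 2) p, f k (σ k)⟫_ℝ) U
        (nhds ⟪circ (t + Real.pi / 2) p, x⟫_ℝ) := by
      refine Filter.Tendsto.congr' ?_ tendsto_const_nhds
      filter_upwards [hev] with k hk
      exact (hσ2 k hk).1.symm
    exact tendsto_nhds_unique h1 h2
  have e2 : h K (circ t p) ≤ ⟪circ t p, F s⟫_ℝ := by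
    have h1 : Filter.Tendsto (fun k => ⟪circ t p, f k (σ k)⟫_ℝ) U
        (nhds ⟪circ t p, F s⟫_ℝ) := tendsto_const_nhds.inner hfs
    have h2 : Filter.Tendsto (fun k : ℕ => h K (circ t p) - 2 * R * C * (2 * Real.pi / 2 ^ k)) U
        (nhds (h K (circ t p) - 2 * R * C * 0)) := by
      refine Filter.Tendsto.mono_left ?_ hUinf
      refine tendsto_const_nhds.sub (Filter.Tendsto.const_mul _ ?_)
      refine Filter.Tendsto.const_div_atTop ?_ _
      exact tendsto_pow_atTop_atTop_of_one_lt (by norm_num)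
    rw [mul_zero, sub_zero] at h2
    refine le_of_tendsto_of_tendsto h2 h1 ?_
    filter_upwards [hev] with k hk
    exact (hσ2 k hk).2
  have e3 : ⟪circ t p, F s⟫_ℝ = h K (circ t p) := le_antisymm (hle _ (hFK s) _) e2
  have e4 : ⟪circ t p, F s - x⟫_ℝ = 0 := by rw [inner_sub_right, e3, hxt, sub_self]
  have e5 : ⟪circ (t + Real.pi / 2) p, F s - x⟫_ℝ = 0 := by rw [inner_sub_right, e1, sub_self]
  have e6 : x = F s := by
    refine hgen x hxK (F s) (hFK s) t hxt e3 ?_ ?_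
    · rw [fst_eq t p, inner_sub_left, real_inner_smul_left, real_inner_smul_left, e4, e5]; ring
    · rw [snd_eq t p, inner_add_left, real_inner_smul_left, real_inner_smul_left, e4, e5]; ring
  -- choose the piece
  have hj : ∃ j : Fin 6, s ∈ Icc ((j : ℝ) / 6) (((j : ℝ) + 1) / 6) := by
    obtain ⟨hs0, hs1⟩ := hsI
    rcases hs1.eq_or_lt with h1 | h1
    · refine ⟨5, ?_⟩
      rw [h1]
      constructor
      · norm_num
      · norm_num
    · have hfl : ⌊s * 6⌋₊ < 6 := by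
        rw [Nat.floor_lt (by positivity)]; push_cast; linarith
      refine ⟨⟨⌊s * 6⌋₊, hfl⟩, ?_, ?_⟩
      · have := Nat.floor_le (a := s * 6) (by positivity)
        simp only
        rw [div_le_iff₀ (by norm_num)]; exact this
      · have := Nat.lt_floor_add_one (s * 6)
        simp only
        rw [le_div_iff₀ (by norm_num)]; exact this.le
  obtain ⟨j, hj⟩ := hj
  obtain ⟨y, hy, hy2⟩ := hz j s hj
  exact ⟨j, y, hy, by rw [e6]; exact hy2⟩

end Pool.Agent.HD3
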