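import Mathlib
import Pool.Agent.HD3.Spec

set_option autoImplicit false

namespace Pool.Agent.HD3

open MeasureTheory Set
open scoped InnerProductSpace

namespace DIRNULL_

/-- The projection to the two coordinates different from `j`. -/
noncomputable def pr (j : Fin 3) : E →L[ℝ] ℝ × ℝ :=
  (EuclideanSpace.proj (j.succAbove 0)).prod (EuclideanSpace.proj (j.succAbove 1))

theorem pr_fst (j : Fin 3) (u : E) : (pr j u).1 = u (j.succAbove 0) := rfl

theorem pr_snd (j : Fin 3) (u : E) : (pr j u).2 = u (j.succAbove 1) := rfl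

theorem mp (j : Fin 3) : MeasurePreserving (fun u : E => (u j, pr j u)) (volume : Measure E)
    (volume : Measure (ℝ × (ℝ × ℝ))) := by
  have h1 : MeasurePreserving (fun u : E => (WithLp.ofLp u : Fin 3 → ℝ)) :=
    PiLp.volume_preserving_ofLp (Fin 3)
  have h2 := volume_preserving_piFinSuccAbove (fun _ : Fin 3 => ℝ) j
  have h3 : MeasurePreserving (MeasurableEquiv.finTwoArrow : (Fin 2 → ℝ) ≃ᵐ ℝ × ℝ) :=
    volume_preserving_finTwoArrow ℝ
  have h4 := (MeasurePreserving.id (volume : Measure ℝ)).prod h3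
  exact h4.comp (h2.comp h1)

theorem cone_null (N : Set (ℝ × ℝ)) (hN : volume N = 0) (c : ℝ) (hc : c ≠ 0) :
    volume {p : ℝ × (ℝ × ℝ) | p.1 ≠ 0 ∧ (c / p.1) • p.2 ∈ N} = 0 := by
  obtain ⟨N', hNN', hm, hN'⟩ := exists_measurable_superset_of_null hN
  have hsub : {p : ℝ × (ℝ × ℝ) | p.1 ≠ 0 ∧ (c / p.1) • p.2 ∈ N} ⊆
      {p : ℝ × (ℝ × ℝ) | p.1 ≠ 0 ∧ (c / p.1) • p.2 ∈ N'} := fun p hp => ⟨hp.1, hNN' hp.2⟩
  refine measure_mono_null hsub ?_
  have hf : Measurable fun p : ℝ × (ℝ × ℝ) => (c / p.1) • p.2 := by fun_prop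
  have hmeas : MeasurableSet {p : ℝ × (ℝ × ℝ) | p.1 ≠ 0 ∧ (c / p.1) • p.2 ∈ N'} := by
    apply MeasurableSet.inter
    · exact measurable_fst (measurableSet_singleton (0 : ℝ)).compl
    · exact hf hm
  rw [Measure.volume_eq_prod, Measure.measure_prod_null hmeas]
  filter_upwards with x
  by_cases hx : x = 0
  · have : Prod.mk x ⁻¹' {p : ℝ × (ℝ × ℝ) | p.1 ≠ 0 ∧ (c / p.1) • p.2 ∈ N'} = ∅ := by
      ext w
      simp [hx]
    rw [this, measure_empty]
    rfl
  · have : Prod.mk x ⁻¹' {p : ℝ × (ℝ × ℝ) | p.1 ≠ 0 ∧ (c / p.1) • p.2 ∈ N'} =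
        (fun w : ℝ × ℝ => (c / x) • w) ⁻¹' N' := by
      ext w
      simp [hx]
    rw [this, Measure.addHaar_preimage_smul _ (div_ne_zero hc hx), hN', mul_zero]
    rfl

theorem ip (j : Fin 3) (g x : E) :
    ⟪g, x⟫_ℝ = g j * x j + ((pr j g).1 * (pr j x).1 + (pr j g).2 * (pr j x).2) := by
  rw [PiLp.inner_apply, Fin.sum_univ_succAbove _ j, Fin.sum_univ_two]
  simp only [RCLike.inner_apply, conj_trivial, pr_fst, pr_snd]
  ring

/-- The planar set of `T_PLANE`. -/
def dset (A B : Set (ℝ × ℝ)) : Set (ℝ × ℝ) :=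
  {d | ∃ n : ℝ × ℝ, n ≠ 0 ∧ ∃ a ∈ A, ∃ b ∈ B,
      (∀ x ∈ A, n.1 * x.1 + n.2 * x.2 ≤ n.1 * a.1 + n.2 * a.2) ∧
      (∀ x ∈ B, n.1 * x.1 + n.2 * x.2 ≤ n.1 * b.1 + n.2 * b.2) ∧ d = b - a}

/-- The slice of `K` at height `q` of the coordinate `j`. -/
def slice (K : Set E) (j : Fin 3) (q : ℝ) : Set (ℝ × ℝ) := pr j '' (K ∩ {x | x j = q})

theorem slice_compact (K : Set E) (hK : IsCompact K) (j : Fin 3) (q : ℝ) :
    IsCompact (slice K j q) := by
  apply IsCompact.image _ (pr j).continuous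
  apply hK.inter_right
  exact isClosed_eq (by fun_prop) continuous_const

theorem slice_convex (K : Set E) (hK : Convex ℝ K) (j : Fin 3) (q : ℝ) :
    Convex ℝ (slice K j q) := by
  apply Convex.linear_image _ (pr j).toLinearMap
  apply hK.inter
  intro x hx y hy s t hs ht hst
  simp only [mem_ofPred_eq] at hx hy ⊢
  simp only [PiLp.add_apply, PiLp.smul_apply, smul_eq_mul, hx, hy]
  rw [← add_mul, hst, one_mul]

theorem cover (K : Set E) (hK : Convex ℝ K) :
    badDir K ⊆ ⋃ (j : Fin 3) (q : ℚ) (q' : ℚ) (_ : (q' : ℝ) - q ≠ 0),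
      (fun u : E => (u j, pr j u)) ⁻¹' {p : ℝ × (ℝ × ℝ) | p.1 ≠ 0 ∧
        (((q' : ℝ) - q) / p.1) • p.2 ∈ dset (slice K j q) (slice K j q')} := by
  rintro u ⟨a, ha, b, hb, hab, ⟨g, hg0, hmax, hgb⟩, l, hl⟩
  have hj : ∃ j : Fin 3, a j ≠ b j := by
    by_contra hcon
    apply hab
    ext i
    by_contra hi
    exact hcon ⟨i, hi⟩
  obtain ⟨j, hj⟩ := hj
  have hlj : b j - a j = l * u j := by
    have := congrArg (fun v : E => v j) hl
    simpa using this
  have hbaj : b j - a j ≠ 0 := fun h => hj (by linarith)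
  have huj : u j ≠ 0 := by
    intro h
    rw [h, mul_zero] at hlj
    exact hbaj hlj
  have hl0 : l ≠ 0 := by
    intro h
    rw [h, zero_mul] at hlj
    exact hbaj hlj
  have hmM : min (a j) (b j) < max (a j) (b j) := by
    rw [min_lt_max]
    exact hj
  obtain ⟨q, hq1, hq2⟩ := exists_rat_btwn hmM
  obtain ⟨q', hq'1, hq'2⟩ := exists_rat_btwn hq2
  have hqq : (q' : ℝ) - q ≠ 0 := by
    have : (q : ℝ) < q' := hq'1
    linarith
  -- points of the segment
  have key : ∀ r : ℝ, min (a j) (b j) < r → r < max (a j) (b j) →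
      (r - a j) / (b j - a j) ∈ Icc (0 : ℝ) 1 := by
    intro r h1 h2
    rcases lt_or_gt_of_ne hj with h | h
    · rw [min_eq_left h.le] at h1
      rw [max_eq_right h.le] at h2
      constructor
      · apply div_nonneg <;> linarith
      · rw [div_le_one (by linarith)]
        linarith
    · rw [min_eq_right h.le] at h1
      rw [max_eq_left h.le] at h2
      have hneg : (r - a j) / (b j - a j) = (a j - r) / (a j - b j) := by
        rw [← neg_div_neg_eq]
        congr 1 <;> ring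
      rw [hneg]
      constructor
      · apply div_nonneg <;> linarith
      · rw [div_le_one (by linarith)]
        linarith
  have pt : ∀ r : ℝ, min (a j) (b j) < r → r < max (a j) (b j) →
      a + ((r - a j) / (b j - a j)) • (b - a) ∈ K ∧
      (a + ((r - a j) / (b j - a j)) • (b - a)) j = r ∧
      ⟪g, a + ((r - a j) / (b j - a j)) • (b - a)⟫_ℝ = ⟪g, a⟫_ℝ := by
    intro r h1 h2
    refine ⟨hK.add_smul_sub_mem ha hb (key r h1 h2), ?_, ?_⟩
    · simp only [PiLp.add_apply, PiLp.smul_apply, PiLp.sub_apply, smul_eq_mul]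
      field_simp
      ring
    · rw [inner_add_right, inner_smul_right, inner_sub_right, hgb, sub_self, mul_zero, add_zero]
  obtain ⟨hy1, hy2, hy3⟩ := pt q hq1 hq2
  obtain ⟨hz1, hz2, hz3⟩ := pt q' (hq1.trans hq'1) hq'2
  set y : E := a + (((q : ℝ) - a j) / (b j - a j)) • (b - a) with hy
  set z : E := a + (((q' : ℝ) - a j) / (b j - a j)) • (b - a) with hz
  simp only [mem_iUnion]
  refine ⟨j, q, q', hqq, ?_⟩
  refine ⟨huj, ?_⟩
  refine ⟨pr j g, ?_, pr j y, ⟨y, ⟨hy1, hy2⟩, rfl⟩, pr j z, ⟨z, ⟨hz1, hz2⟩, rfl⟩, ?_, ?_, ?_⟩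
  · intro h0
    have e : ⟪g, b - a⟫_ℝ = 0 := by rw [inner_sub_right, hgb, sub_self]
    rw [ip j, h0] at e
    have e2 : g j * (b j - a j) = 0 := by simpa using e
    have e3 : g j = 0 := by
      rcases mul_eq_zero.1 e2 with h | h
      · exact h
      · exact absurd h hbaj
    apply hg0
    have e4 : ⟪g, g⟫_ℝ = 0 := by
      rw [ip j, h0, e3]
      simp
    exact inner_self_eq_zero.1 e4
  · rintro _ ⟨x, ⟨hxK, hxq⟩, rfl⟩
    have h1 := hmax x hxK
    have hxq' : x j = (q : ℝ) := hxq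
    rw [← hy3, ip j, ip j g y, hy2, hxq'] at h1
    linarith
  · rintro _ ⟨x, ⟨hxK, hxq⟩, rfl⟩
    have h1 := hmax x hxK
    have hxq' : x j = (q' : ℝ) := hxq
    rw [← hz3, ip j, ip j g z, hz2, hxq'] at h1
    linarith
  · have e1 : z - y = (((q' : ℝ) - q) / (b j - a j)) • (b - a) := by
      rw [hz, hy, add_sub_add_left_eq_sub, ← sub_smul]
      congr 1
      field_simp
      ring
    have e2 : z - y = (((q' : ℝ) - q) / u j) • u := by
      rw [e1, hl, smul_smul, hlj]
      congr 1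
      field_simp
    simp only
    rw [← map_sub, e2, map_smul]

end DIRNULL_

/-- DIRNULL. -/
theorem p_DIRNULL (h : T_PLANE) : T_DIRNULL := by
  intro K hK hc
  refine measure_mono_null (DIRNULL_.cover K hc) ?_
  refine measure_iUnion_null fun j => measure_iUnion_null fun q => measure_iUnion_null fun q' =>
    measure_iUnion_null fun hqq => ?_
  have h1 := h (DIRNULL_.slice K j q) (DIRNULL_.slice K j q')
    (DIRNULL_.slice_compact K hK j q) (DIRNULL_.slice_convex K hc j q)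
    (DIRNULL_.slice_compact K hK j q') (DIRNULL_.slice_convex K hc j q')
  have h2 := DIRNULL_.cone_null (DIRNULL_.dset (DIRNULL_.slice K j q) (DIRNULL_.slice K j q')) h1
    ((q' : ℝ) - q) hqq
  exact (DIRNULL_.mp j).quasiMeasurePreserving.preimage_null h2

end Pool.Agent.HD3
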