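import Mathlib
import Pool.Agent.HD3.Spec

/-!
HD3, job EQ: the equality case of the mean width bound in John position.
-/

set_option autoImplicit false

namespace Pool.Agent.HD3

open MeasureTheory ProbabilityTheory Set Filter
open scoped InnerProductSpace Pointwise Topology

namespace EQ_

/-- Nonempty open sets have positive Gaussian measure. -/
lemma isOpenPos : (γ : Measure E).IsOpenPosMeasure := by
  have h1 : (gaussianReal 0 1).IsOpenPosMeasure :=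
    (gaussianReal_absolutelyContinuous' 0 (v := 1) one_ne_zero).isOpenPosMeasure
  have h2 : (γ : Measure E) = (Measure.pi (fun _ : Fin 3 => gaussianReal 0 1)).map
      (WithLp.toLp 2) := (map_pi_eq_stdGaussian (ι := Fin 3)).symm
  rw [h2]
  refine ⟨fun U hU hne => ?_⟩
  rw [Measure.map_apply (by fun_prop) hU.measurableSet]
  refine (IsOpen.measure_pos _ (hU.preimage (by fun_prop)) ?_).ne'
  obtain ⟨x, hx⟩ := hne
  exact ⟨WithLp.ofLp x, by simpa using hx⟩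

/-- The gradient of the support function is measurable. -/
lemma meas_G (S : Set E) : Measurable (G S) := by
  unfold G gradient
  exact (InnerProductSpace.toDual ℝ E).symm.continuous.measurable.comp (measurable_fderiv ℝ _)

/-- The gradient is a support point almost everywhere. -/
lemma ae_G (hB : T_BASIC) (hAC : T_AC) {S : Set E} (hS : IsCompact S) (hne : S.Nonempty) :
    ∀ᵐ y ∂(γ : Measure E), G S y ∈ S ∧ ⟪y, G S y⟫_ℝ = h S y := by
  obtain ⟨-, ⟨R, hR, -⟩, -, -, hatt, hdiff, -⟩ := hB S hS hne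
  have h1 : ∀ᵐ y ∂(volume : Measure E), DifferentiableAt ℝ (h S) y := hR.ae_differentiableAt
  filter_upwards [hAC.ae_le h1] with y hy
  obtain ⟨x, hx, hxy⟩ := hatt y
  have := hdiff y hy x hx hxy
  rw [← this]
  exact ⟨hx, hxy⟩

/-- Data of the equality case. -/
structure Data (S : Set E) : Prop where
  cpt : IsCompact S
  symm : ∀ x ∈ S, -x ∈ S
  ball : Metric.closedBall 0 1 ⊆ S
  john : JohnProp S
  eqn : ∫ x, h S x ∂γ = 3 * Real.sqrt (2 / Real.pi)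

/-- Contact vectors. -/
def Contact (S : Set E) (u : E) : Prop := ‖u‖ = 1 ∧ ∀ x ∈ S, ⟪u, x⟫_ℝ ≤ 1

/-- Contact vectors with equality almost everywhere. -/
def InU (S : Set E) (u : E) : Prop :=
  Contact S u ∧ ∀ᵐ y ∂(γ : Measure E), ⟪y, u⟫_ℝ * ⟪u, G S y⟫_ℝ = |⟪u, y⟫_ℝ|

lemma Data.zero_mem {S : Set E} (D : Data S) : (0 : E) ∈ S := D.ball (by simp)

lemma Data.nonempty {S : Set E} (D : Data S) : S.Nonempty := ⟨0, D.zero_mem⟩

lemma Contact.abs_le {S : Set E} (D : Data S) {u : E} (hu : Contact S u) :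
    ∀ x ∈ S, |⟪u, x⟫_ℝ| ≤ 1 := by
  intro x hx
  have h1 := hu.2 x hx
  have h2 := hu.2 (-x) (D.symm x hx)
  rw [inner_neg_right] at h2
  exact _root_.abs_le.2 ⟨by linarith, by linarith⟩

/-- Integrability of the vector field. -/
lemma int_vec (hB : T_BASIC) (hAC : T_AC) (hAbs : T_ABS) {S : Set E} (D : Data S) (x : E) :
    Integrable (fun y : E => ⟪y, x⟫_ℝ • G S y) γ := by
  obtain ⟨-, ⟨R, -, hR⟩, -, -, -, -, -⟩ := hB S D.cpt D.nonempty
  have h1 : Integrable (fun y : E => |⟪x, y⟫_ℝ| * (R : ℝ)) γ := (hAbs x).1.mul_const _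
  refine h1.mono' ?_ ?_
  · have c1 : AEStronglyMeasurable (fun y : E => ⟪y, x⟫_ℝ) γ :=
      (by fun_prop : Continuous (fun y : E => ⟪y, x⟫_ℝ)).aestronglyMeasurable
    exact c1.smul (meas_G S).aestronglyMeasurable
  · filter_upwards [ae_G hB hAC D.cpt D.nonempty] with y hy
    rw [norm_smul, Real.norm_eq_abs, real_inner_comm]
    exact mul_le_mul_of_nonneg_left (hR _ hy.1) (abs_nonneg _)

/-- The linear map `x ↦ E ⟪y, x⟫ G y`. -/
noncomputable def Hmap (hB : T_BASIC) (hAC : T_AC) (hAbs : T_ABS) {S : Set E} (D : Data S) :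
    E →ₗ[ℝ] E where
  toFun x := ∫ y : E, ⟪y, x⟫_ℝ • G S y ∂γ
  map_add' a b := by
    rw [← integral_add (int_vec hB hAC hAbs D a) (int_vec hB hAC hAbs D b)]
    congr 1; ext1 y; rw [inner_add_right, add_smul]
  map_smul' c a := by
    rw [RingHom.id_apply, ← integral_smul]
    congr 1; ext1 y; rw [inner_smul_right, mul_smul]

set_option linter.unusedSectionVars false

variable (hB : T_BASIC) (hAC : T_AC) (hAbs : T_ABS)
include hB hAC hAbs

lemma inner_Hmap {S : Set E} (D : Data S) (u x : E) :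
    ⟪u, Hmap hB hAC hAbs D x⟫_ℝ = ∫ y : E, ⟪y, x⟫_ℝ * ⟪u, G S y⟫_ℝ ∂γ := by
  have h1 : Hmap hB hAC hAbs D x = ∫ y : E, ⟪y, x⟫_ℝ • G S y ∂γ := rfl
  rw [h1, ← integral_inner (int_vec hB hAC hAbs D x) u]
  congr 1; ext1 y; rw [inner_smul_right]

lemma int_sc {S : Set E} (D : Data S) (u x : E) :
    Integrable (fun y : E => ⟪y, x⟫_ℝ * ⟪u, G S y⟫_ℝ) γ := by
  have := (int_vec hB hAC hAbs D x).const_inner (𝕜 := ℝ) u
  refine this.congr (Eventually.of_forall fun y => ?_)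
  simp only [inner_smul_right]

lemma trace_Hmap {S : Set E} (D : Data S) :
    LinearMap.trace ℝ E (Hmap hB hAC hAbs D) = 3 * Real.sqrt (2 / Real.pi) := by
  rw [LinearMap.trace_eq_sum_inner _ (EuclideanSpace.basisFun (Fin 3) ℝ), ← D.eqn]
  simp_rw [inner_Hmap hB hAC hAbs D]
  rw [← integral_finsetSum _ (fun i _ => int_sc hB hAC hAbs D _ _)]
  refine integral_congr_ae ?_
  filter_upwards [ae_G hB hAC D.cpt D.nonempty] with y hy
  rw [OrthonormalBasis.sum_inner_mul_inner, hy.2]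

lemma ae_le {S : Set E} (D : Data S) {u : E} (hu : Contact S u) :
    (fun y : E => ⟪y, u⟫_ℝ * ⟪u, G S y⟫_ℝ) ≤ᵐ[(γ : Measure E)] fun y => |⟪u, y⟫_ℝ| := by
  filter_upwards [ae_G hB hAC D.cpt D.nonempty] with y hy
  have h1 := hu.abs_le D _ hy.1
  calc ⟪y, u⟫_ℝ * ⟪u, G S y⟫_ℝ ≤ |⟪y, u⟫_ℝ * ⟪u, G S y⟫_ℝ| := le_abs_self _
    _ = |⟪u, y⟫_ℝ| * |⟪u, G S y⟫_ℝ| := by rw [abs_mul, real_inner_comm]
    _ ≤ |⟪u, y⟫_ℝ| * 1 := mul_le_mul_of_nonneg_left h1 (abs_nonneg _)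
    _ = |⟪u, y⟫_ℝ| := mul_one _

lemma inner_Hmap_le {S : Set E} (D : Data S) {u : E} (hu : Contact S u) :
    ⟪u, Hmap hB hAC hAbs D u⟫_ℝ ≤ Real.sqrt (2 / Real.pi) := by
  rw [inner_Hmap]
  have h1 := (hAbs u).2
  rw [hu.1, mul_one] at h1
  rw [← h1]
  exact integral_mono_ae (int_sc hB hAC hAbs D _ _) (hAbs u).1 (ae_le hB hAC hAbs D hu)

/-- Main existence lemma. -/
lemma existsU {S : Set E} (D : Data S) (H1 : E →ₗ[ℝ] E) :
    ∃ u, InU S u ∧ LinearMap.trace ℝ E H1 ≤ 3 * ⟪u, H1 u⟫_ℝ := by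
  set H := Hmap hB hAC hAbs D with hH
  have hJ : ∀ n : ℕ, ∃ u : E, (‖u‖ = 1 ∧ ∀ x ∈ S, ⟪u, x⟫_ℝ ≤ 1) ∧
      LinearMap.trace ℝ E (H + (1 / ((n : ℝ) + 1)) • H1) ≤
        3 * ⟪u, (H + (1 / ((n : ℝ) + 1)) • H1) u⟫_ℝ := by
    intro n
    obtain ⟨u, a, b, c⟩ := D.john (H + (1 / ((n : ℝ) + 1)) • H1)
    exact ⟨u, ⟨a, b⟩, c⟩
  choose u hu hu2 using hJ
  have htr := trace_Hmap hB hAC hAbs D
  rw [← hH] at htr
  have hpos : ∀ n : ℕ, 0 < 1 / ((n : ℝ) + 1) := fun n => by positivity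
  have hle : ∀ n, ⟪u n, H (u n)⟫_ℝ ≤ Real.sqrt (2 / Real.pi) := fun n =>
    inner_Hmap_le hB hAC hAbs D (hu n)
  have h2 : ∀ n : ℕ, 3 * Real.sqrt (2 / Real.pi) + 1 / ((n : ℝ) + 1) * LinearMap.trace ℝ E H1 ≤
      3 * ⟪u n, H (u n)⟫_ℝ + 1 / ((n : ℝ) + 1) * (3 * ⟪u n, H1 (u n)⟫_ℝ) := by
    intro n
    have := hu2 n
    rw [map_add, map_smul, htr, LinearMap.add_apply, LinearMap.smul_apply, inner_add_right,
      inner_smul_right, smul_eq_mul] at this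
    linarith
  have h3 : ∀ n, LinearMap.trace ℝ E H1 ≤ 3 * ⟪u n, H1 (u n)⟫_ℝ := by
    intro n
    have a := h2 n
    have b := hle n
    have c : 1 / ((n : ℝ) + 1) * LinearMap.trace ℝ E H1 ≤
      1 / ((n : ℝ) + 1) * (3 * ⟪u n, H1 (u n)⟫_ℝ) := by linarith
    exact le_of_mul_le_mul_left c (hpos n)
  obtain ⟨v, hv, φ, hφ, hlim⟩ := (isCompact_sphere (0 : E) 1).tendsto_subseq
    (x := u) (fun n => by simpa using (hu n).1)
  have hcH : Continuous H := H.continuous_of_finiteDimensional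
  have hcH1 : Continuous H1 := H1.continuous_of_finiteDimensional
  have hvn : ‖v‖ = 1 := by simpa using hv
  have hvc : Contact S v := by
    refine ⟨hvn, fun x hx => ?_⟩
    have : Tendsto (fun n => ⟪u (φ n), x⟫_ℝ) atTop (𝓝 ⟪v, x⟫_ℝ) :=
      (hlim.inner tendsto_const_nhds)
    exact le_of_tendsto this (Eventually.of_forall fun n => (hu (φ n)).2 x hx)
  have lim1 : Tendsto (fun n => ⟪u (φ n), H1 (u (φ n))⟫_ℝ) atTop (𝓝 ⟪v, H1 v⟫_ℝ) :=
    hlim.inner ((hcH1.tendsto v).comp hlim)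
  have lim2 : Tendsto (fun n => ⟪u (φ n), H (u (φ n))⟫_ℝ) atTop (𝓝 ⟪v, H v⟫_ℝ) :=
    hlim.inner ((hcH.tendsto v).comp hlim)
  have lim3 : Tendsto (fun n : ℕ => 1 / (((φ n : ℕ) : ℝ) + 1)) atTop (𝓝 0) :=
    tendsto_one_div_add_atTop_nhds_zero_nat.comp hφ.tendsto_atTop
  have hfin1 : LinearMap.trace ℝ E H1 ≤ 3 * ⟪v, H1 v⟫_ℝ :=
    ge_of_tendsto (lim1.const_mul 3) (Eventually.of_forall fun n => h3 (φ n))
  have hfin2 : 3 * Real.sqrt (2 / Real.pi) + 0 * LinearMap.trace ℝ E H1 ≤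
      3 * ⟪v, H v⟫_ℝ + 0 * (3 * ⟪v, H1 v⟫_ℝ) := by
    have a1 : Tendsto (fun n : ℕ => 3 * Real.sqrt (2 / Real.pi) +
        1 / (((φ n : ℕ) : ℝ) + 1) * LinearMap.trace ℝ E H1) atTop
        (𝓝 (3 * Real.sqrt (2 / Real.pi) + 0 * LinearMap.trace ℝ E H1)) :=
      tendsto_const_nhds.add (lim3.mul_const _)
    have a2 : Tendsto (fun n : ℕ => 3 * ⟪u (φ n), H (u (φ n))⟫_ℝ +
        1 / (((φ n : ℕ) : ℝ) + 1) * (3 * ⟪u (φ n), H1 (u (φ n))⟫_ℝ)) atTop
        (𝓝 (3 * ⟪v, H v⟫_ℝ + 0 * (3 * ⟪v, H1 v⟫_ℝ))) :=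
      (lim2.const_mul 3).add (lim3.mul (lim1.const_mul 3))
    exact le_of_tendsto_of_tendsto a1 a2 (Eventually.of_forall fun n => h2 (φ n))
  have hge : Real.sqrt (2 / Real.pi) ≤ ⟪v, H v⟫_ℝ := by linarith
  have heq : ⟪v, H v⟫_ℝ = Real.sqrt (2 / Real.pi) :=
    le_antisymm (inner_Hmap_le hB hAC hAbs D hvc) hge
  refine ⟨v, ⟨hvc, ?_⟩, hfin1⟩
  have h5 := (hAbs v).2
  rw [hvn, mul_one, ← heq, hH, inner_Hmap] at h5
  exact (integral_eq_iff_of_ae_le (int_sc hB hAC hAbs D v v) (hAbs v).1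
    (ae_le hB hAC hAbs D hvc)).1 h5.symm

omit hAbs hAC hB in
lemma InU.neg {S : Set E} (D : Data S) {u : E} (hu : InU S u) : InU S (-u) := by
  refine ⟨⟨by rw [norm_neg]; exact hu.1.1, fun x hx => ?_⟩, ?_⟩
  · have := hu.1.2 (-x) (D.symm x hx)
    rw [inner_neg_right] at this
    rw [inner_neg_left]; exact this
  · filter_upwards [hu.2] with y hy
    rw [inner_neg_right, inner_neg_left, inner_neg_left, abs_neg, neg_mul_neg]
    exact hy

omit hAbs hAC hB in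
lemma InU.ae_pos {S : Set E} {u : E} (hu : InU S u) :
    ∀ᵐ y ∂(γ : Measure E), 0 < ⟪u, y⟫_ℝ → ⟪u, G S y⟫_ℝ = 1 := by
  filter_upwards [hu.2] with y hy hpos
  rw [abs_of_pos hpos, real_inner_comm] at hy
  exact mul_left_cancel₀ hpos.ne' (by rw [hy, mul_one])

/-- A generic point of an open set. -/
lemma exists_generic {S : Set E} (D : Data S) {P : E → Prop}
    (hP : ∀ᵐ y ∂(γ : Measure E), P y) {O : Set E} (hO : IsOpen O) (hne : O.Nonempty) :
    ∃ y ∈ O, P y ∧ G S y ∈ S ∧ ⟪y, G S y⟫_ℝ = h S y := by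
  have := isOpenPos
  have h1 := Measure.dense_of_ae (hP.and (ae_G hB hAC D.cpt D.nonempty))
  obtain ⟨y, hy, hy2⟩ := h1.exists_mem_open hO hne
  exact ⟨y, hy2, hy⟩

lemma norm_le_h {S : Set E} (D : Data S) (w : E) : ‖w‖ ≤ h S w := by
  obtain ⟨-, -, -, hle, -, -, -⟩ := hB S D.cpt D.nonempty
  by_cases hw : w = 0
  · subst hw
    have := hle 0 D.zero_mem 0
    simpa using this
  · have hn : 0 < ‖w‖ := norm_pos_iff.2 hw
    have h1 : ‖w‖⁻¹ • w ∈ S := D.ball (by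
      rw [mem_closedBall_zero_iff, norm_smul, norm_inv, norm_norm, inv_mul_cancel₀ hn.ne'])
    have h2 := hle _ h1 w
    rw [inner_smul_right, real_inner_self_eq_norm_sq] at h2
    calc ‖w‖ = ‖w‖⁻¹ * ‖w‖ ^ 2 := by field_simp
      _ ≤ _ := h2

lemma eq_of_pos {S : Set E} (D : Data S) {u v : E} (hu : InU S u) (hv : InU S v)
    (hc : 0 < ⟪u, v⟫_ℝ) : u = v := by
  set c := ⟪u, v⟫_ℝ with hcdef
  have hun := hu.1.1
  have hvn := hv.1.1
  have hc1 : c ≤ 1 := by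
    have := real_inner_le_norm u v
    rw [hun, hvn, mul_one] at this
    exact this
  set s := c / 2 with hs
  set w := v - s • u with hw
  have huu : ⟪u, u⟫_ℝ = 1 := by rw [real_inner_self_eq_norm_sq, hun, one_pow]
  have hvv : ⟪v, v⟫_ℝ = 1 := by rw [real_inner_self_eq_norm_sq, hvn, one_pow]
  have huw : ⟪u, w⟫_ℝ = s := by
    rw [hw, inner_sub_right, inner_smul_right, huu, ← hcdef, hs]; ring
  have hvw : ⟪v, w⟫_ℝ = 1 - s * c := by
    rw [hw, inner_sub_right, inner_smul_right, hvv, real_inner_comm, ← hcdef]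
  have hspos : 0 < s := by rw [hs]; linarith
  have hvwpos : 0 < ⟪v, w⟫_ℝ := by rw [hvw, hs]; nlinarith
  obtain ⟨-, ⟨R, hlip, hR⟩, -, -, -, -, -⟩ := hB S D.cpt D.nonempty
  have key : ∀ ε : ℝ, 0 < ε → h S w ≤ 1 - s + 2 * R * ε := by
    intro ε hε
    have hO : IsOpen (Metric.ball w ε ∩ ({y : E | 0 < ⟪u, y⟫_ℝ} ∩ {y : E | 0 < ⟪v, y⟫_ℝ})) := by
      refine Metric.isOpen_ball.inter (IsOpen.inter ?_ ?_)
      · exact isOpen_lt continuous_const (by fun_prop)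
      · exact isOpen_lt continuous_const (by fun_prop)
    obtain ⟨y, ⟨hy1, hy2, hy3⟩, ⟨hyu, hyv⟩, hyS, hyh⟩ :=
      exists_generic hB hAC hAbs D (hu.ae_pos.and hv.ae_pos) hO
        ⟨w, Metric.mem_ball_self hε, by simpa [huw] using hspos, hvwpos⟩
    have e1 := hyu hy2
    have e2 := hyv hy3
    have hd : dist y w < ε := hy1
    have hd2 : ‖y - w‖ < ε := by rwa [dist_eq_norm] at hd
    have e3 : ⟪w, G S y⟫_ℝ = 1 - s := by
      rw [hw, inner_sub_left, inner_smul_left, e1, e2]; simp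
    have e4 : ⟪y, G S y⟫_ℝ ≤ 1 - s + R * ε := by
      have : ⟪y, G S y⟫_ℝ = ⟪w, G S y⟫_ℝ + ⟪y - w, G S y⟫_ℝ := by
        have h0 := inner_sub_left (𝕜 := ℝ) y w (G S y)
        linarith
      rw [this, e3]
      have h6 : ⟪y - w, G S y⟫_ℝ ≤ ‖y - w‖ * ‖G S y‖ := real_inner_le_norm _ _
      have h7 : ‖y - w‖ * ‖G S y‖ ≤ ε * R :=
        mul_le_mul hd2.le (hR _ hyS) (norm_nonneg _) hε.le
      linarith
    have e5 : h S w ≤ h S y + R * ε := by
      have h8 := hlip.dist_le_mul w y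
      rw [Real.dist_eq] at h8
      have h9 := (abs_le.1 h8).2
      have h10 : (R : ℝ) * dist w y ≤ R * ε :=
        mul_le_mul_of_nonneg_left (by rw [dist_comm]; exact hd.le) R.2
      linarith
    rw [hyh] at e4
    linarith
  have hle : h S w ≤ 1 - s := by
    refine le_of_forall_pos_le_add fun δ hδ => ?_
    have hR0 : (0 : ℝ) ≤ R := R.2
    have := key (δ / (2 * R + 1)) (by positivity)
    have h2 : 2 * (R : ℝ) * (δ / (2 * R + 1)) ≤ δ := by
      rw [mul_div_assoc', div_le_iff₀ (by positivity)]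
      nlinarith
    linarith
  have hnorm : ‖w‖ ≤ 1 - s := (norm_le_h hB hAC hAbs D w).trans hle
  have hsq : ‖w‖ ^ 2 = 1 - 3 * s ^ 2 := by
    rw [← real_inner_self_eq_norm_sq]
    have : ⟪w, w⟫_ℝ = ⟪v, w⟫_ℝ - s * ⟪u, w⟫_ℝ := by
      conv_lhs => rw [hw, inner_sub_left, inner_smul_left]
      simp [hw]
    rw [this, huw, hvw]
    have : c = 2 * s := by rw [hs]; ring
    rw [this]; ring
  have h2 : ‖w‖ ^ 2 ≤ (1 - s) ^ 2 := pow_le_pow_left₀ (norm_nonneg _) hnorm 2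
  have h3 : (1 : ℝ) / 2 ≤ s := by
    rw [hsq] at h2
    nlinarith
  have h4 : c = 1 := le_antisymm hc1 (by rw [hs] at h3; linarith)
  exact (inner_eq_one_iff_of_norm_eq_one (𝕜 := ℝ) hun hvn).1 (hcdef ▸ h4)

lemma trichotomy {S : Set E} (D : Data S) {u v : E} (hu : InU S u) (hv : InU S v) :
    ⟪u, v⟫_ℝ = 0 ∨ ⟪u, v⟫_ℝ ^ 2 = 1 := by
  rcases lt_trichotomy ⟪u, v⟫_ℝ 0 with h | h | h
  · right
    have h1 := eq_of_pos hB hAC hAbs D (hu.neg D) hv (by rw [inner_neg_left]; linarith)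
    rw [← h1, inner_neg_right, real_inner_self_eq_norm_sq, hu.1.1]; norm_num
  · exact Or.inl h
  · right
    have h1 := eq_of_pos hB hAC hAbs D hu hv h
    rw [← h1, real_inner_self_eq_norm_sq, hu.1.1]; norm_num

omit hB hAC hAbs in
/-- Rank one maps. -/
lemma trace_rank (c d : ℝ) (u v : E) (hu : ‖u‖ = 1) (hv : ‖v‖ = 1) :
    ∃ L : E →ₗ[ℝ] E, LinearMap.trace ℝ E L = 3 - c - d ∧
      ∀ x, ⟪x, L x⟫_ℝ = ‖x‖ ^ 2 - c * ⟪u, x⟫_ℝ ^ 2 - d * ⟪v, x⟫_ℝ ^ 2 := by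
  refine ⟨LinearMap.id - c • (InnerProductSpace.rankOne ℝ u u : E →L[ℝ] E).toLinearMap
    - d • (InnerProductSpace.rankOne ℝ v v : E →L[ℝ] E).toLinearMap, ?_, ?_⟩
  · rw [map_sub, map_sub, map_smul, map_smul, LinearMap.trace_id,
      InnerProductSpace.trace_rankOne, InnerProductSpace.trace_rankOne,
      real_inner_self_eq_norm_sq, real_inner_self_eq_norm_sq, hu, hv]
    simp
  · intro x
    simp only [LinearMap.sub_apply, LinearMap.id_apply, LinearMap.smul_apply,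
      inner_sub_right, inner_smul_right, ContinuousLinearMap.coe_coe,
      InnerProductSpace.rankOne_apply, real_inner_self_eq_norm_sq]
    rw [real_inner_comm u x, real_inner_comm v x]
    ring

omit hB hAC hAbs in
lemma sq_zero_of {a b : ℝ} (h1 : a = 0 ∨ a ^ 2 = 1) (h2 : b = 0 ∨ b ^ 2 = 1)
    (h : a ^ 2 + b ^ 2 < 1) : a = 0 ∧ b = 0 := by
  rcases h1 with h1 | h1
  · rcases h2 with h2 | h2
    · exact ⟨h1, h2⟩
    · nlinarith [sq_nonneg a]
  · nlinarith [sq_nonneg b]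

/-- Three orthonormal contact vectors. -/
lemma exists_basis {S : Set E} (D : Data S) :
    ∃ b : OrthonormalBasis (Fin 3) ℝ E, ∀ i, InU S (b i) := by
  obtain ⟨u, hu, -⟩ := existsU hB hAC hAbs D 0
  have hun := hu.1.1
  obtain ⟨L2, ht2, hL2⟩ := trace_rank 3 0 u u hun hun
  obtain ⟨v, hv, hv2⟩ := existsU hB hAC hAbs D L2
  have hvn := hv.1.1
  rw [ht2, hL2, hvn] at hv2
  have huv : ⟪u, v⟫_ℝ = 0 :=
    (sq_zero_of (trichotomy hB hAC hAbs D hu hv) (Or.inl rfl) (by nlinarith)).1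
  obtain ⟨L3, ht3, hL3⟩ := trace_rank (3 / 2) (3 / 2) u v hun hvn
  obtain ⟨w, hw, hw2⟩ := existsU hB hAC hAbs D L3
  have hwn := hw.1.1
  rw [ht3, hL3, hwn] at hw2
  have huvw := sq_zero_of (trichotomy hB hAC hAbs D hu hw) (trichotomy hB hAC hAbs D hv hw)
    (by nlinarith)
  have hO : Orthonormal ℝ ![u, v, w] := by
    rw [orthonormal_iff_ite]
    have hvu : ⟪v, u⟫_ℝ = 0 := by rw [real_inner_comm, huv]
    have hwu : ⟪w, u⟫_ℝ = 0 := by rw [real_inner_comm, huvw.1]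
    have hwv : ⟪w, v⟫_ℝ = 0 := by rw [real_inner_comm, huvw.2]
    intro i j
    fin_cases i <;> fin_cases j <;> simp [hun, hvn, hwn, huv, hvu, hwu, hwv, huvw.1, huvw.2]
  have hcard : Fintype.card (Fin 3) = Module.finrank ℝ E := by simp
  refine ⟨(basisOfOrthonormalOfCardEqFinrank hO hcard).toOrthonormalBasis
    (by simpa using hO), fun i => ?_⟩
  rw [Module.Basis.coe_toOrthonormalBasis, coe_basisOfOrthonormalOfCardEqFinrank]
  fin_cases i
  · exact hu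
  · exact hv
  · exact hw

/-- The vertices of the cube lie in `S`. -/
lemma vertex_mem {S : Set E} (D : Data S) (b : OrthonormalBasis (Fin 3) ℝ E)
    (hb : ∀ i, InU S (b i)) (s : Fin 3 → ℝ) (hs : ∀ i, s i = 1 ∨ s i = -1) :
    ∑ i, s i • b i ∈ S := by
  have hU : ∀ i, InU S (s i • b i) := by
    intro i
    rcases hs i with h | h
    · rw [h, one_smul]; exact hb i
    · rw [h, neg_smul, one_smul]; exact (hb i).neg D
  have hss : ∀ i, s i * s i = 1 := fun i => by rcases hs i with h | h <;> rw [h] <;> norm_num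
  set w : E := ∑ i, s i • b i with hw
  have hbw : ∀ i, ⟪b i, w⟫_ℝ = s i := by
    intro i
    rw [hw, inner_sum]
    simp_rw [inner_smul_right]
    simp [orthonormal_iff_ite.1 b.orthonormal]
  have hO : IsOpen (⋂ i, {y : E | 0 < ⟪s i • b i, y⟫_ℝ}) :=
    isOpen_iInter_of_finite fun i => isOpen_lt continuous_const (by fun_prop)
  have hP : ∀ᵐ y ∂(γ : Measure E), ∀ i, 0 < ⟪s i • b i, y⟫_ℝ → ⟪s i • b i, G S y⟫_ℝ = 1 :=
    ae_all_iff.2 fun i => (hU i).ae_pos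
  obtain ⟨y, hy1, hy2, hyS, -⟩ := exists_generic hB hAC hAbs D hP hO ⟨w, by
    rw [mem_iInter]
    intro i
    change 0 < ⟪s i • b i, w⟫_ℝ
    rw [inner_smul_left, hbw]
    simp [hss]⟩
  rw [mem_iInter] at hy1
  have h1 : ∀ i, ⟪b i, G S y⟫_ℝ = s i := by
    intro i
    have h2 := hy2 i (hy1 i)
    rw [inner_smul_left] at h2
    simp only [conj_trivial] at h2
    calc ⟪b i, G S y⟫_ℝ = (s i * s i) * ⟪b i, G S y⟫_ℝ := by rw [hss, one_mul]
      _ = s i * (s i * ⟪b i, G S y⟫_ℝ) := by ring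
      _ = s i := by rw [h2, mul_one]
  have h2 : G S y = w := by
    rw [← b.sum_repr (G S y), hw]
    refine Finset.sum_congr rfl fun i _ => ?_
    rw [b.repr_apply_apply, h1]
  rw [← h2]
  exact hyS

end EQ_

/-- The equality case. -/
theorem p_EQ (hB : T_BASIC) (hAC : T_AC) (hAbs : T_ABS) : T_EQ := by
  intro S h1 _ h3 h4 h5 h6
  have D : EQ_.Data S := ⟨h1, h3, h4, h5, h6⟩
  obtain ⟨b, hb⟩ := EQ_.exists_basis hB hAC hAbs D
  exact ⟨b, EQ_.vertex_mem hB hAC hAbs D b hb, fun x hx i => (hb i).1.abs_le D x hx⟩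

end Pool.Agent.HD3
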