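import Mathlib
import Pool.Agent.HD3.Spec

/-!
HD3, job GEN: almost every pair is generic.
-/

namespace Pool.Agent.HD3

open MeasureTheory ProbabilityTheory Set
open scoped InnerProductSpace Pointwise

namespace GEN_

lemma circ_ne_zero {p : E × E} (hp : LinearIndependent ℝ ![p.1, p.2]) (t : ℝ) :
    circ t p ≠ 0 := by
  intro h0
  obtain ⟨h1, h2⟩ := LinearIndependent.pair_iff.1 hp (Real.cos t) (Real.sin t) h0
  have := Real.cos_sq_add_sin_sq t
  rw [h1, h2] at this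
  norm_num at this

lemma badDir_smul {K : Set E} {u : E} (hu : u ∈ badDir K) {l : ℝ} (hl : l ≠ 0) :
    l • u ∈ badDir K := by
  obtain ⟨a, ha, b, hb, hab, hg, m, hm⟩ := hu
  refine ⟨a, ha, b, hb, hab, hg, m / l, ?_⟩
  rw [smul_smul, div_mul_cancel₀ _ hl, hm]

end GEN_

theorem p_GEN (h1 : T_DIRNULL) (h2 : T_PULL) (h3 : T_LI) (h4 : T_BASIC) : T_GEN := by
  intro K hK hconv hne
  have hD := h2 (badDir K) (h1 K hK hconv) (fun u hu l hl => GEN_.badDir_smul hu hl)
  filter_upwards [hD, h3] with p hp hli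
  intro a ha b hb t hta htb ho1 ho2
  by_contra hab
  have hle := (h4 K hK hne).2.2.2.1
  refine hp (b - a) (sub_ne_zero.2 (Ne.symm hab)) ho1 ho2 ?_
  refine ⟨a, ha, b, hb, hab, ⟨circ t p, GEN_.circ_ne_zero hli t, ?_, ?_⟩, 1, ?_⟩
  · intro x hx
    rw [hta]
    exact hle x hx _
  · rw [htb, hta]
  · rw [one_smul]

end Pool.Agent.HD3
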