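import Pool.Agent.HD3.Spec

/-! GRADLIM: convergence of gradients of convex functions. -/

namespace Pool.Agent.HD3

open MeasureTheory ProbabilityTheory Set Filter Topology
open scoped InnerProductSpace Pointwise

theorem gradlim_slope (F : E → ℝ) (hd : Differentiable ℝ F) (hc : ConvexOn ℝ univ F) (x v : E)
    (t : ℝ) (ht : 0 < t) : ⟪gradient F x, v⟫_ℝ ≤ t⁻¹ * (F (x + t • v) - F x) := by
  have h1 : HasFDerivAt F (fderiv ℝ F x) x := (hd x).hasFDerivAt
  have h2 : HasDerivAt (fun s : ℝ => F (x + s • v)) (fderiv ℝ F x v) 0 := by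
    have h := h1.hasLineDerivAt v
    simpa [HasLineDerivAt] using h
  have h3 : ConvexOn ℝ univ (fun s : ℝ => F (x + s • v)) := by
    refine ⟨convex_univ, ?_⟩
    intro a _ b _ p q hp hq hpq
    have h := hc.2 (mem_univ (x + a • v)) (mem_univ (x + b • v)) hp hq hpq
    have h4 : x + (p • a + q • b) • v = p • (x + a • v) + q • (x + b • v) := by
      have h5 : x = (p + q) • x := by rw [hpq, one_smul]
      calc x + (p • a + q • b) • v = (p + q) • x + (p • a + q • b) • v := by rw [← h5]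
        _ = p • (x + a • v) + q • (x + b • v) := by
          simp only [smul_eq_mul]
          module
    simp only
    rw [h4]
    exact h
  have h4 := h3.le_slope_of_hasDerivAt (mem_univ 0) (mem_univ t) ht h2
  rw [slope_def_field] at h4
  have h5 : ⟪gradient F x, v⟫_ℝ = fderiv ℝ F x v := by
    simp [gradient]
  rw [h5]
  refine h4.trans (le_of_eq ?_)
  simp only [zero_smul, add_zero, sub_zero]
  field_simp

theorem gradlim_upper (f : E → ℝ) (F : ℕ → E → ℝ) (hd : ∀ n, Differentiable ℝ (F n))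
    (hc : ∀ n, ConvexOn ℝ univ (F n)) (hl : ∀ x, Tendsto (fun n => F n x) atTop (𝓝 (f x)))
    (x : E) (hx : DifferentiableAt ℝ f x) (v : E) (ε : ℝ) (hε : 0 < ε) :
    ∀ᶠ n in atTop, ⟪gradient (F n) x, v⟫_ℝ < ⟪gradient f x, v⟫_ℝ + ε := by
  have h1 : Tendsto (fun t : ℝ => t⁻¹ • (f (x + t • v) - f x)) (𝓝[>] 0) (𝓝 (fderiv ℝ f x v)) :=
    (hx.hasFDerivAt.hasLineDerivAt v).tendsto_slope_zero_right
  have h5 : ⟪gradient f x, v⟫_ℝ = fderiv ℝ f x v := by
    simp [gradient]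
  have h2 : ∀ᶠ t in 𝓝[>] (0 : ℝ), t⁻¹ • (f (x + t • v) - f x) < ⟪gradient f x, v⟫_ℝ + ε := by
    refine h1.eventually (gt_mem_nhds ?_)
    rw [h5]
    linarith
  obtain ⟨t, ht1, ht2⟩ := (h2.and self_mem_nhdsWithin).exists
  have ht : 0 < t := ht2
  have h3 : Tendsto (fun n => t⁻¹ * (F n (x + t • v) - F n x)) atTop
      (𝓝 (t⁻¹ * (f (x + t • v) - f x))) :=
    ((hl (x + t • v)).sub (hl x)).const_mul _
  have h4 : ∀ᶠ n in atTop, t⁻¹ * (F n (x + t • v) - F n x) < ⟪gradient f x, v⟫_ℝ + ε :=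
    h3.eventually (gt_mem_nhds (by simpa using ht1))
  filter_upwards [h4] with n hn
  exact lt_of_le_of_lt (gradlim_slope (F n) (hd n) (hc n) x v t ht) hn

theorem gradlim_inner (f : E → ℝ) (F : ℕ → E → ℝ) (hd : ∀ n, Differentiable ℝ (F n))
    (hc : ∀ n, ConvexOn ℝ univ (F n)) (hl : ∀ x, Tendsto (fun n => F n x) atTop (𝓝 (f x)))
    (x : E) (hx : DifferentiableAt ℝ f x) (v : E) :
    Tendsto (fun n => ⟪gradient (F n) x, v⟫_ℝ) atTop (𝓝 ⟪gradient f x, v⟫_ℝ) := by
  rw [Metric.tendsto_nhds]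
  intro ε hε
  have h1 := gradlim_upper f F hd hc hl x hx v ε hε
  have h2 := gradlim_upper f F hd hc hl x hx (-v) ε hε
  filter_upwards [h1, h2] with n h3 h4
  rw [inner_neg_right, inner_neg_right] at h4
  rw [Real.dist_eq, abs_lt]
  constructor <;> linarith

/-- GRADLIM. -/
theorem p_GRADLIM : T_GRADLIM := by
  intro f F hd hc hl x hx
  have h1 : ∀ y : E, y = ∑ i : Fin 3, ⟪y, EuclideanSpace.basisFun (Fin 3) ℝ i⟫_ℝ •
      EuclideanSpace.basisFun (Fin 3) ℝ i := by
    intro y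
    have h := (EuclideanSpace.basisFun (Fin 3) ℝ).sum_repr' y
    conv_lhs => rw [← h]
    refine Finset.sum_congr rfl fun i _ => ?_
    rw [real_inner_comm]
  have h2 : Tendsto (fun n => ∑ i : Fin 3, ⟪gradient (F n) x, EuclideanSpace.basisFun (Fin 3) ℝ i⟫_ℝ •
      EuclideanSpace.basisFun (Fin 3) ℝ i) atTop
      (𝓝 (∑ i : Fin 3, ⟪gradient f x, EuclideanSpace.basisFun (Fin 3) ℝ i⟫_ℝ •
      EuclideanSpace.basisFun (Fin 3) ℝ i)) := by
    refine tendsto_finsetSum _ fun i _ => ?_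
    exact (gradlim_inner f F hd hc hl x hx _).smul_const _
  rw [← h1] at h2
  refine h2.congr fun n => ?_
  exact (h1 _).symm

end Pool.Agent.HD3
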