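import Mathlib
import Pool.Agent.HD3.Spec

/-!
HD3: Gaussian integration by parts (IBP), through the density of the standard Gaussian measure.
-/

namespace Pool.Agent.HD3

open MeasureTheory ProbabilityTheory Set
open scoped InnerProductSpace Pointwise

namespace IBP_

/-- Normalising constant. -/
noncomputable def Z : ℝ := (2 * Real.pi) ^ ((3 : ℝ) / 2)

lemma Z_pos : 0 < Z := by unfold Z; positivity

/-- Unnormalised density. -/
noncomputable def φ (x : E) : ℝ := Real.exp (-‖x‖ ^ 2 / 2)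

lemma φ_pos (x : E) : 0 < φ x := Real.exp_pos _

/-- Density. -/
noncomputable def den (x : E) : NNReal := ⟨Z⁻¹ * φ x, (mul_pos (inv_pos.2 Z_pos) (φ_pos x)).le⟩

lemma den_coe (x : E) : (den x : ℝ) = Z⁻¹ * φ x := rfl

lemma φ_cont : Continuous φ := by unfold φ; fun_prop

lemma den_cont : Continuous den := by
  unfold den
  exact Continuous.subtype_mk (continuous_const.mul φ_cont) _

lemma den_meas : Measurable den := den_cont.measurable

lemma φ_integrable : Integrable φ (volume : Measure E) := by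
  have h1 := GaussianFourier.integrable_cexp_neg_mul_sq_norm_add (V := E) (b := (1 / 2 : ℂ))
    (by norm_num) 0 (0 : E)
  have h2 := h1.norm
  refine h2.congr (ae_of_all _ (fun x => ?_))
  simp only [φ]
  rw [Complex.norm_exp]
  congr 1
  have : (-(1 / 2 : ℂ) * (‖x‖ : ℂ) ^ 2 + 0 * ((⟪(0 : E), x⟫_ℝ : ℝ) : ℂ))
      = ((-‖x‖ ^ 2 / 2 : ℝ) : ℂ) := by
    push_cast
    ring
  rw [this, Complex.ofReal_re]

lemma lint : ∫⁻ x : E, (den x : ENNReal) < ⊤ := by
  have h : Integrable (fun x => (den x : ℝ)) (volume : Measure E) := by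
    simp only [den_coe]
    exact φ_integrable.const_mul _
  have h2 := h.hasFiniteIntegral
  rw [hasFiniteIntegral_iff_enorm] at h2
  refine lt_of_le_of_lt (le_of_eq ?_) h2
  congr 1
  ext x
  simp [enorm]

instance : IsProbabilityMeasure γ := by unfold γ; infer_instance

lemma gam_eq : γ = (volume : Measure E).withDensity (fun x => (den x : ENNReal)) := by
  have hfin : IsFiniteMeasure ((volume : Measure E).withDensity (fun x => (den x : ENNReal))) :=
    isFiniteMeasure_withDensity (ne_of_lt lint)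
  apply Measure.ext_of_charFun
  ext t
  rw [γ, charFun_stdGaussian, charFun_apply, integral_withDensity_eq_integral_smul den_meas]
  have h1 := GaussianFourier.integral_cexp_neg_mul_sq_norm_add (V := E) (b := (1 / 2 : ℂ))
    (by norm_num) Complex.I t
  have h2 : ∀ x : E, den x • Complex.exp ((⟪x, t⟫_ℝ : ℂ) * Complex.I) =
      ((Z⁻¹ : ℝ) : ℂ) * Complex.exp (-(1 / 2) * (‖x‖ : ℂ) ^ 2 + Complex.I * (⟪t, x⟫_ℝ : ℂ)) := by
    intro x
    rw [NNReal.smul_def, den_coe, Complex.real_smul]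
    push_cast
    rw [φ, Complex.ofReal_exp, mul_assoc, ← Complex.exp_add, real_inner_comm x t]
    congr 2
    push_cast
    ring
  rw [integral_congr_ae (ae_of_all _ h2), integral_const_mul, h1]
  have h3 : (Module.finrank ℝ E) = 3 := by simp
  rw [h3]
  have h4 : ((Real.pi : ℂ) / (1 / 2)) ^ (((3 : ℕ) : ℂ) / 2) = ((Z : ℝ) : ℂ) := by
    rw [Z, Complex.ofReal_cpow (by positivity)]
    push_cast
    congr 1
    ring
  rw [h4, ← mul_assoc]
  have h5 : ((Z⁻¹ : ℝ) : ℂ) * ((Z : ℝ) : ℂ) = 1 := by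
    rw [← Complex.ofReal_mul, inv_mul_cancel₀ Z_pos.ne']
    simp
  rw [h5, one_mul]
  congr 1
  rw [Complex.I_sq]
  ring

lemma integral_gam (F : E → ℝ) : ∫ x, F x ∂γ = Z⁻¹ * ∫ x, φ x * F x := by
  rw [gam_eq, integral_withDensity_eq_integral_smul den_meas, ← integral_const_mul]
  apply integral_congr_ae (ae_of_all _ (fun x => ?_))
  simp only [NNReal.smul_def, den_coe, smul_eq_mul]
  ring

lemma integrable_gam {F : E → ℝ} (hF : Integrable F γ) : Integrable (fun x => φ x * F x) := by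
  rw [gam_eq, integrable_withDensity_iff_integrable_smul den_meas] at hF
  refine (hF.const_mul Z).congr (ae_of_all _ (fun x => ?_))
  simp only [NNReal.smul_def, den_coe, smul_eq_mul]
  have := Z_pos.ne'
  field_simp

lemma φ_deriv (x : E) : HasFDerivAt φ (-(φ x) • innerSL ℝ x) x := by
  have h1 : HasFDerivAt (fun y : E => -‖y‖ ^ 2 / 2) (-(innerSL ℝ x)) x := by
    have := ((hasStrictFDerivAt_norm_sq x).hasFDerivAt).const_mul (-(1 / 2 : ℝ))
    convert! this using 1
    · ext y
      ring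
    · ext v
      simp
  have h2 := h1.exp
  convert! h2 using 1
  ext v
  simp [φ]

lemma φ_fderiv (x v : E) : fderiv ℝ φ x v = - (φ x * ⟪x, v⟫_ℝ) := by
  rw [(φ_deriv x).fderiv]
  simp

/-- one coordinate -/
lemma one (f : E → ℝ) (hf : ContDiff ℝ 2 f) (C D : ℝ) (hC : ∀ x, ‖fderiv ℝ f x‖ ≤ C)
    (hD : ∀ x, ‖fderiv ℝ (fderiv ℝ f) x‖ ≤ D) (v : E) :
    ∫ x, fderiv ℝ (fderiv ℝ f) x v v ∂γ = ∫ x, ⟪x, v⟫_ℝ * fderiv ℝ f x v ∂γ := by
  have hd1 : ContDiff ℝ 1 (fderiv ℝ f) := hf.fderiv_right (by norm_num)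
  have hc1 : Continuous (fderiv ℝ f) := hd1.continuous
  have hc2 : Continuous (fderiv ℝ (fderiv ℝ f)) := hd1.continuous_fderiv (by norm_num)
  set g : E → ℝ := fun x => fderiv ℝ f x v with hg
  have hgd : ∀ x, HasFDerivAt g ((fderiv ℝ (fderiv ℝ f) x).flip v) x := by
    intro x
    have h1 : HasFDerivAt (fderiv ℝ f) (fderiv ℝ (fderiv ℝ f) x) x :=
      (hd1.differentiable (by norm_num) x).hasFDerivAt
    have := h1.clm_apply (hasFDerivAt_const v x)
    convert! this using 1
    ext w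
    simp
  have hgf : ∀ x, fderiv ℝ g x v = fderiv ℝ (fderiv ℝ f) x v v := by
    intro x
    rw [(hgd x).fderiv]
    simp
  have hgb : ∀ x, ‖g x‖ ≤ C * ‖v‖ := fun x =>
    ((fderiv ℝ f x).le_opNorm v).trans (mul_le_mul_of_nonneg_right (hC x) (norm_nonneg _))
  have hgc : Continuous g := by
    rw [hg]; fun_prop
  have i1 : Integrable g γ :=
    Integrable.of_bound hgc.aestronglyMeasurable (C * ‖v‖) (ae_of_all _ hgb)
  have i2 : Integrable (fun x => fderiv ℝ g x v) γ := by
    simp only [hgf]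
    refine Integrable.of_bound (C := D * ‖v‖ * ‖v‖) ?_ (ae_of_all _ (fun x => ?_))
    · have : Continuous (fun x => fderiv ℝ (fderiv ℝ f) x v v) := by fun_prop
      exact this.aestronglyMeasurable
    · calc ‖fderiv ℝ (fderiv ℝ f) x v v‖ ≤ ‖fderiv ℝ (fderiv ℝ f) x v‖ * ‖v‖ :=
            ContinuousLinearMap.le_opNorm _ _
        _ ≤ ‖fderiv ℝ (fderiv ℝ f) x‖ * ‖v‖ * ‖v‖ :=
            mul_le_mul_of_nonneg_right (ContinuousLinearMap.le_opNorm _ _) (norm_nonneg _)
        _ ≤ D * ‖v‖ * ‖v‖ := by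
            gcongr
            exact hD x
  have i3 : Integrable (fun x => ⟪x, v⟫_ℝ * g x) γ := by
    have hid : Integrable (fun x : E => x) γ := by
      unfold γ
      exact IsGaussian.integrable_fun_id
    have h1 : Integrable (fun x : E => ⟪x, v⟫_ℝ) γ := hid.inner_const v
    exact h1.mul_bdd (c := C * ‖v‖) hgc.aestronglyMeasurable (ae_of_all _ hgb)
  have key := integral_mul_fderiv_eq_neg_fderiv_mul_of_integrable (μ := (volume : Measure E))
    (f := φ) (g := g) (v := v) ?_ (integrable_gam i2) (integrable_gam i1)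
    (fun x _ => (φ_deriv x).differentiableAt) (fun x _ => (hgd x).differentiableAt)
  · calc ∫ x, fderiv ℝ (fderiv ℝ f) x v v ∂γ = ∫ x, fderiv ℝ g x v ∂γ := by simp only [hgf]
      _ = Z⁻¹ * ∫ x, φ x * fderiv ℝ g x v := integral_gam _
      _ = Z⁻¹ * ∫ x, φ x * (⟪x, v⟫_ℝ * g x) := by
          rw [key, ← integral_neg]
          congr 1
          apply integral_congr_ae (ae_of_all _ (fun x => ?_))
          simp only [φ_fderiv]
          ring
      _ = ∫ x, ⟪x, v⟫_ℝ * g x ∂γ := (integral_gam _).symm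
  · refine (integrable_gam i3).neg.congr (ae_of_all _ (fun x => ?_))
    simp only [φ_fderiv, Pi.neg_apply]
    ring

end IBP_

open IBP_ in
theorem p_IBP : T_IBP := by
  rintro f hf ⟨C, hC⟩ ⟨D, hD⟩
  have hd1 : ContDiff ℝ 1 (fderiv ℝ f) := hf.fderiv_right (by norm_num)
  have hc1 : Continuous (fderiv ℝ f) := hd1.continuous
  have hc2 : Continuous (fderiv ℝ (fderiv ℝ f)) := hd1.continuous_fderiv (by norm_num)
  have i2 : ∀ v : E, Integrable (fun x => fderiv ℝ (fderiv ℝ f) x v v) γ := by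
    intro v
    refine Integrable.of_bound (C := D * ‖v‖ * ‖v‖) ?_ (ae_of_all _ (fun x => ?_))
    · have : Continuous (fun x => fderiv ℝ (fderiv ℝ f) x v v) := by fun_prop
      exact this.aestronglyMeasurable
    · calc ‖fderiv ℝ (fderiv ℝ f) x v v‖ ≤ ‖fderiv ℝ (fderiv ℝ f) x v‖ * ‖v‖ :=
            ContinuousLinearMap.le_opNorm _ _
        _ ≤ ‖fderiv ℝ (fderiv ℝ f) x‖ * ‖v‖ * ‖v‖ :=
            mul_le_mul_of_nonneg_right (ContinuousLinearMap.le_opNorm _ _) (norm_nonneg _)
        _ ≤ D * ‖v‖ * ‖v‖ := by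
            gcongr
            exact hD x
  have i3 : ∀ v : E, Integrable (fun x => ⟪x, v⟫_ℝ * fderiv ℝ f x v) γ := by
    intro v
    have hid : Integrable (fun x : E => x) γ := by
      unfold γ
      exact IsGaussian.integrable_fun_id
    have h1 : Integrable (fun x : E => ⟪x, v⟫_ℝ) γ := hid.inner_const v
    have hgc : Continuous (fun x => fderiv ℝ f x v) := by fun_prop
    exact h1.mul_bdd (c := C * ‖v‖) hgc.aestronglyMeasurable (ae_of_all _ (fun x =>
      ((fderiv ℝ f x).le_opNorm v).trans (mul_le_mul_of_nonneg_right (hC x) (norm_nonneg _))))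
  rw [integral_finsetSum _ (fun i _ => i2 _)]
  have hsum : ∀ x : E, ⟪x, gradient f x⟫_ℝ =
      ∑ i : Fin 3, ⟪x, EuclideanSpace.single i 1⟫_ℝ * fderiv ℝ f x (EuclideanSpace.single i 1) := by
    intro x
    rw [real_inner_comm]
    have h1 : ⟪gradient f x, x⟫_ℝ = fderiv ℝ f x x := by
      rw [gradient, InnerProductSpace.toDual_symm_apply]
    rw [h1]
    have h2 : x = ∑ i : Fin 3, ⟪x, EuclideanSpace.single i (1 : ℝ)⟫_ℝ •
        (EuclideanSpace.single i (1 : ℝ)) := by
      ext j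
      fin_cases j <;> simp [Fin.sum_univ_three, EuclideanSpace.inner_single_right]
    conv_lhs => rw [h2]
    rw [map_sum, ← h2]
    simp
  simp only [hsum]
  rw [integral_finsetSum _ (fun i _ => i3 _)]
  exact Finset.sum_congr rfl (fun i _ => one f hf C D hC hD _)

end Pool.Agent.HD3
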