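import Mathlib
import Pool.Agent.HD3.Spec

/-!
HD3, job INC: mean increment of the gradient of the support function.
-/

namespace Pool.Agent.HD3

open MeasureTheory ProbabilityTheory Set
open scoped InnerProductSpace Pointwise

namespace INC_

instance : IsProbabilityMeasure γ := by unfold γ; infer_instance

lemma norm_gradient (f : E → ℝ) (x : E) : ‖gradient f x‖ = ‖fderiv ℝ f x‖ := by
  unfold gradient
  exact LinearIsometryEquiv.norm_map _ _

lemma inner_gradient (f : E → ℝ) (x v : E) : ⟪gradient f x, v⟫_ℝ = fderiv ℝ f x v := by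
  unfold gradient
  exact InnerProductSpace.toDual_symm_apply

lemma continuous_gradient {f : E → ℝ} (hf : ContDiff ℝ 2 f) : Continuous (gradient f) := by
  have h1 : Continuous (fderiv ℝ f) := hf.continuous_fderiv (by norm_num)
  unfold gradient
  exact (LinearIsometryEquiv.continuous _).comp h1

lemma integrable_norm : Integrable (fun x : E => ‖x‖) γ := by
  have h1 : Integrable (fun x : E => x) γ := by
    unfold γ; exact IsGaussian.integrable_id
  exact h1.norm

lemma integrable_lip (f : E → ℝ) (R : NNReal) (hf : LipschitzWith R f) : Integrable f γ := by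
  have h2 : Integrable (fun x : E => (R : ℝ) * ‖x‖ + ‖f 0‖) γ :=
    (integrable_norm.const_mul _).add (integrable_const _)
  refine h2.mono' hf.continuous.aestronglyMeasurable (Filter.Eventually.of_forall fun x => ?_)
  have h3 := hf.dist_le_mul x 0
  rw [dist_eq_norm, dist_eq_norm, sub_zero] at h3
  calc ‖f x‖ = ‖(f x - f 0) + f 0‖ := by ring_nf
    _ ≤ ‖f x - f 0‖ + ‖f 0‖ := norm_add_le _ _
    _ ≤ _ := by linarith

/-- The gradient inequality at `x` and `2 x`. -/
lemma grad_le {f : E → ℝ} (hf : Differentiable ℝ f) (hc : ConvexOn ℝ univ f) (x : E) :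
    ⟪x, gradient f x⟫_ℝ ≤ f ((2 : ℝ) • x) - f x := by
  rw [real_inner_comm, inner_gradient]
  -- the function of one variable
  set g : ℝ → ℝ := fun t => f (x + t • x) with hg
  have hgc : ConvexOn ℝ univ g := by
    have h1 := hc.comp_affineMap (AffineMap.lineMap x (x + x) : ℝ →ᵃ[ℝ] E)
    have h2 : (f ∘ (AffineMap.lineMap x (x + x) : ℝ →ᵃ[ℝ] E)) = g := by
      funext t
      simp only [Function.comp, AffineMap.lineMap_apply, hg]
      congr 1
      simp [add_comm]
    rw [h2] at h1
    simpa using h1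
  have hgd : HasDerivAt g (fderiv ℝ f x x) 0 := by
    have h1 : HasDerivAt (fun t : ℝ => x + t • x) x 0 := by
      have := (hasDerivAt_id (0 : ℝ)).smul_const x
      simpa using this.const_add x
    have h2 : HasFDerivAt f (fderiv ℝ f x) (x + (0 : ℝ) • x) := by
      simpa using (hf x).hasFDerivAt
    exact h2.comp_hasDerivAt (0 : ℝ) h1
  have h3 := hgc.le_slope_of_hasDerivAt (mem_univ 0) (mem_univ (1 : ℝ)) one_pos hgd
  rw [slope_def_field] at h3
  have h4 : g 1 = f ((2 : ℝ) • x) := by
    simp only [hg]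
    congr 1
    rw [two_smul, one_smul]
  have h5 : g 0 = f x := by simp [hg]
  rw [h4, h5] at h3
  simpa using h3

end INC_

open INC_

theorem p_INC (hB : T_BASIC) (hS : T_SMOOTH) (hM : T_MOLL) (hG : T_GRADLIM) (hAC : T_AC)
    (hROT : T_ROT) : T_INC := by
  intro K hK hcv hne a ha
  obtain ⟨hc, ⟨R, hR, -⟩, hhom, -⟩ := hB K hK hne
  have hε : ∀ n : ℕ, (0 : ℝ) < 1 / ((n : ℝ) + 1) := fun n => by positivity
  choose F hF1 hF2 hF3 hF4 hF5 using fun n : ℕ => hM (h K) hc R hR _ (hε n)
  have hdiff : ∀ n, Differentiable ℝ (F n) := fun n => (hF1 n).differentiable (by norm_num)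
  -- right side
  have hhint : Integrable (fun x => h K x) γ := integrable_lip _ R hR
  have hright : ∀ n, ∫ x, ⟪x, gradient (F n) x⟫_ℝ ∂γ ≤ ∫ x, h K x ∂γ + 2 * (1 / ((n : ℝ) + 1)) := by
    intro n
    have h1 : Integrable (fun x => ⟪x, gradient (F n) x⟫_ℝ) γ := by
      refine (integrable_norm.const_mul (R : ℝ)).mono'
        (continuous_id.inner (continuous_gradient (hF1 n))).aestronglyMeasurable
        (Filter.Eventually.of_forall fun x => ?_)
      calc ‖⟪x, gradient (F n) x⟫_ℝ‖ ≤ ‖x‖ * ‖gradient (F n) x‖ := norm_inner_le_norm _ _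
        _ ≤ ‖x‖ * R := by
          gcongr
          rw [norm_gradient]
          exact hF4 n x
        _ = R * ‖x‖ := mul_comm _ _
    have h2 : Integrable (fun x => h K x + 2 * (1 / ((n : ℝ) + 1))) γ :=
      hhint.add (integrable_const _)
    have h3 : ∫ x, (h K x + 2 * (1 / ((n : ℝ) + 1))) ∂γ =
        ∫ x, h K x ∂γ + 2 * (1 / ((n : ℝ) + 1)) := by
      rw [integral_add hhint (integrable_const _), integral_const]
      simp
    rw [← h3]
    refine integral_mono h1 h2 fun x => ?_
    have h4 := grad_le (hdiff n) (hF2 n) x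
    have h5 := (abs_le.mp (hF3 n ((2 : ℝ) • x))).2
    have h6 := (abs_le.mp (hF3 n x)).1
    have h7 := hhom 2 (by norm_num) x
    simp only
    linarith
  -- left side
  have hae : ∀ᵐ x ∂γ, DifferentiableAt ℝ (h K) x := hAC.ae_le hR.ae_differentiableAt
  have hfst : Measure.QuasiMeasurePreserving Prod.fst (γ.prod γ) γ :=
    Measure.quasiMeasurePreserving_fst
  have hae1 : ∀ᵐ p ∂(γ.prod γ), DifferentiableAt ℝ (h K) p.1 := hfst.ae hae
  have hae2 : ∀ᵐ p ∂(γ.prod γ), DifferentiableAt ℝ (h K) (circ a p) :=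
    (hfst.comp (hROT a).quasiMeasurePreserving).ae hae
  have hconv : ∀ x, Filter.Tendsto (fun n => F n x) Filter.atTop (nhds (h K x)) := by
    intro x
    rw [tendsto_iff_dist_tendsto_zero]
    refine squeeze_zero (fun n => dist_nonneg) (fun n => ?_)
      (tendsto_one_div_add_atTop_nhds_zero_nat (𝕜 := ℝ))
    rw [Real.dist_eq]
    exact hF3 n x
  have hcirc : Continuous (fun p : E × E => circ a p) := by
    unfold circ
    fun_prop
  have hlim : Filter.Tendsto (fun n => ∫ p, ‖gradient (F n) (circ a p) - gradient (F n) p.1‖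
      ∂(γ.prod γ)) Filter.atTop (nhds (∫ p, ‖G K (circ a p) - G K p.1‖ ∂(γ.prod γ))) := by
    refine tendsto_integral_of_dominated_convergence (fun _ => (R : ℝ) + R) (fun n => ?_)
      (integrable_const _) (fun n => Filter.Eventually.of_forall fun p => ?_) ?_
    · exact (((continuous_gradient (hF1 n)).comp hcirc).sub
        ((continuous_gradient (hF1 n)).comp continuous_fst)).norm.aestronglyMeasurable
    · rw [norm_norm]
      refine (norm_sub_le _ _).trans (add_le_add ?_ ?_)
      · rw [norm_gradient]; exact hF4 n _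
      · rw [norm_gradient]; exact hF4 n _
    · filter_upwards [hae1, hae2] with p h1 h2
      exact ((hG (h K) F hdiff hF2 hconv _ h2).sub (hG (h K) F hdiff hF2 hconv _ h1)).norm
  have hle : ∀ n, ∫ p, ‖gradient (F n) (circ a p) - gradient (F n) p.1‖ ∂(γ.prod γ) ≤
      a * Real.sqrt (2 / Real.pi) * (∫ x, h K x ∂γ + 2 * (1 / ((n : ℝ) + 1))) := by
    intro n
    refine (hS (F n) (hF1 n) (hF2 n) ⟨R, hF4 n⟩ (hF5 n) a ha).trans ?_
    exact mul_le_mul_of_nonneg_left (hright n) (mul_nonneg ha (Real.sqrt_nonneg _))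
  have hlim2 : Filter.Tendsto (fun n : ℕ => a * Real.sqrt (2 / Real.pi) *
      (∫ x, h K x ∂γ + 2 * (1 / ((n : ℝ) + 1)))) Filter.atTop
      (nhds (a * Real.sqrt (2 / Real.pi) * (∫ x, h K x ∂γ + 2 * 0))) :=
    ((((tendsto_one_div_add_atTop_nhds_zero_nat (𝕜 := ℝ)).const_mul 2).const_add _).const_mul _)
  have := le_of_tendsto_of_tendsto' hlim hlim2 hle
  simpa using this

end Pool.Agent.HD3
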