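import Mathlib
import Pool.Agent.HD3.Spec

/-!
HD3-JOHN: existence of the position (John's ellipsoid of maximal volume, primal form).
-/

namespace Pool.Agent.HD3
namespace JOHN_

open MeasureTheory Set Metric Filter
open scoped InnerProductSpace Pointwise Topology

/-- `det (1 + r H) > 1` for small positive `r` when the trace of `H` is positive. -/
lemma det_gt (H : E →ₗ[ℝ] E) (hH : 0 < LinearMap.trace ℝ E H) :
    ∃ δ : ℝ, 0 < δ ∧ ∀ r, 0 < r → r < δ → 1 < LinearMap.det (1 + r • H) := by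
  let b := (EuclideanSpace.basisFun (Fin 3) ℝ).toBasis
  set M := LinearMap.toMatrix b b H with hM
  set p := (Matrix.det (1 + (Polynomial.X : Polynomial ℝ) • M.map Polynomial.C)).divX.divX
    with hp
  have hcont : Tendsto (fun r : ℝ => LinearMap.trace ℝ E H + p.eval r * r) (𝓝 0)
      (𝓝 (LinearMap.trace ℝ E H)) := by
    have : Continuous (fun r : ℝ => LinearMap.trace ℝ E H + p.eval r * r) :=
      continuous_const.add (p.continuous.mul continuous_id)
    simpa using this.tendsto 0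
  have hev := hcont.eventually (lt_mem_nhds hH)
  obtain ⟨δ, hδ, h⟩ := Metric.eventually_nhds_iff.1 hev
  refine ⟨δ, hδ, fun r hr0 hr => ?_⟩
  have h1 := h (y := r) (by simpa [abs_of_pos hr0] using hr)
  have h2 : LinearMap.det (1 + r • H) = 1 + LinearMap.trace ℝ E H * r + p.eval r * r ^ 2 := by
    rw [← LinearMap.det_toMatrix b, LinearMap.trace_eq_matrix_trace ℝ b, map_add, map_smul,
      LinearMap.toMatrix_one]
    exact Matrix.det_one_add_smul r M
  rw [h2]
  nlinarith

/-- The first-order contact property of a position in which the unit ball has maximal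
volume among the ellipsoids inside `S`. -/
lemma contact (S : Set E) (hS : IsCompact S) (hc : Convex ℝ S) (hB : closedBall 0 1 ⊆ S)
    (hmax : ∀ T : E →ₗ[ℝ] E, (∀ x ∈ closedBall (0 : E) 1, T x ∈ S) → LinearMap.det T ≤ 1)
    (H : E →ₗ[ℝ] E) (hH : 0 < LinearMap.trace ℝ E H) :
    ∃ u : E, ‖u‖ = 1 ∧ (∀ x ∈ S, ⟪u, x⟫_ℝ ≤ 1) ∧ 0 ≤ ⟪u, H u⟫_ℝ := by
  obtain ⟨δ, hδ, hd⟩ := det_gt H hH
  obtain ⟨C, hC0, hHC⟩ : ∃ C : ℝ, 0 ≤ C ∧ ∀ y, ‖H y‖ ≤ C * ‖y‖ :=
    ⟨‖H.toContinuousLinearMap‖, norm_nonneg _, fun y => H.toContinuousLinearMap.le_opNorm y⟩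
  have key : ∀ n : ℕ, ∃ u y : E, ‖u‖ = 1 ∧ ‖y‖ ≤ 1 ∧
      (∀ x ∈ S, ⟪u, x⟫_ℝ ≤ 1 + (δ / (n + 2)) * C) ∧ 0 ≤ ⟪u, H y⟫_ℝ ∧
      ‖y - u‖ ^ 2 ≤ 2 * ((δ / (n + 2)) * C) := by
    intro n
    set r := δ / ((n : ℝ) + 2) with hr
    have hn : (0 : ℝ) < (n : ℝ) + 2 := by positivity
    have hr0 : 0 < r := div_pos hδ hn
    have hrd : r < δ := by
      rw [hr, div_lt_iff₀ hn]
      have : (0 : ℝ) ≤ n := Nat.cast_nonneg n
      nlinarith
    have h1 := hd r hr0 hrd
    have h2 : ¬ ∀ x ∈ closedBall (0 : E) 1, (1 + r • H) x ∈ S :=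
      fun h => absurd (hmax _ h) (not_le.2 h1)
    push Not at h2
    obtain ⟨y, hy, hyS⟩ := h2
    obtain ⟨f, s, hf1, hf2⟩ := geometric_hahn_banach_closed_point hc hS.isClosed hyS
    set v : E := (InnerProductSpace.toDual ℝ E).symm f with hv
    have hvf : ∀ x, f x = ⟪v, x⟫_ℝ := fun x => by
      rw [hv, InnerProductSpace.toDual_symm_apply]
    have h0S : (0 : E) ∈ S := hB (by simp)
    have hv0 : v ≠ 0 := by
      intro h0
      have a1 := hf1 0 h0S
      rw [hvf, h0] at a1 hf2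
      simp only [inner_zero_left] at a1 hf2
      linarith
    have hvn : 0 < ‖v‖ := norm_pos_iff.2 hv0
    set u : E := ‖v‖⁻¹ • v with hu
    have hu1 : ‖u‖ = 1 := by
      rw [hu, norm_smul, norm_inv, norm_norm, inv_mul_cancel₀ hvn.ne']
    have hsep : ∀ x ∈ S, ⟪u, x⟫_ℝ < ⟪u, (1 + r • H) y⟫_ℝ := by
      intro x hx
      rw [hu, real_inner_smul_left, real_inner_smul_left, ← hvf, ← hvf]
      exact mul_lt_mul_of_pos_left ((hf1 x hx).trans hf2) (inv_pos.2 hvn)
    have hy1 : ‖y‖ ≤ 1 := by simpa using hy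
    have hTy : ⟪u, (1 + r • H) y⟫_ℝ = ⟪u, y⟫_ℝ + r * ⟪u, H y⟫_ℝ := by
      rw [LinearMap.add_apply, LinearMap.smul_apply, inner_add_right, real_inner_smul_right]
      rfl
    have huy : ⟪u, y⟫_ℝ ≤ 1 := by
      have := real_inner_le_norm u y
      rw [hu1] at this
      linarith
    have huHy : ⟪u, H y⟫_ℝ ≤ C := by
      have a1 := real_inner_le_norm u (H y)
      have a2 := hHC y
      rw [hu1, one_mul] at a1
      have a3 : C * ‖y‖ ≤ C * 1 := mul_le_mul_of_nonneg_left hy1 hC0
      linarith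
    have huS : u ∈ S := hB (by simp [hu1])
    have h11 : 1 < ⟪u, y⟫_ℝ + r * ⟪u, H y⟫_ℝ := by
      have := hsep u huS
      rw [hTy, real_inner_self_eq_norm_sq, hu1] at this
      linarith
    have hrC : r * ⟪u, H y⟫_ℝ ≤ r * C := mul_le_mul_of_nonneg_left huHy hr0.le
    refine ⟨u, y, hu1, hy1, fun x hx => ?_, ?_, ?_⟩
    · have := hsep x hx
      rw [hTy] at this
      linarith
    · by_contra hneg
      push Not at hneg
      nlinarith
    · rw [@norm_sub_sq_real]
      rw [hu1, real_inner_comm]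
      nlinarith [norm_nonneg y]
  choose u y hu1 hy1 hux hpos hyu using key
  obtain ⟨w, hw, φ, hφ, hlim⟩ := (isCompact_sphere (0 : E) 1).tendsto_subseq
    (x := u) (fun n => by simp [hu1 n])
  have hr : Tendsto (fun n : ℕ => (δ / ((n : ℝ) + 2)) * C) atTop (𝓝 0) := by
    have h1 : Tendsto (fun n : ℕ => (n : ℝ) + 2) atTop atTop :=
      tendsto_atTop_add_const_right _ _ tendsto_natCast_atTop_atTop
    have h2 := (h1.const_div_atTop δ).mul_const C
    simpa using h2
  have hrφ := hr.comp hφ.tendsto_atTop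
  have hyu0 : Tendsto (fun n => y (φ n) - u (φ n)) atTop (𝓝 0) := by
    have h1 : Tendsto (fun n => ‖y (φ n) - u (φ n)‖ ^ 2) atTop (𝓝 0) := by
      refine squeeze_zero (fun n => by positivity) (fun n => hyu (φ n)) ?_
      simpa using hrφ.const_mul 2
    have h2 : Tendsto (fun n => ‖y (φ n) - u (φ n)‖) atTop (𝓝 0) := by
      have h3 := h1.sqrt
      simpa using h3
    exact tendsto_zero_iff_norm_tendsto_zero.2 h2
  have hylim : Tendsto (fun n => y (φ n)) atTop (𝓝 w) := by
    have := hyu0.add hlim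
    simpa using this
  refine ⟨w, by simpa using hw, fun x hx => ?_, ?_⟩
  · have h1 : Tendsto (fun n => ⟪u (φ n), x⟫_ℝ) atTop (𝓝 ⟪w, x⟫_ℝ) :=
      Tendsto.inner hlim tendsto_const_nhds
    have h2 : Tendsto (fun n => 1 + (δ / (((φ n : ℕ) : ℝ) + 2)) * C) atTop (𝓝 1) := by
      simpa using hrφ.const_add 1
    exact le_of_tendsto_of_tendsto' h1 h2 (fun n => hux (φ n) x hx)
  · have hcH : Continuous (fun x => H x) := H.continuous_of_finiteDimensional
    have h1 : Tendsto (fun n => ⟪u (φ n), H (y (φ n))⟫_ℝ) atTop (𝓝 ⟪w, H w⟫_ℝ) :=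
      Tendsto.inner hlim ((hcH.tendsto w).comp hylim)
    exact ge_of_tendsto' h1 (fun n => hpos (φ n))

/-- The John property of a maximal position. -/
lemma john (S : Set E) (hS : IsCompact S) (hc : Convex ℝ S) (hB : closedBall 0 1 ⊆ S)
    (hmax : ∀ T : E →ₗ[ℝ] E, (∀ x ∈ closedBall (0 : E) 1, T x ∈ S) → LinearMap.det T ≤ 1) :
    JohnProp S := by
  intro H
  set U : Set E := {u | ‖u‖ = 1 ∧ ∀ x ∈ S, ⟪u, x⟫_ℝ ≤ 1} with hU
  have hUc : IsCompact U := by
    refine (isCompact_sphere (0 : E) 1).of_isClosed_subset ?_ ?_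
    · have : U = {u | ‖u‖ = 1} ∩ ⋂ x ∈ S, {u | ⟪u, x⟫_ℝ ≤ 1} := by
        ext u
        simp [hU]
      rw [this]
      refine (isClosed_eq continuous_norm continuous_const).inter ?_
      exact isClosed_biInter fun x _ =>
        isClosed_le (continuous_id.inner continuous_const) continuous_const
    · intro u hu
      simpa using hu.1
  have htr1 : LinearMap.trace ℝ E (1 : E →ₗ[ℝ] E) = 3 := by
    rw [LinearMap.trace_one]
    simp
  have key : ∀ c : ℝ, 0 < c → ∃ u ∈ U, LinearMap.trace ℝ E H / 3 - c ≤ ⟪u, H u⟫_ℝ := by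
    intro c hc0
    obtain ⟨u, hu1, hux, hu⟩ := contact S hS hc hB hmax
      (H + (c - LinearMap.trace ℝ E H / 3) • (1 : E →ₗ[ℝ] E)) (by
        rw [map_add, map_smul, htr1, smul_eq_mul]
        linarith)
    refine ⟨u, ⟨hu1, hux⟩, ?_⟩
    rw [LinearMap.add_apply, LinearMap.smul_apply, inner_add_right, real_inner_smul_right,
      Module.End.one_apply, real_inner_self_eq_norm_sq, hu1] at hu
    linarith
  obtain ⟨u0, hu0, -⟩ := key 1 one_pos
  have hcH : Continuous (fun x => H x) := H.continuous_of_finiteDimensional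
  obtain ⟨u, hu, humax⟩ := hUc.exists_isMaxOn ⟨u0, hu0⟩
    (f := fun x => ⟪x, H x⟫_ℝ) (continuous_id.inner hcH).continuousOn
  refine ⟨u, hu.1, hu.2, ?_⟩
  by_contra hlt
  push Not at hlt
  obtain ⟨v, hv, hvle⟩ := key ((LinearMap.trace ℝ E H / 3 - ⟪u, H u⟫_ℝ) / 2) (by linarith)
  have : ⟪v, H v⟫_ℝ ≤ ⟪u, H u⟫_ℝ := humax hv
  linarith

end JOHN_

open JOHN_ in
/-- Existence of John's position. -/
theorem p_JOHN : T_JOHN := by
  intro S hS hc hsym hint
  -- the set of maps sending the unit ball into `S`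
  set 𝒯 : Set (E →L[ℝ] E) := {T | ∀ x ∈ Metric.closedBall (0 : E) 1, T x ∈ S} with h𝒯
  obtain ⟨R, hR⟩ := hS.isBounded.subset_closedBall (0 : E)
  have hR0 : 0 ≤ max R 0 := le_max_right _ _
  have hclosed : IsClosed 𝒯 := by
    have : 𝒯 = ⋂ x ∈ Metric.closedBall (0 : E) 1, (fun T : E →L[ℝ] E => T x) ⁻¹' S := by
      ext T
      simp [h𝒯]
    rw [this]
    exact isClosed_biInter fun x _ => hS.isClosed.preimage
      (ContinuousLinearMap.apply ℝ E x).continuous
  have hbdd : Bornology.IsBounded 𝒯 := by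
    refine (Metric.isBounded_closedBall (x := (0 : E →L[ℝ] E)) (r := max R 0)).subset ?_
    intro T hT
    rw [Metric.mem_closedBall, dist_zero_right]
    refine ContinuousLinearMap.opNorm_le_of_unit_norm hR0 fun x hx => ?_
    have h1 := hR (hT x (by simp [hx]))
    rw [Metric.mem_closedBall, dist_zero_right] at h1
    exact h1.trans (le_max_left _ _)
  have : ProperSpace (E →L[ℝ] E) := FiniteDimensional.proper ℝ (E →L[ℝ] E)
  have hcpt : IsCompact 𝒯 := Metric.isCompact_of_isClosed_isBounded hclosed hbdd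
  -- zero is interior
  have h0 : (0 : E) ∈ interior S := by
    obtain ⟨x, hx⟩ := hint
    have hnx : -x ∈ interior S := by
      have h1 : -S = S := by
        ext y
        constructor
        · intro hy
          have := hsym _ (Set.mem_neg.1 hy)
          simpa using this
        · intro hy
          exact Set.mem_neg.2 (hsym _ hy)
      have h2 : interior (-S) = -interior S := by
        exact ((Homeomorph.neg E).preimage_interior S).symm
      rw [h1] at h2
      rw [h2]
      simpa using hx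
    have := hc.interior.add_smul_sub_mem hx hnx (t := 1 / 2) (by norm_num)
    have h3 : x + (1 / 2 : ℝ) • (-x - x) = 0 := by
      rw [← neg_add', smul_neg, ← two_smul ℝ x, smul_smul]
      norm_num
    rwa [h3] at this
  obtain ⟨r, hr0, hr⟩ := Metric.isOpen_iff.1 isOpen_interior 0 h0
  have hT1 : ((r / 2) • (1 : E →L[ℝ] E)) ∈ 𝒯 := by
    intro x hx
    apply interior_subset
    apply hr
    rw [Metric.mem_closedBall, dist_zero_right] at hx
    rw [Metric.mem_ball, dist_zero_right]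
    change ‖(r / 2) • x‖ < r
    rw [norm_smul, Real.norm_of_nonneg (by positivity)]
    nlinarith
  obtain ⟨T0, hT0, hmax⟩ := hcpt.exists_isMaxOn ⟨_, hT1⟩
    (f := fun T : E →L[ℝ] E => |T.det|) (ContinuousLinearMap.continuous_det.abs).continuousOn
  have hdet0 : T0.det ≠ 0 := by
    intro h
    have h1 : |((r / 2) • (1 : E →L[ℝ] E)).det| ≤ |T0.det| := hmax hT1
    rw [h, abs_zero] at h1
    have h2 : ((r / 2) • (1 : E →L[ℝ] E)).det = (r / 2) ^ 3 := by
      rw [ContinuousLinearMap.det]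
      have : ((((r / 2) • (1 : E →L[ℝ] E)) : E →L[ℝ] E) : E →ₗ[ℝ] E) =
        (r / 2) • (1 : E →ₗ[ℝ] E) := rfl
      rw [this, LinearMap.det_smul]
      simp
    rw [h2] at h1
    have : 0 < |(r / 2) ^ 3| := by positivity
    linarith
  set A0 : E ≃L[ℝ] E := T0.toContinuousLinearEquivOfDetNeZero hdet0 with hA0
  have hA0T : ∀ x, A0 x = T0 x := fun x => rfl
  refine ⟨A0.symm, ?_, ?_⟩
  · intro x hx
    exact ⟨T0 x, hT0 x hx, by rw [← hA0T]; exact A0.symm_apply_apply x⟩
  · refine john _ (hS.image A0.symm.continuous) (hc.linear_image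
      (A0.symm : E →L[ℝ] E).toLinearMap) ?_ ?_
    · intro x hx
      exact ⟨T0 x, hT0 x hx, by rw [← hA0T]; exact A0.symm_apply_apply x⟩
    · intro T hT
      set T' : E →L[ℝ] E := T0.comp T.toContinuousLinearMap with hT'
      have hmem : T' ∈ 𝒯 := by
        intro x hx
        obtain ⟨y, hy, hyx⟩ := hT x hx
        have : T' x = y := by
          change T0 (T x) = y
          rw [← hyx, ← hA0T]
          exact A0.apply_symm_apply y
        rw [this]
        exact hy
      have h1 : |T'.det| ≤ |T0.det| := hmax hmem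
      have h2 : T'.det = T0.det * LinearMap.det T := by
        change LinearMap.det ((T0 : E →ₗ[ℝ] E) ∘ₗ T) = _
        rw [LinearMap.det_comp]
      rw [h2, abs_mul] at h1
      have h3 : |LinearMap.det T| ≤ 1 := by
        have : 0 < |T0.det| := abs_pos.2 hdet0
        by_contra hlt
        push Not at hlt
        nlinarith
      exact (le_abs_self _).trans h3

end Pool.Agent.HD3
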