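import Mathlib

/-!
The unit cube of `EuclideanSpace ℝ (Fin d)` needs at least `2 ^ d` translates of its interior.
-/

namespace Pool.Agent.HD3.Lower

open Set

lemma cube_lower (d : ℕ) :
    ∃ K : Set (EuclideanSpace ℝ (Fin d)),
      Convex ℝ K ∧ IsCompact K ∧ (interior K).Nonempty ∧
      ∀ T : Finset (EuclideanSpace ℝ (Fin d)),
        K ⊆ ⋃ t ∈ T, (fun x => t + x) '' interior K → 2 ^ d ≤ T.card := by
  classical
  set e : EuclideanSpace ℝ (Fin d) ≃L[ℝ] (Fin d → ℝ) := EuclideanSpace.equiv (Fin d) ℝ with he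
  set K : Set (EuclideanSpace ℝ (Fin d)) := e ⁻¹' (Set.pi univ fun _ => Icc (0 : ℝ) 1) with hK
  have hint : interior K = e ⁻¹' (Set.pi univ fun _ => Ioo (0 : ℝ) 1) := by
    have h1 := e.toHomeomorph.preimage_interior (Set.pi univ fun _ : Fin d => Icc (0 : ℝ) 1)
    have h2 : interior (Set.pi univ fun _ : Fin d => Icc (0 : ℝ) 1) =
        Set.pi univ fun _ : Fin d => Ioo (0 : ℝ) 1 := by
      rw [interior_pi_set Set.finite_univ]
      simp [interior_Icc]
    rw [h2] at h1
    exact h1.symm
  refine ⟨K, ?_, ?_, ?_, ?_⟩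
  · exact (convex_pi fun i _ => convex_Icc 0 1).linear_preimage
      (e.toLinearEquiv : EuclideanSpace ℝ (Fin d) →ₗ[ℝ] (Fin d → ℝ))
  · have h1 : IsCompact (Set.pi univ fun _ : Fin d => Icc (0 : ℝ) 1) :=
      isCompact_univ_pi fun _ => isCompact_Icc
    exact e.toHomeomorph.isCompact_preimage.2 h1
  · rw [hint]
    refine ⟨e.symm (fun _ => 1 / 2), ?_⟩
    simp only [mem_preimage, ContinuousLinearEquiv.apply_symm_apply, Set.mem_pi, mem_univ,
      true_implies, mem_Ioo]
    intro i; norm_num
  · intro T hT
    have hv : ∀ s : Fin d → Bool, ∃ t ∈ T, ∀ i, (if s i then (1 : ℝ) else 0) - e t i ∈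
        Ioo (0 : ℝ) 1 := by
      intro s
      have h1 : e.symm (fun i => if s i then (1 : ℝ) else 0) ∈ K := by
        simp only [hK, mem_preimage, ContinuousLinearEquiv.apply_symm_apply, Set.mem_pi, mem_univ,
          true_implies, mem_Icc]
        intro i; split <;> norm_num
      have h2 := hT h1
      simp only [mem_iUnion] at h2
      obtain ⟨t, ht, x, hx, hxt⟩ := h2
      refine ⟨t, ht, fun i => ?_⟩
      rw [hint] at hx
      have h3 := hx i (mem_univ i)
      have h4 : e (t + x) i = if s i then (1 : ℝ) else 0 := by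
        have : (fun x => t + x) x = t + x := rfl
        rw [this] at hxt
        rw [hxt, ContinuousLinearEquiv.apply_symm_apply]
      rw [← h4, map_add]
      simpa using h3
    choose t ht1 ht2 using hv
    have hinj : Function.Injective t := by
      intro s s' hss
      by_contra hne
      obtain ⟨i, hi⟩ : ∃ i, s i ≠ s' i := by
        by_contra hcon
        push Not at hcon
        exact hne (funext hcon)
      have h1 := ht2 s i
      have h2 := ht2 s' i
      rw [hss] at h1
      cases hs : s i <;> cases hs' : s' i <;> simp_all <;> linarith [h1.1, h1.2, h2.1, h2.2]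
    have hc : (Finset.univ : Finset (Fin d → Bool)).card ≤ T.card :=
      Finset.card_le_card_of_injOn t (fun s _ => ht1 s) (hinj.injOn)
    simpa using hc

end Pool.Agent.HD3.Lower
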