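import Mathlib
import Pool.Agent.HD3.Spec

/-! MOLL: smooth convex approximations of a convex Lipschitz function (mollification). -/

namespace Pool.Agent.HD3

open MeasureTheory Set

namespace MOLL_

open scoped Convolution

/-- The convolution of a continuous compactly supported function with a Lipschitz function is
Lipschitz. -/
theorem conv_lip {V W : Type*} [NormedAddCommGroup V] [NormedSpace ℝ V] [NormedAddCommGroup W]
    [NormedSpace ℝ W] (L : V →L[ℝ] ℝ →L[ℝ] W) (ρ : E → V) (hc : Continuous ρ)
    (hs : HasCompactSupport ρ) (f : E → ℝ) (R : NNReal) (hf : LipschitzWith R f) (x y : E) :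
    ‖(ρ ⋆[L, volume] f) x - (ρ ⋆[L, volume] f) y‖ ≤ (∫ t, ‖L (ρ t)‖) * R * ‖x - y‖ := by
  have hex := hs.convolutionExists_left L hc hf.continuous.locallyIntegrable (μ := volume)
  rw [convolution_def, convolution_def, ← integral_sub (hex x) (hex y)]
  have hci : Continuous (fun t => ‖L (ρ t)‖) := (L.continuous.comp hc).norm
  have hsi : HasCompactSupport (fun t => ‖L (ρ t)‖) := by
    refine hs.mono' ?_
    intro t ht
    apply subset_closure
    intro h0
    apply ht
    simp [h0]
  have hi : Integrable (fun t => ‖L (ρ t)‖) := hci.integrable_of_hasCompactSupport hsi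
  calc ‖∫ t, (L (ρ t)) (f (x - t)) - (L (ρ t)) (f (y - t))‖
      ≤ ∫ t, ‖L (ρ t)‖ * (R * ‖x - y‖) := by
        apply norm_integral_le_of_norm_le (hi.mul_const _)
        refine Filter.Eventually.of_forall fun t => ?_
        rw [← map_sub]
        refine (ContinuousLinearMap.le_opNorm _ _).trans ?_
        apply mul_le_mul_of_nonneg_left _ (norm_nonneg _)
        have := hf.dist_le_mul (x - t) (y - t)
        rw [dist_eq_norm, dist_eq_norm] at this
        have e : x - t - (y - t) = x - y := by abel
        rwa [e] at this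
    _ = (∫ t, ‖L (ρ t)‖) * R * ‖x - y‖ := by
        rw [integral_mul_const]; ring

end MOLL_

open MOLL_ in
open scoped Convolution in
theorem p_MOLL : T_MOLL := by
  intro f hconv R hR ε hε
  have hδ : 0 < ε / (R + 1) := by positivity
  let φ : ContDiffBump (0 : E) := ⟨ε / (R + 1) / 2, ε / (R + 1), by positivity, by linarith⟩
  let ρ : E → ℝ := φ.normed volume
  have hρc : Continuous ρ := φ.continuous_normed
  have hρd : ContDiff ℝ 2 ρ := φ.contDiff_normed
  have hρs : HasCompactSupport ρ := φ.hasCompactSupport_normed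
  have hρ0 : ∀ x, 0 ≤ ρ x := φ.nonneg_normed
  have hρ1 : ∫ x, ρ x = 1 := φ.integral_normed
  let L := ContinuousLinearMap.lsmul ℝ ℝ (E := ℝ)
  let F : E → ℝ := ρ ⋆[L, volume] f
  have hfl : LocallyIntegrable f (volume : Measure E) := hR.continuous.locallyIntegrable
  have hex := hρs.convolutionExists_left L hρc hfl
  have hF2 : ContDiff ℝ 2 F := hρs.contDiff_convolution_left L hρd hfl
  have hLip : ∀ x y, ‖F x - F y‖ ≤ R * ‖x - y‖ := by
    intro x y
    have := conv_lip L ρ hρc hρs f R hR x y
    have e : (∫ t, ‖L (ρ t)‖) = 1 := by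
      rw [← hρ1]
      apply integral_congr_ae
      refine Filter.Eventually.of_forall fun t => ?_
      have : L (ρ t) = ρ t • ContinuousLinearMap.id ℝ ℝ := by
        ext; simp [L]
      simp only [this, norm_smul, ContinuousLinearMap.norm_id, mul_one, Real.norm_eq_abs,
        abs_of_nonneg (hρ0 t)]
    rwa [e, one_mul] at this
  refine ⟨F, hF2, ?_, ?_, ?_, ?_⟩
  · refine ⟨convex_univ, fun x _ y _ a b ha hb hab => ?_⟩
    have hx := hex x
    have hy := hex y
    have hz := hex (a • x + b • y)
    show (ρ ⋆[L, volume] f) (a • x + b • y) ≤ a • (ρ ⋆[L, volume] f) x + b • (ρ ⋆[L, volume] f) y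
    rw [convolution_def, convolution_def, convolution_def, smul_eq_mul, smul_eq_mul,
      ← integral_const_mul, ← integral_const_mul,
      ← integral_add (hx.const_mul a) (hy.const_mul b)]
    apply integral_mono hz ((hx.const_mul a).add (hy.const_mul b))
    intro t
    have h1 := hconv.2 (mem_univ (x - t)) (mem_univ (y - t)) ha hb hab
    have e : a • (x - t) + b • (y - t) = a • x + b • y - t := by
      have : t = (a + b) • t := by rw [hab, one_smul]
      conv_rhs => rw [this]
      rw [smul_sub, smul_sub, add_smul]; abel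
    rw [e] at h1
    simp only [L, ContinuousLinearMap.lsmul_apply, smul_eq_mul] at h1 ⊢
    have := mul_le_mul_of_nonneg_left h1 (hρ0 t)
    show _ ≤ a * (ρ t * f (x - t)) + b * (ρ t * f (y - t))
    linarith
  · intro x
    have h1 : dist (F x) (f x) ≤ ε := by
      apply φ.dist_normed_convolution_le hR.continuous.aestronglyMeasurable
      intro y hy
      have h2 := hR.dist_le_mul y x
      have h3 : dist y x < ε / (R + 1) := hy
      have h4 : (R : ℝ) * dist y x ≤ R * (ε / (R + 1)) :=
        mul_le_mul_of_nonneg_left h3.le R.2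
      have h5 : (R : ℝ) * (ε / (R + 1)) ≤ ε := by
        rw [mul_div_assoc', div_le_iff₀ (by positivity)]
        nlinarith
      linarith
    rwa [Real.dist_eq] at h1
  · intro x
    apply norm_fderiv_le_of_lipschitz ℝ (C := R)
    apply LipschitzWith.of_dist_le_mul
    intro a b
    rw [dist_eq_norm, dist_eq_norm]
    exact hLip a b
  · have hder : fderiv ℝ F = (fderiv ℝ ρ) ⋆[L.precompL E, volume] f := by
      funext x
      exact (hρs.hasFDerivAt_convolution_left L (hρd.of_le (by norm_num)) hfl x).fderiv
    have hρ'c : Continuous (fderiv ℝ ρ) := hρd.continuous_fderiv (by norm_num)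
    have hρ's : HasCompactSupport (fderiv ℝ ρ) := hρs.fderiv ℝ
    have hC0 : 0 ≤ (∫ t, ‖(L.precompL E) (fderiv ℝ ρ t)‖) * R :=
      mul_nonneg (integral_nonneg (fun t => by positivity)) R.2
    refine ⟨(∫ t, ‖(L.precompL E) (fderiv ℝ ρ t)‖) * R, fun x => ?_⟩
    have := norm_fderiv_le_of_lipschitz ℝ (f := fderiv ℝ F) (x₀ := x)
      (C := ⟨(∫ t, ‖(L.precompL E) (fderiv ℝ ρ t)‖) * R, hC0⟩) (by
        apply LipschitzWith.of_dist_le_mul
        intro a b
        rw [dist_eq_norm, dist_eq_norm, hder]
        exact conv_lip (L.precompL E) (fderiv ℝ ρ) hρ'c hρ's f R hR a b)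
    exact this

end Pool.Agent.HD3
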