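import Mathlib
import Pool.Agent.HD3.Spec

/-!
HD3: the mean width bound in John position.
-/

set_option autoImplicit false

namespace Pool.Agent.HD3

open MeasureTheory ProbabilityTheory Set
open scoped InnerProductSpace Pointwise

namespace MW_

instance : IsProbabilityMeasure γ := by unfold γ; infer_instance

lemma measurable_G (S : Set E) : Measurable (G S) := by
  have h1 : Measurable (fun g => fderiv ℝ (h S) g) := measurable_fderiv ℝ (h S)
  exact (InnerProductSpace.toDual ℝ E).symm.continuous.measurable.comp h1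

lemma norm_G_le {S : Set E} {R : NNReal} (hR : LipschitzWith R (h S)) (g : E) :
    ‖G S g‖ ≤ R := by
  unfold G gradient
  rw [LinearIsometryEquiv.norm_map]
  exact norm_fderiv_le_of_lipschitz ℝ hR

/-- facts valid at almost every point -/
lemma ae_G (hB : T_BASIC) (hAC : T_AC) {S : Set E} (hS : IsCompact S) (hne : S.Nonempty) :
    ∀ᵐ y ∂γ, G S y ∈ S ∧ ⟪y, G S y⟫_ℝ = h S y := by
  obtain ⟨-, ⟨R, hR, -⟩, -, -, hex, hdiff, -⟩ := hB S hS hne
  have h1 : ∀ᵐ y ∂(volume : Measure E), DifferentiableAt ℝ (h S) y := hR.ae_differentiableAt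
  filter_upwards [hAC.ae_le h1] with y hy
  obtain ⟨x, hx, hxy⟩ := hex y
  have := hdiff y hy x hx hxy
  rw [← this]
  exact ⟨hx, hxy⟩

lemma integrable_T (hABS : T_ABS) {S : Set E} {R : NNReal} (hR : LipschitzWith R (h S)) (u : E) :
    Integrable (fun y => ⟪y, u⟫_ℝ • G S y) γ := by
  have h1 := (hABS u).1.const_mul (R : ℝ)
  refine h1.mono' ?_ (Filter.Eventually.of_forall fun y => ?_)
  · have h2 : Measurable (fun y : E => ⟪y, u⟫_ℝ) := by fun_prop
    exact (h2.smul (measurable_G S)).aestronglyMeasurable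
  · rw [norm_smul, Real.norm_eq_abs, real_inner_comm, mul_comm]
    exact mul_le_mul_of_nonneg_right (norm_G_le hR y) (abs_nonneg _)

/-- the matrix of second moments of the gradient -/
noncomputable def T (hABS : T_ABS) {S : Set E} {R : NNReal} (hR : LipschitzWith R (h S)) :
    E →ₗ[ℝ] E where
  toFun u := ∫ y, ⟪y, u⟫_ℝ • G S y ∂γ
  map_add' u v := by
    rw [← integral_add (integrable_T hABS hR u) (integrable_T hABS hR v)]
    refine integral_congr_ae (Filter.Eventually.of_forall fun y => ?_)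
    simp only [inner_add_right, add_smul]
  map_smul' c u := by
    rw [RingHom.id_apply, ← integral_smul]
    refine integral_congr_ae (Filter.Eventually.of_forall fun y => ?_)
    simp only [inner_smul_right, smul_smul]

lemma inner_T (hABS : T_ABS) {S : Set E} {R : NNReal} (hR : LipschitzWith R (h S)) (u v : E) :
    ⟪v, T hABS hR u⟫_ℝ = ∫ y, ⟪y, u⟫_ℝ * ⟪v, G S y⟫_ℝ ∂γ := by
  have h1 := integral_inner (𝕜 := ℝ) (integrable_T hABS hR u) v
  change ⟪v, ∫ y, ⟪y, u⟫_ℝ • G S y ∂γ⟫_ℝ = _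
  rw [← h1]
  refine integral_congr_ae (Filter.Eventually.of_forall fun y => ?_)
  simp only [inner_smul_right]

lemma integrable_T' (hABS : T_ABS) {S : Set E} {R : NNReal} (hR : LipschitzWith R (h S))
    (u v : E) : Integrable (fun y => ⟪y, u⟫_ℝ * ⟪v, G S y⟫_ℝ) γ := by
  have h1 := (integrable_T hABS hR u).const_inner (𝕜 := ℝ) v
  refine h1.congr (Filter.Eventually.of_forall fun y => ?_)
  simp only [inner_smul_right]

/-- trace of the matrix -/
lemma trace_T (hB : T_BASIC) (hAC : T_AC) (hABS : T_ABS) {S : Set E} (hS : IsCompact S)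
    (hne : S.Nonempty) {R : NNReal} (hR : LipschitzWith R (h S)) :
    LinearMap.trace ℝ E (T hABS hR) = ∫ y, h S y ∂γ := by
  rw [LinearMap.trace_eq_sum_inner (T hABS hR) (EuclideanSpace.basisFun (Fin 3) ℝ)]
  simp only [inner_T]
  rw [← integral_finsetSum _ fun i _ => integrable_T' hABS hR _ _]
  refine integral_congr_ae ?_
  filter_upwards [ae_G hB hAC hS hne] with y hy
  rw [(EuclideanSpace.basisFun (Fin 3) ℝ).sum_inner_mul_inner y (G S y)]
  exact hy.2

/-- the quadratic form of the matrix at a contact point -/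
lemma quad_T (hB : T_BASIC) (hAC : T_AC) (hABS : T_ABS) {S : Set E} (hS : IsCompact S)
    (hne : S.Nonempty) (hsym : ∀ x ∈ S, -x ∈ S) {R : NNReal} (hR : LipschitzWith R (h S))
    {u : E} (hu : ‖u‖ = 1) (huS : ∀ x ∈ S, ⟪u, x⟫_ℝ ≤ 1) :
    ⟪u, T hABS hR u⟫_ℝ ≤ Real.sqrt (2 / Real.pi) := by
  have h1 : ∫ y, |⟪u, y⟫_ℝ| ∂γ = Real.sqrt (2 / Real.pi) := by
    rw [(hABS u).2, hu, mul_one]
  rw [inner_T, ← h1]
  refine integral_mono_ae (integrable_T' hABS hR u u) (hABS u).1 ?_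
  filter_upwards [ae_G hB hAC hS hne] with y hy
  have h2 : |⟪u, G S y⟫_ℝ| ≤ 1 := by
    rw [abs_le]
    have h3 := huS _ (hsym _ hy.1)
    rw [inner_neg_right] at h3
    exact ⟨by linarith, huS _ hy.1⟩
  calc ⟪y, u⟫_ℝ * ⟪u, G S y⟫_ℝ ≤ |⟪y, u⟫_ℝ * ⟪u, G S y⟫_ℝ| := le_abs_self _
    _ = |⟪u, y⟫_ℝ| * |⟪u, G S y⟫_ℝ| := by rw [abs_mul, real_inner_comm]
    _ ≤ |⟪u, y⟫_ℝ| * 1 := mul_le_mul_of_nonneg_left h2 (abs_nonneg _)
    _ = |⟪u, y⟫_ℝ| := mul_one _

end MW_

open MW_

theorem p_MW (hB : T_BASIC) (hAC : T_AC) (hABS : T_ABS) : T_MW := by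
  intro S hS _ hsym hball hJ
  have hne : S.Nonempty := ⟨0, hball (Metric.mem_closedBall_self zero_le_one)⟩
  obtain ⟨-, ⟨R, hR, -⟩, -⟩ := hB S hS hne
  obtain ⟨u, hu, huS, hH⟩ := hJ (T hABS hR)
  rw [trace_T hB hAC hABS hS hne hR] at hH
  have := quad_T hB hAC hABS hS hne hsym hR hu huS
  linarith

end Pool.Agent.HD3
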