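import Mathlib
import Pool.Agent.HD3.Spec

/-!
HD3: assembly.
-/

namespace Pool.Agent.HD3

open MeasureTheory ProbabilityTheory Set
open scoped InnerProductSpace Pointwise

namespace MAIN_

instance : IsProbabilityMeasure γ := by unfold γ; infer_instance

lemma integrable_lip (f : E → ℝ) (R : NNReal) (hf : LipschitzWith R f) : Integrable f γ := by
  have h1 : Integrable (fun x : E => x) γ := by
    unfold γ; exact IsGaussian.integrable_id
  have h2 : Integrable (fun x : E => (R : ℝ) * ‖x‖ + ‖f 0‖) γ :=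
    (h1.norm.const_mul _).add (integrable_const _)
  refine h2.mono' hf.continuous.aestronglyMeasurable (Filter.Eventually.of_forall fun x => ?_)
  have h3 := hf.dist_le_mul x 0
  rw [dist_eq_norm, dist_eq_norm, sub_zero] at h3
  calc ‖f x‖ = ‖(f x - f 0) + f 0‖ := by ring_nf
    _ ≤ ‖f x - f 0‖ + ‖f 0‖ := norm_add_le _ _
    _ ≤ _ := by linarith

lemma integral_neg_eq (f : E → ℝ) (hf : Continuous f) :
    ∫ x, f (-x) ∂γ = ∫ x, f x ∂γ := by
  have h1 : (γ).map (LinearIsometryEquiv.neg ℝ : E ≃ₗᵢ[ℝ] E) = γ := by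
    unfold γ
    exact stdGaussian_map (LinearIsometryEquiv.neg ℝ : E ≃ₗᵢ[ℝ] E)
  have h2 : ∫ y, f y ∂((γ).map (LinearIsometryEquiv.neg ℝ : E ≃ₗᵢ[ℝ] E)) = ∫ x, f (-x) ∂γ := by
    rw [integral_map]
    · rfl
    · exact (LinearIsometryEquiv.neg ℝ : E ≃ₗᵢ[ℝ] E).continuous.aemeasurable
    · exact hf.aestronglyMeasurable
  rw [← h2, h1]

lemma cov8_of_equiv (A : E ≃L[ℝ] E) (K : Set E) (hK : Cov8 (A '' K)) : Cov8 K := by
  obtain ⟨t, ht⟩ := hK
  refine ⟨fun i => A.symm (t i), ?_⟩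
  intro x hx
  have h1 := ht (mem_image_of_mem A hx)
  rw [mem_iUnion] at h1
  obtain ⟨i, y, hy, hxy⟩ := h1
  rw [mem_iUnion]
  refine ⟨i, A.symm y, ?_, ?_⟩
  · have h2 : interior (A '' K) = A '' interior K := (A.toHomeomorph.image_interior K).symm
    rw [h2] at hy
    obtain ⟨z, hz, rfl⟩ := hy
    simpa using hz
  · have h3 : A.symm (t i + y) = A.symm (A x) := by rw [← hxy]
    simpa using h3

end MAIN_

open MAIN_

theorem p_MAIN (hB : T_BASIC) (hJ : T_JOHN) (hMW : T_MW) (hEQ : T_EQ) (hPick : T_PICK)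
    (hDet : T_DET) (hCov : T_COVER) (hBox : T_BOX) : T_MAIN := by
  intro K hK hc hi
  have hne : K.Nonempty := hi.mono interior_subset
  set S : Set E := K - K with hS
  have hSc : IsCompact S := by
    rw [hS, sub_eq_add_neg]; exact IsCompact.add hK (IsCompact.neg hK)
  have hScv : Convex ℝ S := hc.sub hc
  have hSs : ∀ x ∈ S, -x ∈ S := by
    rintro x ⟨a, ha, b, hb, rfl⟩
    exact ⟨b, hb, a, ha, by simp⟩
  have hSi : (interior S).Nonempty := by
    obtain ⟨x, hx⟩ := hi
    obtain ⟨r, hr, hr2⟩ := Metric.isOpen_iff.1 isOpen_interior x hx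
    refine ⟨0, ?_⟩
    rw [mem_interior]
    refine ⟨Metric.ball 0 r, ?_, Metric.isOpen_ball, Metric.mem_ball_self hr⟩
    intro y hy
    refine ⟨x + y, interior_subset (hr2 ?_), x, interior_subset hx, by simp⟩
    simpa [Metric.mem_ball, dist_eq_norm] using hy
  obtain ⟨A, hA1, hA2⟩ := hJ S hSc hScv hSs hSi
  apply cov8_of_equiv A
  set K' : Set E := A '' K with hK'
  have hSK : A '' S = K' - K' := by
    rw [hS, hK']
    exact image_sub (A : E →+ E)
  rw [hSK] at hA1 hA2
  have hKc : IsCompact K' := hK.image A.continuous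
  have hKcv : Convex ℝ K' := hc.linear_image (A : E →ₗ[ℝ] E)
  have hKn : K'.Nonempty := hne.image _
  have hKi : (interior K').Nonempty := by
    have h2 : interior (A '' K) = A '' interior K := (A.toHomeomorph.image_interior K).symm
    rw [hK', h2]
    exact hi.image _
  have hSc' : IsCompact (K' - K') := by
    rw [sub_eq_add_neg]; exact IsCompact.add hKc (IsCompact.neg hKc)
  have hScv' : Convex ℝ (K' - K') := hKcv.sub hKcv
  have hSs' : ∀ x ∈ K' - K', -x ∈ K' - K' := by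
    rintro x ⟨a, ha, b, hb, rfl⟩
    exact ⟨b, hb, a, ha, by simp⟩
  obtain ⟨-, ⟨R, hR, -⟩, -, -, -, -, hsub⟩ := hB K' hKc hKn
  have hint : ∫ x, h (K' - K') x ∂γ = 2 * ∫ x, h K' x ∂γ := by
    have e1 : (fun x => h (K' - K') x) = fun x => h K' x + h K' (-x) := funext hsub
    rw [e1, integral_add (integrable_lip _ R hR), integral_neg_eq _ hR.continuous]
    · ring
    · refine integrable_lip _ R ?_
      refine LipschitzWith.of_dist_le_mul fun x y => ?_
      have := hR.dist_le_mul (-x) (-y)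
      rwa [dist_neg_neg] at this
  have hmw := hMW (K' - K') hSc' hScv' hSs' hA1 hA2
  have hpi := Real.pi_pos
  have hs : 0 < Real.sqrt (2 / Real.pi) := Real.sqrt_pos.2 (by positivity)
  have hs2 : Real.sqrt (2 / Real.pi) * Real.sqrt (2 / Real.pi) = 2 / Real.pi :=
    Real.mul_self_sqrt (by positivity)
  have hs3 : Real.pi * (Real.sqrt (2 / Real.pi) * Real.sqrt (2 / Real.pi)) = 2 := by
    rw [hs2]; field_simp
  by_cases hlt : 2 * Real.pi * Real.sqrt (2 / Real.pi) * ∫ x, h K' x ∂γ < 6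
  · obtain ⟨p, hp1, hp2, hp3, c, hc0, hc1, hp4⟩ := hPick K' hKc hKcv hKn hlt
    exact hCov K' hKc hKcv hKi p hp1 c hc0 hc1 (hDet K' hKc hKcv hKn hA1 p hp1 hp2 hp3 c hc0 hp4)
  · apply hBox K' hKc hKcv hKi
    apply hEQ (K' - K') hSc' hScv' hSs' hA1 hA2
    apply le_antisymm hmw
    rw [hint]
    push Not at hlt
    set I := ∫ x, h K' x ∂γ
    set s := Real.sqrt (2 / Real.pi)
    have h1 : 3 * (Real.pi * (s * s)) ≤ 2 * Real.pi * s * I := by rw [hs3]; linarith
    have h2 : (Real.pi * s) * (3 * s) ≤ (Real.pi * s) * (2 * I) := by nlinarith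
    exact le_of_mul_le_mul_left h2 (by positivity)

end Pool.Agent.HD3
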