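import Mathlib
import Pool.Agent.HD3.Spec

/-!
HD3: a.e. differentiability along the ellipse (DIFF) and choice of a good pair (PICK).
-/

namespace Pool.Agent.HD3

open MeasureTheory ProbabilityTheory Set
open scoped InnerProductSpace Pointwise

theorem p_DIFF (hAC : T_AC) (hROT : T_ROT) (hB : T_BASIC) : T_DIFF := by
  intro K hK hne t
  obtain ⟨R, hR, -⟩ := (hB K hK hne).2.1
  have h1 : ∀ᵐ x ∂(volume : Measure E), DifferentiableAt ℝ (h K) x := hR.ae_differentiableAt
  have h2 : ∀ᵐ x ∂γ, DifferentiableAt ℝ (h K) x := hAC.ae_le h1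
  have : IsProbabilityMeasure γ := by unfold γ; infer_instance
  have h3 := (hROT t).quasiMeasurePreserving
  have h4 : Measure.QuasiMeasurePreserving Prod.fst (γ.prod γ) γ :=
    Measure.quasiMeasurePreserving_fst
  exact (h4.comp h3).ae h2

namespace PICK_

lemma sum_double (f : ℕ → ℝ) (n : ℕ) :
    ∑ i ∈ Finset.range (2 * n), f i = ∑ i ∈ Finset.range n, (f (2 * i) + f (2 * i + 1)) := by
  induction n with
  | zero => simp
  | succ n ih =>
    rw [show 2 * (n + 1) = 2 * n + 1 + 1 by ring, Finset.sum_range_succ, Finset.sum_range_succ,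
      Finset.sum_range_succ, ih]
    ring

lemma plen_mono_step (K : Set E) (k : ℕ) (p : E × E) : plen K k p ≤ plen K (k + 1) p := by
  unfold plen
  rw [show (2 : ℕ) ^ (k + 1) = 2 * 2 ^ k by ring, sum_double]
  apply Finset.sum_le_sum
  intro i _
  have e1 : (2 * Real.pi * ((i : ℝ) + 1) / 2 ^ k)
      = 2 * Real.pi * (((2 * i + 1 : ℕ) : ℝ) + 1) / 2 ^ (k + 1) := by
    push_cast
    field_simp
    ring
  have e2 : (2 * Real.pi * (i : ℝ) / 2 ^ k)
      = 2 * Real.pi * ((2 * i : ℕ) : ℝ) / 2 ^ (k + 1) := by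
    push_cast
    field_simp
    ring
  have e3 : (2 * Real.pi * (((2 * i : ℕ) : ℝ) + 1) / 2 ^ (k + 1))
      = 2 * Real.pi * ((2 * i + 1 : ℕ) : ℝ) / 2 ^ (k + 1) := by
    push_cast
    ring
  rw [e1, e2, e3]
  calc _ ≤ ‖G K (circ (2 * Real.pi * (((2 * i + 1 : ℕ) : ℝ) + 1) / 2 ^ (k + 1)) p) -
        G K (circ (2 * Real.pi * ((2 * i + 1 : ℕ) : ℝ) / 2 ^ (k + 1)) p)‖ +
      ‖G K (circ (2 * Real.pi * ((2 * i + 1 : ℕ) : ℝ) / 2 ^ (k + 1)) p) -
        G K (circ (2 * Real.pi * ((2 * i : ℕ) : ℝ) / 2 ^ (k + 1)) p)‖ := norm_sub_le_norm_sub_add_norm_sub _ _ _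
    _ = _ := by ring

lemma plen_mono (K : Set E) (p : E × E) : Monotone (fun k => plen K k p) :=
  monotone_nat_of_le_succ (fun k => plen_mono_step K k p)

lemma plen_nonneg (K : Set E) (k : ℕ) (p : E × E) : 0 ≤ plen K k p :=
  Finset.sum_nonneg (fun _ _ => norm_nonneg _)

end PICK_

open PICK_ in
theorem p_PICK (hRIM : T_RIM) (hGEN : T_GEN) (hLI : T_LI) (hDIFF : T_DIFF) : T_PICK := by
  intro K hK hKc hne hlt
  have : IsProbabilityMeasure γ := by unfold γ; infer_instance
  set L : ℝ := 2 * Real.pi * Real.sqrt (2 / Real.pi) * ∫ x, h K x ∂γ with hL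
  set μ : Measure (E × E) := γ.prod γ with hμ
  have : IsProbabilityMeasure μ := by rw [hμ]; infer_instance
  have hL0 : 0 ≤ L := by
    have := (hRIM K hK hKc hne 0).2
    refine le_trans ?_ this
    exact integral_nonneg (fun p => plen_nonneg K 0 p)
  set c : ℝ := (L / 6 + 1) / 2 with hc
  have hc0 : 0 < c := by rw [hc]; positivity
  have hc1 : c < 1 := by rw [hc]; linarith
  have hcL : L < 6 * c := by rw [hc]; linarith
  have hbound : ∀ k, μ {p | 6 * c < plen K k p} ≤ ENNReal.ofReal (L / (6 * c)) := by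
    intro k
    have h1 := mul_meas_ge_le_integral_of_nonneg (μ := μ) (f := plen K k)
      (ae_of_all _ (fun p => plen_nonneg K k p)) (hRIM K hK hKc hne k).1 (6 * c)
    have h2 : μ.real {p | 6 * c ≤ plen K k p} ≤ L / (6 * c) := by
      rw [le_div_iff₀ (by positivity)]
      calc μ.real {p | 6 * c ≤ plen K k p} * (6 * c)
          = 6 * c * μ.real {p | 6 * c ≤ plen K k p} := by ring
        _ ≤ _ := h1
        _ ≤ L := (hRIM K hK hKc hne k).2
    have hsub : {p : E × E | 6 * c < plen K k p} ⊆ {p | 6 * c ≤ plen K k p} := by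
      intro p hp
      have hp' : 6 * c < plen K k p := hp
      exact hp'.le
    have h3 : μ.real {p | 6 * c < plen K k p} ≤ L / (6 * c) :=
      le_trans (measureReal_mono hsub) h2
    rw [ENNReal.le_ofReal_iff_toReal_le (measure_ne_top _ _) (by positivity)]
    exact h3
  have hU : μ (⋃ k, {p | 6 * c < plen K k p}) ≤ ENNReal.ofReal (L / (6 * c)) := by
    have hm : Monotone (fun k => {p : E × E | 6 * c < plen K k p}) := by
      intro a b hab p hp
      exact lt_of_lt_of_le hp (plen_mono K p hab)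
    rw [hm.measure_iUnion]
    exact iSup_le hbound
  have hU1 : μ (⋃ k, {p | 6 * c < plen K k p}) < 1 := by
    refine lt_of_le_of_lt hU ?_
    rw [ENNReal.ofReal_lt_one, div_lt_one (by positivity)]
    exact hcL
  have hae : ∀ᵐ p ∂μ, LinearIndependent ℝ ![p.1, p.2] ∧ Generic K p ∧
      (∀ (k i : ℕ), DifferentiableAt ℝ (h K) (circ (2 * Real.pi * (i : ℝ) / 2 ^ k) p)) := by
    have hd : ∀ᵐ p ∂μ, ∀ (k i : ℕ),
        DifferentiableAt ℝ (h K) (circ (2 * Real.pi * (i : ℝ) / 2 ^ k) p) := by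
      rw [ae_all_iff]
      intro k
      rw [ae_all_iff]
      intro i
      exact hDIFF K hK hne _
    filter_upwards [hLI, hGEN K hK hKc hne, hd] with p h1 h2 h3
    exact ⟨h1, h2, h3⟩
  by_contra hcon
  push Not at hcon
  have hfull : ∀ᵐ p ∂μ, p ∈ ⋃ k, {p | 6 * c < plen K k p} := by
    filter_upwards [hae] with p hp
    obtain ⟨k, hk⟩ := hcon p hp.1 hp.2.1 hp.2.2 c hc0 hc1
    exact mem_iUnion.2 ⟨k, hk⟩
  have hone : μ (⋃ k, {p | 6 * c < plen K k p}) = 1 := by
    have h1 : (1 : ENNReal) ≤ μ (⋃ k, {p | 6 * c < plen K k p}) := by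
      rw [← measure_univ (μ := μ)]
      apply measure_mono_ae
      filter_upwards [hfull] with p hp _
      exact hp
    exact le_antisymm prob_le_one h1
  exact absurd hone (ne_of_lt hU1)

end Pool.Agent.HD3
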