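import Mathlib
import Pool.Agent.HD3.Spec

/-! PLANE: differences of points of two planar convex sets with a common outer normal. -/

namespace Pool.Agent.HD3

open MeasureTheory Set
open scoped Pointwise

namespace PLANE_

/-- `a` maximises the functional `(1, s)` on `A`. -/
def F (A : Set (ℝ × ℝ)) (s : ℝ) : Set (ℝ × ℝ) :=
  {a | a ∈ A ∧ ∀ x ∈ A, x.1 + s * x.2 ≤ a.1 + s * a.2}

theorem range_null {T : Type} (z d : T → ℝ × ℝ) (hz : volume (range z) = 0)
    (h : ∀ t t', dist (d t) (d t') ≤ 2 * dist (z t) (z t')) : volume (range d) = 0 := by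
  classical
  let g : ℝ × ℝ → ℝ × ℝ := fun x => if hx : ∃ t, z t = x then d hx.choose else 0
  have hg : ∀ t, g (z t) = d t := by
    intro t
    have hx : ∃ t', z t' = z t := ⟨t, rfl⟩
    have h1 : g (z t) = d hx.choose := dif_pos hx
    rw [h1]
    have h2 := h hx.choose t
    rw [hx.choose_spec, dist_self, mul_zero] at h2
    exact dist_le_zero.1 h2
  have hlip : LipschitzOnWith 2 g (range z) := by
    refine LipschitzOnWith.of_dist_le_mul ?_
    rintro _ ⟨t, rfl⟩ _ ⟨t', rfl⟩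
    rw [hg, hg]
    simpa using h t t'
  have himg : range d = g '' range z := by
    ext y
    constructor
    · rintro ⟨t, rfl⟩
      exact ⟨z t, ⟨t, rfl⟩, hg t⟩
    · rintro ⟨_, ⟨t, rfl⟩, rfl⟩
      exact ⟨t, (hg t).symm⟩
  rw [himg]
  have h1 := hlip.hausdorffMeasure_image_le (d := 2) (by norm_num)
  rw [hausdorffMeasure_prod_real, hz, mul_zero] at h1
  exact le_antisymm h1 bot_le

theorem dot_nonneg {s s1 : ℝ} (hs : s ∈ Icc (-1 : ℝ) 1) (hs1 : s1 ∈ Icc (-1 : ℝ) 1)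
    (hlt : s1 < s) {u v u' v' : ℝ} (h1 : 0 ≤ u + s * v) (h2 : u + s1 * v ≤ 0)
    (h3 : 0 ≤ u' + s * v') (h4 : u' + s1 * v' ≤ 0) : 0 ≤ u * u' + v * v' := by
  have hv : 0 ≤ v := by
    by_contra hc
    push Not at hc
    nlinarith
  have hv' : 0 ≤ v' := by
    by_contra hc
    push Not at hc
    nlinarith
  have e1 : -v ≤ u := by nlinarith [hs.2]
  have e2 : u ≤ v := by nlinarith [hs1.1]
  have e3 : -v' ≤ u' := by nlinarith [hs.2]
  have e4 : u' ≤ v' := by nlinarith [hs1.1]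
  rcases le_total 0 u with hu | hu
  · nlinarith [mul_nonneg hu (by linarith : 0 ≤ u' + v'), mul_nonneg hv' (by linarith : 0 ≤ v - u)]
  · nlinarith [mul_nonneg (by linarith : 0 ≤ -u) (by linarith : 0 ≤ v' - u'),
      mul_nonneg hv' (by linarith : 0 ≤ v + u)]

theorem key {A B : Set (ℝ × ℝ)} {s s1 : ℝ} (hs : s ∈ Icc (-1 : ℝ) 1) (hs1 : s1 ∈ Icc (-1 : ℝ) 1)
    {a b a1 b1 : ℝ × ℝ} (ha : a ∈ F A s) (hb : b ∈ F B s) (ha1 : a1 ∈ F A s1) (hb1 : b1 ∈ F B s1)
    (hsub : (F A s).Subsingleton ∨ (F B s).Subsingleton) :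
    0 ≤ (a.1 - a1.1) * (b.1 - b1.1) + (a.2 - a1.2) * (b.2 - b1.2) := by
  have h1 := ha.2 a1 ha1.1
  have h2 := ha1.2 a ha.1
  have h3 := hb.2 b1 hb1.1
  have h4 := hb1.2 b hb.1
  rcases lt_trichotomy s1 s with h | h | h
  · exact dot_nonneg hs hs1 h (by linarith) (by linarith) (by linarith) (by linarith)
  · subst h
    rcases hsub with h | h
    · rw [h ha ha1]; simp
    · rw [h hb hb1]; simp
  · have := dot_nonneg (u := a1.1 - a.1) (v := a1.2 - a.2) (u' := b1.1 - b.1)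
      (v' := b1.2 - b.2) hs1 hs h (by linarith) (by linarith) (by linarith) (by linarith)
    nlinarith

theorem dist_key {a b a1 b1 : ℝ × ℝ}
    (h : 0 ≤ (a.1 - a1.1) * (b.1 - b1.1) + (a.2 - a1.2) * (b.2 - b1.2)) :
    dist (b - a) (b1 - a1) ≤ 2 * dist (a + b) (a1 + b1) := by
  have hR : 0 ≤ dist (a + b) (a1 + b1) := dist_nonneg
  have hx : |(a + b).1 - (a1 + b1).1| ≤ dist (a + b) (a1 + b1) := by
    rw [Prod.dist_eq, Real.dist_eq]; exact le_max_left _ _
  have hy : |(a + b).2 - (a1 + b1).2| ≤ dist (a + b) (a1 + b1) := by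
    rw [Prod.dist_eq, Real.dist_eq, Real.dist_eq]; exact le_max_right _ _
  simp only [Prod.fst_add, Prod.snd_add] at hx hy
  set R := dist (a + b) (a1 + b1) with hRdef
  have hx2 : (a.1 + b.1 - (a1.1 + b1.1)) ^ 2 ≤ R ^ 2 := by
    rw [← sq_abs]; exact pow_le_pow_left₀ (abs_nonneg _) hx 2
  have hy2 : (a.2 + b.2 - (a1.2 + b1.2)) ^ 2 ≤ R ^ 2 := by
    rw [← sq_abs]; exact pow_le_pow_left₀ (abs_nonneg _) hy 2
  rw [Prod.dist_eq, Real.dist_eq, Real.dist_eq]
  simp only [Prod.fst_sub, Prod.snd_sub]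
  refine max_le ?_ ?_
  · refine abs_le_of_sq_le_sq (a := b.1 - a.1 - (b1.1 - a1.1)) (b := 2 * R) ?_ (by linarith)
    nlinarith [sq_nonneg (b.2 - a.2 - (b1.2 - a1.2))]
  · refine abs_le_of_sq_le_sq (a := b.2 - a.2 - (b1.2 - a1.2)) (b := 2 * R) ?_ (by linarith)
    nlinarith [sq_nonneg (b.1 - a.1 - (b1.1 - a1.1))]

theorem mem_frontier {A B : Set (ℝ × ℝ)} {s : ℝ} {a b : ℝ × ℝ} (ha : a ∈ F A s) (hb : b ∈ F B s) :
    a + b ∈ frontier (A + B) := by
  have hmem : a + b ∈ A + B := Set.add_mem_add ha.1 hb.1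
  refine ⟨subset_closure hmem, fun hint => ?_⟩
  rw [mem_interior_iff_mem_nhds, Metric.mem_nhds_iff] at hint
  obtain ⟨ε, hε, hball⟩ := hint
  have h1 : a + b + (ε / 2, 0) ∈ Metric.ball (a + b) ε := by
    rw [Metric.mem_ball, dist_eq_norm, add_sub_cancel_left, Prod.norm_def]
    simp only [norm_zero, Real.norm_eq_abs]
    rw [abs_of_pos (by linarith), max_eq_left (by linarith)]
    linarith
  obtain ⟨x, hx, y, hy, hxy⟩ := hball h1
  have h2 := ha.2 x hx
  have h3 := hb.2 y hy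
  have e1 := congrArg Prod.fst hxy
  have e2 := congrArg Prod.snd hxy
  simp only [Prod.fst_add, Prod.snd_add, add_zero] at e1 e2
  have e3 : s * x.2 + s * y.2 = s * a.2 + s * b.2 := by rw [← mul_add, ← mul_add, e2]
  linarith

/-- the differences with one degenerate face -/
theorem D1_null {A B : Set (ℝ × ℝ)} (hA : Convex ℝ A) (hB : Convex ℝ B) :
    volume {d : ℝ × ℝ | ∃ s ∈ Icc (-1 : ℝ) 1, ((F A s).Subsingleton ∨ (F B s).Subsingleton) ∧
      ∃ a ∈ F A s, ∃ b ∈ F B s, d = b - a} = 0 := by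
  let T : Type := {t : ℝ × (ℝ × ℝ) × (ℝ × ℝ) // t.1 ∈ Icc (-1 : ℝ) 1 ∧
    ((F A t.1).Subsingleton ∨ (F B t.1).Subsingleton) ∧ t.2.1 ∈ F A t.1 ∧ t.2.2 ∈ F B t.1}
  have h1 : volume (range fun t : T => t.1.2.2 - t.1.2.1) = 0 := by
    refine range_null (fun t : T => t.1.2.1 + t.1.2.2) _ ?_ ?_
    · refine measure_mono_null ?_ ((hA.add hB).addHaar_frontier volume)
      rintro _ ⟨t, rfl⟩
      exact mem_frontier t.2.2.2.1 t.2.2.2.2
    · intro t t'
      exact dist_key (key t.2.1 t'.2.1 t.2.2.2.1 t.2.2.2.2 t'.2.2.2.1 t'.2.2.2.2 t.2.2.1)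
  refine measure_mono_null ?_ h1
  rintro d ⟨s, hs, hsub, a, ha, b, hb, rfl⟩
  exact ⟨⟨(s, a, b), hs, hsub, ha, hb⟩, rfl⟩

theorem line_null (s c : ℝ) : volume {d : ℝ × ℝ | d.1 + s * d.2 = c} = 0 := by
  let f : ℝ × ℝ →ₗ[ℝ] ℝ := LinearMap.fst ℝ ℝ ℝ + s • LinearMap.snd ℝ ℝ ℝ
  have hf : ∀ d : ℝ × ℝ, f d = d.1 + s * d.2 := fun d => by simp [f]
  have hker : LinearMap.ker f ≠ ⊤ := by
    intro h
    have : ((1, 0) : ℝ × ℝ) ∈ LinearMap.ker f := by rw [h]; trivial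
    rw [LinearMap.mem_ker, hf] at this
    simp at this
  have h1 : volume ((LinearMap.ker f : Submodule ℝ (ℝ × ℝ)) : Set (ℝ × ℝ)) = 0 :=
    Measure.addHaar_submodule _ _ hker
  have h2 : {d : ℝ × ℝ | d.1 + s * d.2 = c} =
      (fun d => d + (-c, 0)) ⁻¹' ((LinearMap.ker f : Submodule ℝ (ℝ × ℝ)) : Set (ℝ × ℝ)) := by
    ext d
    simp only [mem_setOf_eq, mem_preimage, SetLike.mem_coe, LinearMap.mem_ker, hf, Prod.fst_add,
      Prod.snd_add, add_zero]
    constructor <;> intro h <;> linarith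
  rw [h2, measure_preimage_add_right, h1]

theorem D2q_null (A B : Set (ℝ × ℝ)) (q : ℝ) :
    volume {d : ℝ × ℝ | ∃ s : ℝ, (∃ a1 ∈ F A s, ∃ a2 ∈ F A s, a1.2 < q ∧ q < a2.2) ∧
      ∃ a ∈ F A s, ∃ b ∈ F B s, d = b - a} = 0 := by
  set D := {d : ℝ × ℝ | ∃ s : ℝ, (∃ a1 ∈ F A s, ∃ a2 ∈ F A s, a1.2 < q ∧ q < a2.2) ∧
      ∃ a ∈ F A s, ∃ b ∈ F B s, d = b - a} with hD
  rcases D.eq_empty_or_nonempty with h | ⟨d0, s0, ⟨x1, hx1, x2, hx2, hq1, hq2⟩, a0, ha0, b0, hb0, hd0⟩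
  · rw [h]; simp
  · refine measure_mono_null ?_ (line_null s0 ((b0.1 + s0 * b0.2) - (a0.1 + s0 * a0.2)))
    rintro d ⟨s, ⟨y1, hy1, y2, hy2, hp1, hp2⟩, a, ha, b, hb, rfl⟩
    have hss : s = s0 := by
      rcases lt_trichotomy s s0 with h | h | h
      · exfalso
        have e1 := hy2.2 x1 hx1.1
        have e2 := hx1.2 y2 hy2.1
        nlinarith
      · exact h
      · exfalso
        have e1 := hx2.2 y1 hy1.1
        have e2 := hy1.2 x2 hx2.1
        nlinarith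
    subst hss
    have e1 := ha.2 a0 ha0.1
    have e2 := ha0.2 a ha.1
    have e3 := hb.2 b0 hb0.1
    have e4 := hb0.2 b hb.1
    simp only [mem_setOf_eq, Prod.fst_sub, Prod.snd_sub]
    linarith

theorem quad_null {A B : Set (ℝ × ℝ)} (hA : Convex ℝ A) (hB : Convex ℝ B) :
    volume {d : ℝ × ℝ | ∃ s ∈ Icc (-1 : ℝ) 1, ∃ a ∈ F A s, ∃ b ∈ F B s, d = b - a} = 0 := by
  have h2 : volume (⋃ q : ℚ, {d : ℝ × ℝ | ∃ s : ℝ,
      (∃ a1 ∈ F A s, ∃ a2 ∈ F A s, a1.2 < (q : ℝ) ∧ (q : ℝ) < a2.2) ∧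
      ∃ a ∈ F A s, ∃ b ∈ F B s, d = b - a}) = 0 :=
    measure_iUnion_null fun q => D2q_null A B q
  refine measure_mono_null ?_ (measure_union_null (D1_null hA hB) h2)
  rintro d ⟨s, hs, a, ha, b, hb, rfl⟩
  by_cases hsub : (F A s).Subsingleton
  · exact Or.inl ⟨s, hs, Or.inl hsub, a, ha, b, hb, rfl⟩
  · right
    rw [Set.not_subsingleton_iff] at hsub
    obtain ⟨x, hx, y, hy, hne⟩ := hsub
    have e1 := hx.2 y hy.1
    have e2 := hy.2 x hx.1
    have hne2 : x.2 ≠ y.2 := by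
      intro h
      refine hne (Prod.ext ?_ h)
      rw [h] at e1 e2
      linarith
    rw [mem_iUnion]
    rcases lt_or_gt_of_ne hne2 with h | h
    · obtain ⟨q, hq1, hq2⟩ := exists_rat_btwn h
      exact ⟨q, s, ⟨x, hx, y, hy, hq1, hq2⟩, a, ha, b, hb, rfl⟩
    · obtain ⟨q, hq1, hq2⟩ := exists_rat_btwn h
      exact ⟨q, s, ⟨y, hy, x, hx, hq1, hq2⟩, a, ha, b, hb, rfl⟩

/-- the set for a given pair -/
def Q (A B : Set (ℝ × ℝ)) : Set (ℝ × ℝ) :=
  {d : ℝ × ℝ | ∃ s ∈ Icc (-1 : ℝ) 1, ∃ a ∈ F A s, ∃ b ∈ F B s, d = b - a}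

theorem convex_swap {A : Set (ℝ × ℝ)} (hA : Convex ℝ A) : Convex ℝ (Prod.swap ⁻¹' A) := by
  intro x hx y hy a b ha hb hab
  have := hA hx hy ha hb hab
  simpa [mem_preimage, Prod.swap] using this

theorem swap_null {S : Set (ℝ × ℝ)} (h : volume S = 0) : volume (Prod.swap ⁻¹' S) = 0 := by
  have h1 : MeasurePreserving (Prod.swap : ℝ × ℝ → ℝ × ℝ) volume volume :=
    Measure.measurePreserving_swap
  exact h1.quasiMeasurePreserving.preimage_null h

theorem neg_null {S : Set (ℝ × ℝ)} (h : volume S = 0) : volume ((fun x => -x) ⁻¹' S) = 0 := by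
  have h1 : MeasurePreserving (fun x : ℝ × ℝ => -x) volume volume :=
    Measure.measurePreserving_neg volume
  exact h1.quasiMeasurePreserving.preimage_null h

end PLANE_

open PLANE_ in
theorem p_PLANE : T_PLANE := by
  intro A B _ hA _ hB
  have hA1 : Convex ℝ ((fun x => -x) ⁻¹' A) := by simpa using hA.neg
  have hB1 : Convex ℝ ((fun x => -x) ⁻¹' B) := by simpa using hB.neg
  have hA2 := convex_swap hA
  have hB2 := convex_swap hB
  have hA3 := convex_swap hA1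
  have hB3 := convex_swap hB1
  have n0 : volume (Q A B) = 0 := quad_null hA hB
  have n1 : volume ((fun x => -x) ⁻¹' Q ((fun x => -x) ⁻¹' A) ((fun x => -x) ⁻¹' B)) = 0 :=
    neg_null (quad_null hA1 hB1)
  have n2 : volume (Prod.swap ⁻¹' Q (Prod.swap ⁻¹' A) (Prod.swap ⁻¹' B)) = 0 :=
    swap_null (quad_null hA2 hB2)
  have n3 : volume ((fun x => -x) ⁻¹' (Prod.swap ⁻¹' Q (Prod.swap ⁻¹' ((fun x => -x) ⁻¹' A))
      (Prod.swap ⁻¹' ((fun x => -x) ⁻¹' B)))) = 0 :=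
    neg_null (swap_null (quad_null hA3 hB3))
  refine measure_mono_null ?_ (measure_union_null (measure_union_null n0 n1)
    (measure_union_null n2 n3))
  rintro d ⟨n, hn, a, ha, b, hb, hna, hnb, rfl⟩
  rcases le_total |n.2| |n.1| with hle | hle
  · have hn1 : n.1 ≠ 0 := by
      intro h0
      rw [h0, abs_zero] at hle
      exact hn (Prod.ext h0 (abs_nonpos_iff.1 hle))
    left
    rcases lt_or_gt_of_ne hn1 with hneg | hpos
    · right
      -- normal `(-1, s)`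
      refine ⟨n.2 / n.1, ?_, -a, ⟨by simpa using ha, ?_⟩, -b, ⟨by simpa using hb, ?_⟩, by
        simp [sub_eq_add_neg, add_comm]⟩
      · rw [mem_Icc, ← abs_le, abs_div]
        exact div_le_one_of_le₀ hle (abs_nonneg _)
      · intro x hx
        have := hna (-x) hx
        simp only [Prod.fst_neg, Prod.snd_neg] at this ⊢
        have h2 : n.1 * (x.1 + n.2 / n.1 * x.2) = n.1 * x.1 + n.2 * x.2 := by field_simp
        have h3 : n.1 * (-a.1 + n.2 / n.1 * -a.2) = -(n.1 * a.1 + n.2 * a.2) := by field_simp; ring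
        nlinarith
      · intro x hx
        have := hnb (-x) hx
        simp only [Prod.fst_neg, Prod.snd_neg] at this ⊢
        have h2 : n.1 * (x.1 + n.2 / n.1 * x.2) = n.1 * x.1 + n.2 * x.2 := by field_simp
        have h3 : n.1 * (-b.1 + n.2 / n.1 * -b.2) = -(n.1 * b.1 + n.2 * b.2) := by field_simp; ring
        nlinarith
    · left
      refine ⟨n.2 / n.1, ?_, a, ⟨ha, ?_⟩, b, ⟨hb, ?_⟩, rfl⟩
      · rw [mem_Icc, ← abs_le, abs_div]
        exact div_le_one_of_le₀ hle (abs_nonneg _)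
      · intro x hx
        have := hna x hx
        have h2 : n.1 * (x.1 + n.2 / n.1 * x.2) = n.1 * x.1 + n.2 * x.2 := by field_simp
        have h3 : n.1 * (a.1 + n.2 / n.1 * a.2) = n.1 * a.1 + n.2 * a.2 := by field_simp
        nlinarith
      · intro x hx
        have := hnb x hx
        have h2 : n.1 * (x.1 + n.2 / n.1 * x.2) = n.1 * x.1 + n.2 * x.2 := by field_simp
        have h3 : n.1 * (b.1 + n.2 / n.1 * b.2) = n.1 * b.1 + n.2 * b.2 := by field_simp
        nlinarith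
  · have hn1 : n.2 ≠ 0 := by
      intro h0
      rw [h0, abs_zero] at hle
      exact hn (Prod.ext (abs_nonpos_iff.1 hle) h0)
    right
    rcases lt_or_gt_of_ne hn1 with hneg | hpos
    · right
      refine ⟨n.1 / n.2, ?_, (-a).swap, ⟨by simpa using ha, ?_⟩, (-b).swap,
        ⟨by simpa using hb, ?_⟩, by
        simp [sub_eq_add_neg, add_comm, Prod.ext_iff]⟩
      · rw [mem_Icc, ← abs_le, abs_div]
        exact div_le_one_of_le₀ hle (abs_nonneg _)
      · intro x hx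
        have := hna (-x.swap) hx
        simp only [Prod.fst_neg, Prod.snd_neg, Prod.fst_swap, Prod.snd_swap] at this ⊢
        have h2 : n.2 * (x.1 + n.1 / n.2 * x.2) = n.2 * x.1 + n.1 * x.2 := by field_simp
        have h3 : n.2 * (-a.2 + n.1 / n.2 * -a.1) = -(n.1 * a.1 + n.2 * a.2) := by field_simp; ring
        nlinarith
      · intro x hx
        have := hnb (-x.swap) hx
        simp only [Prod.fst_neg, Prod.snd_neg, Prod.fst_swap, Prod.snd_swap] at this ⊢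
        have h2 : n.2 * (x.1 + n.1 / n.2 * x.2) = n.2 * x.1 + n.1 * x.2 := by field_simp
        have h3 : n.2 * (-b.2 + n.1 / n.2 * -b.1) = -(n.1 * b.1 + n.2 * b.2) := by field_simp; ring
        nlinarith
    · left
      refine ⟨n.1 / n.2, ?_, a.swap, ⟨by simpa using ha, ?_⟩, b.swap, ⟨by simpa using hb, ?_⟩, by
        simp [Prod.ext_iff]⟩
      · rw [mem_Icc, ← abs_le, abs_div]
        exact div_le_one_of_le₀ hle (abs_nonneg _)
      · intro x hx
        have := hna x.swap hx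
        simp only [Prod.fst_swap, Prod.snd_swap] at this ⊢
        have h2 : n.2 * (x.1 + n.1 / n.2 * x.2) = n.2 * x.1 + n.1 * x.2 := by field_simp
        have h3 : n.2 * (a.2 + n.1 / n.2 * a.1) = n.1 * a.1 + n.2 * a.2 := by field_simp; ring
        nlinarith
      · intro x hx
        have := hnb x.swap hx
        simp only [Prod.fst_swap, Prod.snd_swap] at this ⊢
        have h2 : n.2 * (x.1 + n.1 / n.2 * x.2) = n.2 * x.1 + n.1 * x.2 := by field_simp
        have h3 : n.2 * (b.2 + n.1 / n.2 * b.1) = n.1 * b.1 + n.2 * b.2 := by field_simp; ring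
        nlinarith

end Pool.Agent.HD3
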