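import Mathlib
import Pool.Agent.HD3.Spec

/-!
HD3: POLY. Constant speed parametrisation of a polygon.
-/

namespace Pool.Agent.HD3

open MeasureTheory ProbabilityTheory Set
open scoped InnerProductSpace Pointwise

namespace POLY_

lemma min_max_add (s t L : ℝ) :
    |min s L - min t L| + |max (s - L) 0 - max (t - L) 0| = |s - t| := by
  wlog hst : s ≤ t with H
  · have := H t s L (le_of_not_ge hst)
    rw [abs_sub_comm (min s L), abs_sub_comm (max (s - L) 0), abs_sub_comm s t]
    exact this
  have h1 : min s L ≤ min t L := min_le_min_right _ hst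
  have h2 : max (s - L) 0 ≤ max (t - L) 0 := max_le_max_right _ (by linarith)
  rw [abs_of_nonpos (by linarith), abs_of_nonpos (by linarith), abs_of_nonpos (by linarith)]
  have e : ∀ x : ℝ, min x L + max (x - L) 0 = x := by
    intro x
    rcases le_total x L with h | h
    · rw [min_eq_left h, max_eq_right (by linarith)]; ring
    · rw [min_eq_right h, max_eq_left (by linarith)]; ring
  have := e s
  have := e t
  linarith

lemma step (q : ℕ → E) (m : ℕ) :
    ∃ F : ℝ → E, (∀ s t : ℝ, ‖F s - F t‖ ≤ |s - t|) ∧
      (∀ K : Set E, Convex ℝ K → (∀ i ≤ m, q i ∈ K) → ∀ s, F s ∈ K) ∧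
      (∀ i < m, ∀ y ∈ segment ℝ (q i) (q (i + 1)),
        ∃ s ∈ Icc (0 : ℝ) (∑ i ∈ Finset.range m, ‖q (i + 1) - q i‖), F s = y) ∧
      F (∑ i ∈ Finset.range m, ‖q (i + 1) - q i‖) = q m := by
  induction m with
  | zero =>
    refine ⟨fun _ => q 0, ?_, ?_, ?_, ?_⟩
    · intro s t; simp
    · intro K _ h s; exact h 0 le_rfl
    · intro i hi; omega
    · simp
  | succ m ih =>
    obtain ⟨F, h1, h2, h3, h4⟩ := ih
    set S : ℝ := ∑ i ∈ Finset.range m, ‖q (i + 1) - q i‖ with hS
    set d : ℝ := ‖q (m + 1) - q m‖ with hd
    set e : E := d⁻¹ • (q (m + 1) - q m) with he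
    have hS0 : 0 ≤ S := Finset.sum_nonneg fun i _ => norm_nonneg _
    have hd0 : 0 ≤ d := norm_nonneg _
    have hde : d • e = q (m + 1) - q m := by
      by_cases h : d = 0
      · have : q (m + 1) - q m = 0 := norm_eq_zero.1 h
        rw [h, this, zero_smul]
      · rw [he, smul_smul, mul_inv_cancel₀ h, one_smul]
    have he1 : ‖e‖ ≤ 1 := by
      rw [he, norm_smul, norm_inv, Real.norm_eq_abs, abs_of_nonneg hd0, ← hd]
      by_cases h : d = 0
      · rw [h]; simp
      · rw [inv_mul_cancel₀ h]
    have hsum : ∑ i ∈ Finset.range (m + 1), ‖q (i + 1) - q i‖ = S + d := by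
      rw [Finset.sum_range_succ]
    rw [hsum]
    have he0 : e = d⁻¹ • (q (m + 1) - q m) := he
    clear_value e
    clear_value S
    clear_value d
    refine ⟨fun s => F (min s S) + (min (max (s - S) 0) d) • e, ?_, ?_, ?_, ?_⟩
    · intro s t
      have e1 : F (min s S) + (min (max (s - S) 0) d) • e -
          (F (min t S) + (min (max (t - S) 0) d) • e) =
          (F (min s S) - F (min t S)) +
            (min (max (s - S) 0) d - min (max (t - S) 0) d) • e := by
        rw [sub_smul]; abel
      show ‖F (min s S) + (min (max (s - S) 0) d) • e -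
          (F (min t S) + (min (max (t - S) 0) d) • e)‖ ≤ _
      rw [e1]
      calc _ ≤ ‖F (min s S) - F (min t S)‖ +
            ‖(min (max (s - S) 0) d - min (max (t - S) 0) d) • e‖ := norm_add_le _ _
        _ ≤ |min s S - min t S| + |max (s - S) 0 - max (t - S) 0| := by
            apply add_le_add (h1 _ _)
            rw [norm_smul, Real.norm_eq_abs]
            calc _ ≤ |min (max (s - S) 0) d - min (max (t - S) 0) d| * 1 :=
                  mul_le_mul_of_nonneg_left he1 (abs_nonneg _)
              _ = |min (max (s - S) 0) d - min (max (t - S) 0) d| := mul_one _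
              _ ≤ max |max (s - S) 0 - max (t - S) 0| |d - d| := abs_min_sub_min_le_max _ _ _ _
              _ = _ := by rw [sub_self, abs_zero]; exact max_eq_left (abs_nonneg _)
        _ = |s - t| := min_max_add s t S
    · intro K hK hq s
      show F (min s S) + (min (max (s - S) 0) d) • e ∈ K
      rcases le_total s S with h | h
      · rw [min_eq_left h, max_eq_right (by linarith : s - S ≤ 0), min_eq_left hd0, zero_smul,
          add_zero]
        exact h2 K hK (fun i hi => hq i (by omega)) s
      · rw [min_eq_right h, h4, max_eq_left (by linarith : 0 ≤ s - S)]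
        by_cases hdz : d = 0
        · rw [hdz, min_eq_right (by linarith), zero_smul, add_zero]
          exact hq m (by omega)
        · have hdp : 0 < d := lt_of_le_of_ne hd0 (Ne.symm hdz)
          set r := min (s - S) d with hr
          have hr0 : 0 ≤ r := le_min (by linarith) hd0
          have hrd : r ≤ d := min_le_right _ _
          have e2 : q m + r • e = (1 - r / d) • q m + (r / d) • q (m + 1) := by
            rw [he0, smul_smul, smul_sub, sub_smul, one_smul, div_eq_mul_inv]
            abel
          rw [e2]
          exact hK (hq m (by omega)) (hq (m + 1) le_rfl)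
            (by rw [sub_nonneg]; exact (div_le_one hdp).2 hrd) (div_nonneg hr0 hd0) (by ring)
    · intro i hi y hy
      rcases Nat.lt_succ_iff_lt_or_eq.1 hi with h | h
      · obtain ⟨s, hs, hsy⟩ := h3 i h y hy
        refine ⟨s, ⟨hs.1, by linarith [hs.2]⟩, ?_⟩
        show F (min s S) + (min (max (s - S) 0) d) • e = y
        rw [min_eq_left hs.2, max_eq_right (by linarith [hs.2] : s - S ≤ 0), min_eq_left hd0,
          zero_smul, add_zero, hsy]
      · rw [h] at hy
        obtain ⟨a, b, ha, hb, hab, rfl⟩ := hy
        refine ⟨S + b * d, ⟨add_nonneg hS0 (mul_nonneg hb hd0), ?_⟩, ?_⟩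
        · have : b * d ≤ 1 * d := mul_le_mul_of_nonneg_right (by linarith) hd0
          linarith
        · show F (min (S + b * d) S) + (min (max (S + b * d - S) 0) d) • e = _
          have hbd : 0 ≤ b * d := mul_nonneg hb hd0
          have hbd2 : b * d ≤ d := by
            have : b * d ≤ 1 * d := mul_le_mul_of_nonneg_right (by linarith) hd0
            linarith
          rw [min_eq_right (by linarith : S ≤ S + b * d), h4, add_sub_cancel_left,
            max_eq_left hbd, min_eq_left hbd2, mul_smul, hde]
          have : a = 1 - b := by linarith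
          rw [this, smul_sub, sub_smul, one_smul]
          abel
    · show F (min (S + d) S) + (min (max (S + d - S) 0) d) • e = q (m + 1)
      rw [min_eq_right (by linarith : S ≤ S + d), h4, add_sub_cancel_left, max_eq_left hd0,
        min_self, hde]
      abel

end POLY_

open POLY_

theorem p_POLY : T_POLY := by
  intro m q L hL hsum
  obtain ⟨F, h1, h2, h3, -⟩ := step q m
  refine ⟨fun s => F (L * s), ?_, ?_, ?_⟩
  · intro s t
    calc ‖F (L * s) - F (L * t)‖ ≤ |L * s - L * t| := h1 _ _
      _ = L * |s - t| := by rw [← mul_sub, abs_mul, abs_of_pos hL]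
  · intro K hK hq s
    exact h2 K hK hq _
  · intro i hi y hy
    obtain ⟨s, hs, hsy⟩ := h3 i hi y hy
    refine ⟨s / L, ⟨div_nonneg hs.1 hL.le, (div_le_one hL).2 (hs.2.trans hsum)⟩, ?_⟩
    show F (L * (s / L)) = y
    rw [mul_div_cancel₀ _ hL.ne', hsy]

end Pool.Agent.HD3
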