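import Mathlib
import Pool.Agent.HD3.Spec

/-! HD3-PSD (helper38): first absolute moments of Gaussian vectors. -/

set_option autoImplicit false

namespace Pool.Agent.HD3

open MeasureTheory ProbabilityTheory Set
open scoped InnerProductSpace

namespace PSD_

lemma integral_abs_gaussian : ∫ x, |x| ∂(gaussianReal 0 1) = Real.sqrt (2 / Real.pi) := by
  rw [integral_gaussianReal_eq_integral_smul one_ne_zero]
  have h1 : ∀ x : ℝ, gaussianPDFReal 0 1 x • |x| =
      (fun r : ℝ => (Real.sqrt (2 * Real.pi))⁻¹ * (r * Real.exp (-(1 / 2) * r ^ 2))) |x| := by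
    intro x
    simp only [gaussianPDFReal, smul_eq_mul, NNReal.coe_one, mul_one, sub_zero, sq_abs]
    have : -x ^ 2 / 2 = -(1 / 2) * x ^ 2 := by ring
    rw [this]
    ring
  have h0 := integral_comp_abs (f := fun r : ℝ =>
    (Real.sqrt (2 * Real.pi))⁻¹ * (r * Real.exp (-(1 / 2) * r ^ 2)))
  rw [integral_congr_ae (Filter.Eventually.of_forall h1), h0, integral_const_mul]
  have h2 : ∫ r in Ioi (0 : ℝ), r * Real.exp (-(1 / 2) * r ^ 2) = 1 := by
    have h3 := integral_mul_cexp_neg_mul_sq (b := (1 / 2 : ℂ)) (by norm_num)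
    have h4 : ∫ r in Ioi (0 : ℝ), (r : ℂ) * Complex.exp (-(1 / 2 : ℂ) * (r : ℂ) ^ 2) =
        ((∫ r in Ioi (0 : ℝ), r * Real.exp (-(1 / 2) * r ^ 2) : ℝ) : ℂ) := by
      rw [← integral_complex_ofReal]
      refine integral_congr_ae (Filter.Eventually.of_forall fun r => ?_)
      push_cast
      rfl
    rw [h4] at h3
    have h5 : ((∫ r in Ioi (0 : ℝ), r * Real.exp (-(1 / 2) * r ^ 2) : ℝ) : ℂ) = ((1 : ℝ) : ℂ) := by
      rw [h3]; norm_num
    exact_mod_cast h5
  rw [h2, mul_one]
  have hpi := Real.pi_pos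
  rw [Real.sqrt_mul (by norm_num), Real.sqrt_div (by norm_num)]
  have h6 : Real.sqrt 2 * Real.sqrt 2 = 2 := Real.mul_self_sqrt (by norm_num)
  have h7 : Real.sqrt 2 ≠ 0 := by positivity
  have h8 : Real.sqrt Real.pi ≠ 0 := by positivity
  field_simp
  nlinarith

lemma map_inner (u : E) (hu : ‖u‖ = 1) : γ.map (fun x => ⟪u, x⟫_ℝ) = gaussianReal 0 1 := by
  have h1 : γ.map (innerSL ℝ u) = gaussianReal 0 1 := by
    unfold γ
    rw [IsGaussian.map_eq_gaussianReal, integral_strongDual_stdGaussian,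
      variance_dual_stdGaussian, innerSL_apply_norm, hu]
    simp
  exact h1

end PSD_

open PSD_

theorem p_ABS : T_ABS := by
  intro u
  by_cases hu : u = 0
  · subst hu
    simp
  have hn : ‖u‖ ≠ 0 := norm_ne_zero_iff.2 hu
  set e : E := ‖u‖⁻¹ • u with he
  have hen : ‖e‖ = 1 := by
    rw [he, norm_smul, norm_inv, norm_norm, inv_mul_cancel₀ hn]
  have hue : ∀ x : E, |⟪u, x⟫_ℝ| = ‖u‖ * |⟪e, x⟫_ℝ| := by
    intro x
    rw [he, real_inner_smul_left, abs_mul, abs_inv, abs_norm, ← mul_assoc, mul_inv_cancel₀ hn,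
      one_mul]
  have hm : Measurable (fun x : E => ⟪e, x⟫_ℝ) := by fun_prop
  have hint : Integrable (fun x : E => |⟪e, x⟫_ℝ|) γ := by
    have h1 : Integrable (fun x : ℝ => |x|) (gaussianReal 0 1) := by
      have : Integrable (fun x : ℝ => x) (gaussianReal 0 1) := IsGaussian.integrable_id
      exact this.abs
    rw [← map_inner e hen] at h1
    exact (integrable_map_measure (by fun_prop) hm.aemeasurable).1 h1
  constructor
  · simp_rw [hue]
    exact hint.const_mul _
  · simp_rw [hue]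
    rw [integral_const_mul, mul_comm]
    congr 1
    rw [← integral_abs_gaussian, ← map_inner e hen, integral_map hm.aemeasurable]
    exact (continuous_abs.aestronglyMeasurable)

theorem p_PSD (h : T_ABS) : T_PSD := by
  intro A hA hpos
  have hsym : (A : E →ₗ[ℝ] E).IsSymmetric := fun x y => hA x y
  have hfin : Module.finrank ℝ E = 3 := finrank_euclideanSpace_fin
  set b := hsym.eigenvectorBasis hfin with hb
  set r := hsym.eigenvalues hfin with hr
  have hAb : ∀ i, A (b i) = r i • b i := fun i => by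
    exact hsym.apply_eigenvectorBasis hfin i
  have hbi : ∀ i, ‖b i‖ = 1 := fun i => b.norm_eq_one i
  have hrn : ∀ i, 0 ≤ r i := by
    intro i
    have h1 := hpos (b i)
    rw [hAb, real_inner_smul_left, real_inner_self_eq_norm_sq, hbi] at h1
    linarith
  have htr : ∑ i : Fin 3, ⟪A (EuclideanSpace.single i 1), EuclideanSpace.single i 1⟫_ℝ =
      ∑ i, r i := by
    have h1 := LinearMap.trace_eq_sum_inner (𝕜 := ℝ) (A : E →ₗ[ℝ] E)
      (EuclideanSpace.basisFun (Fin 3) ℝ)
    have h2 := LinearMap.trace_eq_sum_inner (𝕜 := ℝ) (A : E →ₗ[ℝ] E) b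
    rw [h1] at h2
    have h3 : ∑ i, ⟪b i, (A : E →ₗ[ℝ] E) (b i)⟫_ℝ = ∑ i, r i := by
      refine Finset.sum_congr rfl fun i _ => ?_
      change ⟪b i, A (b i)⟫_ℝ = r i
      rw [hAb, real_inner_smul_right, real_inner_self_eq_norm_sq, hbi]
      ring
    rw [h3] at h2
    rw [← h2]
    refine Finset.sum_congr rfl fun i _ => ?_
    rw [real_inner_comm, EuclideanSpace.basisFun_apply]
    rfl
  have hle : ∀ y : E, ‖A y‖ ≤ ∑ i, r i * |⟪b i, y⟫_ℝ| := by
    intro y
    have h1 : A y = ∑ i, (⟪b i, y⟫_ℝ * r i) • b i := by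
      conv_lhs => rw [← b.sum_repr' y]
      rw [map_sum]
      refine Finset.sum_congr rfl fun i _ => ?_
      rw [map_smul, hAb, smul_smul]
    rw [h1]
    refine (norm_sum_le _ _).trans (Finset.sum_le_sum fun i _ => ?_)
    rw [norm_smul, hbi, mul_one, norm_mul, Real.norm_eq_abs, Real.norm_eq_abs,
      abs_of_nonneg (hrn i), mul_comm]
  have hint : Integrable (fun y : E => ∑ i, r i * |⟪b i, y⟫_ℝ|) γ :=
    integrable_finsetSum _ fun i _ => (h (b i)).1.const_mul _
  calc ∫ y, ‖A y‖ ∂γ ≤ ∫ y, ∑ i, r i * |⟪b i, y⟫_ℝ| ∂γ := by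
        refine integral_mono_of_nonneg (Filter.Eventually.of_forall fun y => norm_nonneg _) hint
          (Filter.Eventually.of_forall hle)
    _ = ∑ i, r i * Real.sqrt (2 / Real.pi) := by
        rw [integral_finsetSum _ fun i _ => (h (b i)).1.const_mul _]
        refine Finset.sum_congr rfl fun i _ => ?_
        rw [integral_const_mul, (h (b i)).2, hbi, mul_one]
    _ = _ := by
        rw [htr, ← Finset.sum_mul, mul_comm]

end Pool.Agent.HD3
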