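import Pool.Agent.HD3.Spec

/-!
HD3, job PULL: a null cone does not contain the normal of a random plane.
-/

namespace Pool.Agent.HD3

open MeasureTheory ProbabilityTheory Set
open scoped InnerProductSpace Pointwise

namespace PULL_

/-- The diagonal map. -/
noncomputable def dg (r : E) : E →ₗ[ℝ] E where
  toFun x := WithLp.toLp 2 fun i => r i * x i
  map_add' x y := by ext i; simp [mul_add]
  map_smul' c x := by ext i; simp; ring

lemma dg_apply (r x : E) (i : Fin 3) : dg r x i = r i * x i := rfl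

/-- The cross product. -/
noncomputable def cr (p : E × E) : E :=
  WithLp.toLp 2 ![p.1 1 * p.2 2 - p.1 2 * p.2 1, p.1 2 * p.2 0 - p.1 0 * p.2 2,
    p.1 0 * p.2 1 - p.1 1 * p.2 0]

lemma cr_zero (p : E × E) : cr p 0 = p.1 1 * p.2 2 - p.1 2 * p.2 1 := rfl
lemma cr_one (p : E × E) : cr p 1 = p.1 2 * p.2 0 - p.1 0 * p.2 2 := rfl
lemma cr_two (p : E × E) : cr p 2 = p.1 0 * p.2 1 - p.1 1 * p.2 0 := rfl

lemma dg_inj {r : E} (hr : ∀ i, r i ≠ 0) : Function.Injective (dg r) := by
  intro x y hxy
  ext i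
  have := congrArg (fun z : E => z i) hxy
  simp only [dg_apply] at this
  exact mul_left_cancel₀ (hr i) this

lemma dg_quasi {r : E} (hr : ∀ i, r i ≠ 0) :
    Measure.QuasiMeasurePreserving (dg r) (volume : Measure E) volume := by
  refine ⟨(dg r).continuous_of_finiteDimensional.measurable, ?_⟩
  intro s hs
  have hdet : LinearMap.det (dg r) ≠ 0 := by
    have h := (LinearEquiv.ofInjectiveEndo (dg r) (dg_inj hr)).isUnit_det'
    exact h.ne_zero
  rw [Measure.map_apply₀ (dg r).continuous_of_finiteDimensional.measurable.aemeasurable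
    (NullMeasurableSet.of_null ?_)]
  · rw [Measure.addHaar_preimage_linearMap _ hdet, hs, mul_zero]
  · have : Measure.map (dg r) (volume : Measure E) =
        ENNReal.ofReal |(LinearMap.det (dg r))⁻¹| • volume :=
      Measure.map_linearMap_addHaar_eq_smul_addHaar _ hdet
    rw [this, Measure.smul_apply, hs, smul_zero]

lemma ae_coord_ne (i : Fin 3) : ∀ᵐ x : E, x i ≠ 0 := by
  have : (volume : Measure E) ((LinearMap.ker (EuclideanSpace.proj i :
      E →L[ℝ] ℝ).toLinearMap : Submodule ℝ E) : Set E) = 0 := by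
    apply Measure.addHaar_submodule
    intro h
    have h1 : (EuclideanSpace.single i (1 : ℝ) : E) ∈ LinearMap.ker
        (EuclideanSpace.proj i : E →L[ℝ] ℝ).toLinearMap := by
      rw [h]; exact Submodule.mem_top
    simp at h1
  rw [ae_iff]
  convert! this using 2
  ext x
  simp

lemma cr_cont : Continuous cr := by
  unfold cr
  fun_prop

/-- a linear form with a nonzero coefficient is almost nowhere zero -/
lemma ae_form_ne {a b : ℝ} (i j : Fin 3) (hij : i ≠ j) (hb : b ≠ 0) :
    ∀ᵐ y : E, b * y j - a * y i ≠ 0 := by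
  let L : E →ₗ[ℝ] ℝ := b • (EuclideanSpace.proj j : E →L[ℝ] ℝ).toLinearMap -
    a • (EuclideanSpace.proj i : E →L[ℝ] ℝ).toLinearMap
  have hL : ∀ y, L y = b * y j - a * y i := fun y => rfl
  have : (volume : Measure E) ((LinearMap.ker L : Submodule ℝ E) : Set E) = 0 := by
    apply Measure.addHaar_submodule
    intro h
    have h1 : (EuclideanSpace.single j (1 : ℝ) : E) ∈ LinearMap.ker L := by
      rw [h]; exact Submodule.mem_top
    rw [LinearMap.mem_ker, hL] at h1
    simp [hij] at h1
    exact hb h1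
  rw [ae_iff]
  have e : {y : E | ¬ b * y j - a * y i ≠ 0} = ((LinearMap.ker L : Submodule ℝ E) : Set E) := by
    ext y
    simp [hL]
  rw [e]
  exact this

lemma ae_cr_ne : ∀ᵐ p ∂((volume : Measure E).prod (volume : Measure E)), ∀ i, cr p i ≠ 0 := by
  have hm : ∀ i, MeasurableSet {p : E × E | ¬ cr p i ≠ 0} := by
    intro i
    have : {p : E × E | ¬ cr p i ≠ 0} = (fun p => cr p i) ⁻¹' {0} := by
      ext p; simp
    rw [this]
    have hc : Continuous fun p => cr p i :=
      (EuclideanSpace.proj i : E →L[ℝ] ℝ).continuous.comp cr_cont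
    exact hc.measurable (measurableSet_singleton 0)
  rw [ae_all_iff]
  intro i
  rw [ae_iff, Measure.measure_prod_null (hm i)]
  fin_cases i
  · filter_upwards [ae_coord_ne 1] with x hx
    have := ae_form_ne (a := x 2) (b := x 1) 1 2 (by decide) hx
    rw [ae_iff] at this
    exact this
  · filter_upwards [ae_coord_ne 2] with x hx
    have := ae_form_ne (a := x 0) (b := x 2) 2 0 (by decide) hx
    rw [ae_iff] at this
    exact this
  · filter_upwards [ae_coord_ne 0] with x hx
    have := ae_form_ne (a := x 1) (b := x 0) 0 1 (by decide) hx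
    rw [ae_iff] at this
    exact this

lemma dg_cont2 : Continuous fun q : E × E => dg q.1 q.2 := by
  unfold dg
  simp only [LinearMap.coe_mk, AddHom.coe_mk]
  fun_prop

lemma ae_cr_notMem {D : Set E} (hD : (volume : Measure E) D = 0) :
    ∀ᵐ p ∂((volume : Measure E).prod (volume : Measure E)), cr p ∉ D := by
  set D' := toMeasurable volume D with hD'
  have hm : MeasurableSet D' := measurableSet_toMeasurable _ _
  have h0 : (volume : Measure E) D' = 0 := by rw [hD', measure_toMeasurable, hD]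
  suffices h : ∀ᵐ p ∂((volume : Measure E).prod (volume : Measure E)), cr p ∉ D' by
    filter_upwards [h] with p hp hpD
    exact hp (subset_toMeasurable _ _ hpD)
  -- all dilations
  have h1 : ∀ᵐ p ∂((volume : Measure E).prod (volume : Measure E)), ∀ᵐ s : E,
      dg s (cr p) ∉ D' := by
    filter_upwards [ae_cr_ne] with p hp
    have h2 := (dg_quasi hp).ae (p := fun y => y ∉ D') (by rw [ae_iff]; simpa using h0)
    filter_upwards [h2] with s hs
    have : dg s (cr p) = dg (cr p) s := by
      ext i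
      rw [dg_apply, dg_apply, mul_comm]
    rw [this]
    exact hs
  have h2 : ∀ᵐ s : E, ∀ᵐ p ∂((volume : Measure E).prod (volume : Measure E)),
      dg s (cr p) ∉ D' := by
    refine (Measure.ae_ae_comm (μ := (volume : Measure E).prod (volume : Measure E))
      (ν := (volume : Measure E)) (p := fun p s => dg s (cr p) ∉ D') ?_).1 h1
    have hc : Continuous fun x : (E × E) × E => dg x.2 (cr x.1) :=
      dg_cont2.comp (continuous_snd.prodMk (cr_cont.comp continuous_fst))
    exact (hc.measurable hm).compl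
  have h3 : ∀ᵐ s : E, ∀ i, s i ≠ 0 := by
    rw [ae_all_iff]
    exact ae_coord_ne
  obtain ⟨s, hs1, hs2⟩ := (h2.and h3).exists
  have hc : (s 0 * s 1 * s 2)⁻¹ ≠ 0 :=
    inv_ne_zero (mul_ne_zero (mul_ne_zero (hs2 0) (hs2 1)) (hs2 2))
  have hq : Measure.QuasiMeasurePreserving
      (Prod.map (dg s) (dg ((s 0 * s 1 * s 2)⁻¹ • s)))
      ((volume : Measure E).prod (volume : Measure E))
      ((volume : Measure E).prod (volume : Measure E)) := by
    apply QuasiMeasurePreserving.prodMap (dg_quasi hs2)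
    apply dg_quasi
    intro i
    exact mul_ne_zero hc (hs2 i)
  filter_upwards [hq.ae hs1] with p hp
  have e : dg s (cr (Prod.map (dg s) (dg ((s 0 * s 1 * s 2)⁻¹ • s)) p)) = cr p := by
    have a0 := hs2 0
    have a1 := hs2 1
    have a2 := hs2 2
    ext i
    fin_cases i
    · show s 0 * (s 1 * p.1 1 * ((s 0 * s 1 * s 2)⁻¹ * s 2 * p.2 2) -
        s 2 * p.1 2 * ((s 0 * s 1 * s 2)⁻¹ * s 1 * p.2 1)) = p.1 1 * p.2 2 - p.1 2 * p.2 1
      field_simp
    · show s 1 * (s 2 * p.1 2 * ((s 0 * s 1 * s 2)⁻¹ * s 0 * p.2 0) -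
        s 0 * p.1 0 * ((s 0 * s 1 * s 2)⁻¹ * s 2 * p.2 2)) = p.1 2 * p.2 0 - p.1 0 * p.2 2
      field_simp
    · show s 2 * (s 0 * p.1 0 * ((s 0 * s 1 * s 2)⁻¹ * s 1 * p.2 1) -
        s 1 * p.1 1 * ((s 0 * s 1 * s 2)⁻¹ * s 0 * p.2 0)) = p.1 0 * p.2 1 - p.1 1 * p.2 0
      field_simp
  rw [e] at hp
  exact hp

lemma inner_eq (x y : E) : ⟪x, y⟫_ℝ = x 0 * y 0 + x 1 * y 1 + x 2 * y 2 := by
  rw [PiLp.inner_apply, Fin.sum_univ_three]
  simp only [RCLike.inner_apply, conj_trivial]
  ring

end PULL_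

theorem p_PULL (hAC : T_AC) : T_PULL := by
  intro D hD hl
  have hac : γ.prod γ ≪ (volume : Measure E).prod (volume : Measure E) :=
    Measure.AbsolutelyContinuous.prod hAC hAC
  apply hac.ae_le
  filter_upwards [PULL_.ae_cr_notMem hD, PULL_.ae_cr_ne] with p hp hne u hu h1 h2 huD
  rw [PULL_.inner_eq] at h1 h2
  -- `u` and the cross product are proportional
  have c0 := PULL_.cr_zero p
  have c1 := PULL_.cr_one p
  have c2 := PULL_.cr_two p
  have e01 : u 0 * PULL_.cr p 1 = u 1 * PULL_.cr p 0 := by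
    rw [c0, c1]; linear_combination (-p.2 2) * h1 + p.1 2 * h2
  have e02 : u 0 * PULL_.cr p 2 = u 2 * PULL_.cr p 0 := by
    rw [c0, c2]; linear_combination (p.2 1) * h1 - p.1 1 * h2
  have e12 : u 1 * PULL_.cr p 2 = u 2 * PULL_.cr p 1 := by
    rw [c1, c2]; linear_combination (-p.2 0) * h1 + p.1 0 * h2
  obtain ⟨i, hi⟩ : ∃ i, u i ≠ 0 := by
    by_contra hc
    push Not at hc
    exact hu (by ext i; exact hc i)
  apply hp
  have e : PULL_.cr p = (PULL_.cr p i / u i) • u := by
    ext j
    show PULL_.cr p j = PULL_.cr p i / u i * u j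
    rw [div_mul_eq_mul_div, eq_div_iff hi]
    fin_cases i <;> fin_cases j <;> simp only [Fin.mk_one, Fin.zero_eta, Fin.reduceFinMk] at * <;>
      linarith
  rw [e]
  exact hl u huD _ (div_ne_zero (hne i) hi)

end Pool.Agent.HD3
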