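import Mathlib
import Pool.Agent.HD3.Spec

set_option autoImplicit false

/-!
# HD3: mean length of the dyadic polygons
-/

namespace Pool.Agent.HD3

open MeasureTheory ProbabilityTheory Set
open scoped InnerProductSpace Pointwise

namespace RIM_

theorem prob : IsProbabilityMeasure γ := inferInstanceAs (IsProbabilityMeasure (stdGaussian E))

theorem circ_add (t a : ℝ) (p : E × E) :
    circ (t + a) p = circ a (circ t p, circ (t + Real.pi / 2) p) := by
  unfold circ
  rw [Real.cos_add_pi_div_two, Real.sin_add_pi_div_two, Real.cos_add t a, Real.sin_add t a]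
  module

theorem circ_measurable (t : ℝ) : Measurable (circ t) := by
  have : Continuous (circ t) := by
    unfold circ
    fun_prop
  exact this.measurable

theorem G_measurable (K : Set E) : Measurable (G K) := by
  have h1 : Measurable (fderiv ℝ (h K)) := measurable_fderiv ℝ (h K)
  have h2 : Continuous (InnerProductSpace.toDual ℝ E).symm :=
    (InnerProductSpace.toDual ℝ E).symm.continuous
  exact h2.measurable.comp h1

theorem G_bound {K : Set E} {R : NNReal} (hR : LipschitzWith R (h K)) (g : E) :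
    ‖G K g‖ ≤ R := by
  have h1 : ‖fderiv ℝ (h K) g‖ ≤ R := norm_fderiv_le_of_lipschitz ℝ hR
  have h2 : ‖G K g‖ = ‖fderiv ℝ (h K) g‖ := by
    change ‖(InnerProductSpace.toDual ℝ E).symm (fderiv ℝ (h K) g)‖ = _
    exact LinearIsometryEquiv.norm_map _ _
  rw [h2]
  exact h1

theorem phi_measurable (K : Set E) (a : ℝ) :
    Measurable (fun q : E × E => ‖G K (circ a q) - G K q.1‖) :=
  (((G_measurable K).comp (circ_measurable a)).sub ((G_measurable K).comp measurable_fst)).norm

theorem phi_integrable {K : Set E} {R : NNReal} (hR : LipschitzWith R (h K)) (a : ℝ) :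
    Integrable (fun q : E × E => ‖G K (circ a q) - G K q.1‖) (γ.prod γ) := by
  have := prob
  refine Integrable.of_bound (phi_measurable K a).aestronglyMeasurable (R + R) ?_
  refine Filter.Eventually.of_forall fun q => ?_
  rw [norm_norm]
  exact (norm_sub_le _ _).trans (add_le_add (G_bound hR _) (G_bound hR _))

end RIM_

open RIM_ in
theorem p_RIM (hI : T_INC) (hR : T_ROT) (hB : T_BASIC) : T_RIM := by
  intro K hK hKc hKn k
  obtain ⟨_, ⟨R, hLip, _⟩, _⟩ := hB K hK hKn
  set a : ℝ := 2 * Real.pi / 2 ^ k with ha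
  have ha0 : 0 ≤ a := by positivity
  let φ : E × E → ℝ := fun q => ‖G K (circ a q) - G K q.1‖
  let T : ℕ → E × E → E × E := fun i p =>
    (circ (2 * Real.pi * (i : ℝ) / 2 ^ k) p, circ (2 * Real.pi * (i : ℝ) / 2 ^ k + Real.pi / 2) p)
  have hT : ∀ i, MeasurePreserving (T i) (γ.prod γ) (γ.prod γ) := fun i => hR _
  have hterm : ∀ (i : ℕ) (p : E × E),
      ‖G K (circ (2 * Real.pi * ((i : ℝ) + 1) / 2 ^ k) p) -
        G K (circ (2 * Real.pi * (i : ℝ) / 2 ^ k) p)‖ = φ (T i p) := by
    intro i p
    have e1 : 2 * Real.pi * ((i : ℝ) + 1) / 2 ^ k = 2 * Real.pi * (i : ℝ) / 2 ^ k + a := by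
      rw [ha]; ring
    rw [e1, circ_add]
  have hφi : Integrable φ (γ.prod γ) := phi_integrable hLip a
  have hint : ∀ i, Integrable (fun p => φ (T i p)) (γ.prod γ) := fun i =>
    (hT i).integrable_comp_of_integrable hφi
  have hval : ∀ i, ∫ p, φ (T i p) ∂(γ.prod γ) = ∫ q, φ q ∂(γ.prod γ) := by
    intro i
    have h1 := (hT i).map_eq
    conv_rhs => rw [← h1]
    rw [integral_map (hT i).measurable.aemeasurable]
    exact (phi_measurable K a).aestronglyMeasurable
  have hplen : plen K k = fun p => ∑ i ∈ Finset.range (2 ^ k), φ (T i p) := by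
    funext p
    exact Finset.sum_congr rfl fun i _ => hterm i p
  constructor
  · rw [hplen]
    exact integrable_finsetSum _ fun i _ => hint i
  · rw [hplen, integral_finsetSum _ fun i _ => hint i, Finset.sum_congr rfl fun i _ => hval i,
      Finset.sum_const, Finset.card_range, nsmul_eq_mul]
    have h2 := hI K hK hKc hKn a ha0
    calc ((2 ^ k : ℕ) : ℝ) * ∫ q, φ q ∂(γ.prod γ)
        ≤ ((2 ^ k : ℕ) : ℝ) * (a * Real.sqrt (2 / Real.pi) * ∫ x, h K x ∂γ) :=
          mul_le_mul_of_nonneg_left h2 (by positivity)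
      _ = 2 * Real.pi * Real.sqrt (2 / Real.pi) * ∫ x, h K x ∂γ := by
          rw [ha]
          push_cast
          field_simp

end Pool.Agent.HD3
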