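import Pool.Agent.HD3.Spec

/-!
HD3, job ROT: the Gaussian measure of `E × E` is invariant under rotations.
-/

namespace Pool.Agent.HD3

open MeasureTheory ProbabilityTheory Set
open scoped InnerProductSpace Pointwise

theorem p_ROT : T_ROT := by
  intro t
  have h := IsGaussian.map_rotation_eq_self (μ := stdGaussian E)
    (by simp : ∫ x, x ∂(stdGaussian E) = 0) t
  have e : (fun p : E × E => (circ t p, circ (t + Real.pi / 2) p)) =
      ⇑(ContinuousLinearMap.rotation (E := E) t) := by
    funext p
    rw [ContinuousLinearMap.rotation_apply]
    simp only [circ, Real.cos_add_pi_div_two, Real.sin_add_pi_div_two]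
  rw [e]
  exact ⟨(ContinuousLinearMap.continuous _).measurable, h⟩

end Pool.Agent.HD3
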