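import Mathlib
import Pool.Agent.HD3.Spec

/-!
HD3, job SMOOTH: mean increment of the gradient of a smooth convex function along the ellipse.
-/

namespace Pool.Agent.HD3

open MeasureTheory ProbabilityTheory Set
open scoped InnerProductSpace Pointwise

namespace SMOOTH_

instance : IsProbabilityMeasure γ := by unfold γ; infer_instance

instance : IsGaussian γ := by unfold γ; infer_instance

/-- the basis vectors -/
noncomputable def e (i : Fin 3) : E := EuclideanSpace.single i 1

lemma sum_e (w : E) : ∑ i, w i • e i = w := by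
  ext j
  simp [e, Finset.sum_apply, Pi.single_apply]

lemma inner_e (i : Fin 3) (w : E) : ⟪e i, w⟫_ℝ = w i := by
  simp [e, EuclideanSpace.inner_single_left]

lemma gradient_eq (f : E → ℝ) (x : E) : gradient f x = ∑ i, (fderiv ℝ f x (e i)) • e i := by
  conv_lhs => rw [← sum_e (gradient f x)]
  apply Finset.sum_congr rfl
  intro i _
  congr 1
  rw [← inner_e, real_inner_comm]
  unfold gradient
  simp

/-- The Hessian as a continuous linear map. -/
noncomputable def A (f : E → ℝ) (x : E) : E →L[ℝ] E :=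
  ∑ i, ((ContinuousLinearMap.apply ℝ ℝ (e i)).comp (fderiv ℝ (fderiv ℝ f) x)).smulRight (e i)

lemma A_apply (f : E → ℝ) (x v : E) :
    A f x v = ∑ i, (fderiv ℝ (fderiv ℝ f) x v (e i)) • e i := by
  simp [A]

lemma inner_A (f : E → ℝ) (x v w : E) :
    ⟪A f x v, w⟫_ℝ = fderiv ℝ (fderiv ℝ f) x v w := by
  rw [A_apply, sum_inner]
  conv_rhs => rw [← sum_e w, map_sum]
  apply Finset.sum_congr rfl
  intro i _
  rw [real_inner_smul_left, inner_e, map_smul, smul_eq_mul, mul_comm]

variable {f : E → ℝ}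

lemma contDiff_fderiv (hf : ContDiff ℝ 2 f) : ContDiff ℝ 1 (fderiv ℝ f) :=
  hf.fderiv_right (by norm_num)

lemma hasFDerivAt_gradient (hf : ContDiff ℝ 2 f) (x : E) :
    HasFDerivAt (gradient f) (A f x) x := by
  have h0 : HasFDerivAt (fderiv ℝ f) (fderiv ℝ (fderiv ℝ f) x) x :=
    ((contDiff_fderiv hf).differentiable (by norm_num) x).hasFDerivAt
  have h1 : gradient f = fun x => ∑ i, (fderiv ℝ f x (e i)) • e i := by
    funext y; exact gradient_eq f y
  rw [h1]
  unfold A
  apply HasFDerivAt.fun_sum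
  intro i _
  have h2 := ((ContinuousLinearMap.apply ℝ ℝ (e i)).hasFDerivAt (x := fderiv ℝ f x)).comp x h0
  exact h2.smul_const (e i)

lemma continuous_D2 (hf : ContDiff ℝ 2 f) : Continuous (fderiv ℝ (fderiv ℝ f)) :=
  (contDiff_fderiv hf).continuous_fderiv (by norm_num)

lemma continuous_A (hf : ContDiff ℝ 2 f) : Continuous (A f) := by
  have h2 := continuous_D2 hf
  rw [continuous_clm_apply]
  intro v
  simp only [A_apply]
  fun_prop

attribute [local irreducible] A

lemma continuous_A2 (hf : ContDiff ℝ 2 f) : Continuous (fun q : E × E => ‖A f q.1 q.2‖) :=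
  (((continuous_A hf).comp continuous_fst).clm_apply continuous_snd).norm

lemma symm_D2 (hf : ContDiff ℝ 2 f) (x v w : E) :
    fderiv ℝ (fderiv ℝ f) x v w = fderiv ℝ (fderiv ℝ f) x w v :=
  (hf.contDiffAt.isSymmSndFDerivAt (by simp)) v w

lemma psd_D2 (hf : ContDiff ℝ 2 f) (hc : ConvexOn ℝ univ f) (x v : E) :
    0 ≤ fderiv ℝ (fderiv ℝ f) x v v := by
  have hd : Differentiable ℝ f := hf.differentiable (by norm_num)
  have hline : ∀ t : ℝ, HasDerivAt (fun t : ℝ => x + t • v) v t := by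
    intro t
    simpa using ((hasDerivAt_id t).smul_const v).const_add x
  have h1 : ∀ t : ℝ, HasDerivAt (fun t : ℝ => f (x + t • v)) (fderiv ℝ f (x + t • v) v) t := by
    intro t
    exact (hd (x + t • v)).hasFDerivAt.comp_hasDerivAt t (hline t)
  have hconv : ConvexOn ℝ univ (fun t : ℝ => f (x + t • v)) := by
    refine ⟨convex_univ, ?_⟩
    intro s _ t _ a b ha hb hab
    have h2 := hc.2 (mem_univ (x + s • v)) (mem_univ (x + t • v)) ha hb hab
    have h3 : x + (a • s + b • t) • v = a • (x + s • v) + b • (x + t • v) := by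
      have : x = (a + b) • x := by rw [hab, one_smul]
      conv_lhs => rw [this]
      simp only [smul_eq_mul]
      module
    simp only
    rw [h3]
    exact h2
  have hmono : Monotone (fun t : ℝ => fderiv ℝ f (x + t • v) v) := by
    have h2 := hconv.monotoneOn_deriv (fun t _ => (h1 t).differentiableAt)
    have h3 : deriv (fun t : ℝ => f (x + t • v)) = fun t : ℝ => fderiv ℝ f (x + t • v) v := by
      funext t; exact (h1 t).deriv
    rw [h3] at h2
    exact monotoneOn_univ.1 h2
  have h4 : HasDerivAt (fun t : ℝ => fderiv ℝ f (x + t • v) v)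
      (fderiv ℝ (fderiv ℝ f) x v v) 0 := by
    have h5 : HasFDerivAt (fderiv ℝ f) (fderiv ℝ (fderiv ℝ f) (x + (0 : ℝ) • v))
        (x + (0 : ℝ) • v) :=
      ((contDiff_fderiv hf).differentiable (by norm_num) _).hasFDerivAt
    have h6 := h5.comp_hasDerivAt (0 : ℝ) (hline 0)
    have h7 := ((ContinuousLinearMap.apply ℝ ℝ v).hasFDerivAt
      (x := fderiv ℝ f (x + (0 : ℝ) • v))).comp_hasDerivAt (0 : ℝ) h6
    simp only [zero_smul, add_zero] at h7
    exact h7
  rw [← h4.deriv]
  exact hmono.deriv_nonneg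

lemma norm_A_le {C : ℝ} (hC : ∀ x, ‖fderiv ℝ (fderiv ℝ f) x‖ ≤ C) (x v : E) :
    ‖A f x v‖ ≤ C * ‖v‖ := by
  have h1 : ‖A f x v‖ * ‖A f x v‖ ≤ C * ‖v‖ * ‖A f x v‖ := by
    rw [← real_inner_self_eq_norm_mul_norm, inner_A]
    calc fderiv ℝ (fderiv ℝ f) x v (A f x v)
        ≤ ‖fderiv ℝ (fderiv ℝ f) x v (A f x v)‖ := Real.le_norm_self _
      _ ≤ ‖fderiv ℝ (fderiv ℝ f) x‖ * ‖v‖ * ‖A f x v‖ :=
          ContinuousLinearMap.le_opNorm₂ _ _ _
      _ ≤ C * ‖v‖ * ‖A f x v‖ := by
          gcongr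
          exact hC x
  rcases (norm_nonneg (A f x v)).eq_or_lt with h | h
  · rw [← h]
    have : 0 ≤ C := le_trans (norm_nonneg (fderiv ℝ (fderiv ℝ f) x)) (hC x)
    positivity
  · exact le_of_mul_le_mul_right h1 h

lemma hasDerivAt_circ (p : E × E) (s : ℝ) :
    HasDerivAt (fun s => circ s p) (circ (s + Real.pi / 2) p) s := by
  unfold circ
  have h1 := (Real.hasDerivAt_cos s).smul_const p.1
  have h2 := (Real.hasDerivAt_sin s).smul_const p.2
  have h3 := h1.add h2
  rw [Real.cos_add_pi_div_two, Real.sin_add_pi_div_two]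
  exact h3

lemma continuous_circ : Continuous (fun q : ℝ × (E × E) => circ q.1 q.2) := by
  unfold circ
  fun_prop

lemma circ_zero (p : E × E) : circ 0 p = p.1 := by
  unfold circ; simp

/-- the speed -/
noncomputable def Phi (f : E → ℝ) (s : ℝ) (p : E × E) : ℝ :=
  ‖A f (circ s p) (circ (s + Real.pi / 2) p)‖

lemma continuous_Phi (hf : ContDiff ℝ 2 f) :
    Continuous (fun q : ℝ × (E × E) => Phi f q.1 q.2) := by
  have h1 : Continuous (fun q : ℝ × (E × E) => circ (q.1 + Real.pi / 2) q.2) := by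
    unfold circ
    fun_prop
  have h2 : Continuous (fun q : ℝ × (E × E) => A f (circ q.1 q.2)) :=
    (continuous_A hf).comp continuous_circ
  exact (h2.clm_apply h1).norm

lemma incr_le (hf : ContDiff ℝ 2 f) {a : ℝ} (ha : 0 ≤ a) (p : E × E) :
    ‖gradient f (circ a p) - gradient f p.1‖ ≤ ∫ s in Ioc 0 a, Phi f s p := by
  have hderiv : ∀ s : ℝ, HasDerivAt (fun s => gradient f (circ s p))
      (A f (circ s p) (circ (s + Real.pi / 2) p)) s := by
    intro s
    exact (hasFDerivAt_gradient hf (circ s p)).comp_hasDerivAt s (hasDerivAt_circ p s)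
  have hcont : Continuous (fun s : ℝ => A f (circ s p) (circ (s + Real.pi / 2) p)) := by
    have h1 : Continuous (fun s : ℝ => circ s p) := by
      unfold circ
      fun_prop
    have h1' : Continuous (fun s : ℝ => circ (s + Real.pi / 2) p) := by
      unfold circ
      fun_prop
    exact ((continuous_A hf).comp h1).clm_apply h1'
  have h1 := intervalIntegral.integral_eq_sub_of_hasDerivAt (a := 0) (b := a)
    (fun s _ => hderiv s) (hcont.intervalIntegrable _ _)
  rw [circ_zero] at h1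
  rw [← h1, ← intervalIntegral.integral_of_le ha]
  exact intervalIntegral.norm_integral_le_integral_norm ha

lemma Phi_le {C : ℝ} (hC : ∀ x, ‖fderiv ℝ (fderiv ℝ f) x‖ ≤ C) (s : ℝ) (p : E × E) :
    Phi f s p ≤ C * (‖p.1‖ + ‖p.2‖) := by
  have hC0 : 0 ≤ C := le_trans (norm_nonneg (fderiv ℝ (fderiv ℝ f) 0)) (hC 0)
  refine (norm_A_le hC _ _).trans ?_
  apply mul_le_mul_of_nonneg_left _ hC0
  unfold circ
  refine (norm_add_le _ _).trans ?_
  rw [norm_smul, norm_smul]
  have h1 : ‖Real.cos (s + Real.pi / 2)‖ ≤ 1 := Real.abs_cos_le_one _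
  have h2 : ‖Real.sin (s + Real.pi / 2)‖ ≤ 1 := Real.abs_sin_le_one _
  have h3 := norm_nonneg p.1
  have h4 := norm_nonneg p.2
  nlinarith

lemma integrable_norm : Integrable (fun x : E => ‖x‖) γ :=
  (IsGaussian.integrable_id (μ := γ)).norm

lemma integrable_sum : Integrable (fun p : E × E => ‖p.1‖ + ‖p.2‖) (γ.prod γ) :=
  (integrable_norm.comp_fst γ).add (integrable_norm.comp_snd γ)

end SMOOTH_

open SMOOTH_ in
theorem p_SMOOTH (hR : T_ROT) (hP : T_PSD) (hI : T_IBP) : T_SMOOTH := by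
  intro f hf hc hb1 hb2 a ha
  obtain ⟨C, hC⟩ := hb2
  have hC0 : 0 ≤ C := le_trans (norm_nonneg (fderiv ℝ (fderiv ℝ f) 0)) (hC 0)
  set μ : Measure ℝ := volume.restrict (Ioc 0 a) with hμ
  have hfin : IsFiniteMeasure μ := by
    rw [hμ]; infer_instance
  -- integrability on the product
  have hint : Integrable (fun q : ℝ × (E × E) => Phi f q.1 q.2) (μ.prod (γ.prod γ)) := by
    have h1 : Integrable (fun q : ℝ × (E × E) => C * (‖q.2.1‖ + ‖q.2.2‖)) (μ.prod (γ.prod γ)) :=
      (integrable_sum.const_mul C).comp_snd μ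
    refine h1.mono' (continuous_Phi hf).aestronglyMeasurable ?_
    filter_upwards with q
    have h2 : 0 ≤ Phi f q.1 q.2 := norm_nonneg _
    rw [Real.norm_of_nonneg h2]
    exact Phi_le hC q.1 q.2
  have hint' : Integrable (fun q : (E × E) × ℝ => Phi f q.2 q.1) ((γ.prod γ).prod μ) :=
    hint.swap
  -- step 1
  have h1 : ∫ p, ‖gradient f (circ a p) - gradient f p.1‖ ∂(γ.prod γ) ≤
      ∫ p, ∫ s, Phi f s p ∂μ ∂(γ.prod γ) := by
    apply integral_mono_of_nonneg
    · filter_upwards with p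
      exact norm_nonneg _
    · exact hint'.integral_prod_left
    · filter_upwards with p
      exact incr_le hf ha p
  -- step 2
  have h2 : ∫ p, ∫ s, Phi f s p ∂μ ∂(γ.prod γ) = ∫ s, ∫ p, Phi f s p ∂(γ.prod γ) ∂μ :=
    integral_integral_swap hint'
  -- step 3
  have h3 : ∀ s : ℝ, ∫ p, Phi f s p ∂(γ.prod γ) = ∫ p, ‖A f p.1 p.2‖ ∂(γ.prod γ) := by
    intro s
    have hm := hR s
    have h4 : ∫ p, ‖A f p.1 p.2‖ ∂(Measure.map
        (fun p : E × E => (circ s p, circ (s + Real.pi / 2) p)) (γ.prod γ)) =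
        ∫ p, Phi f s p ∂(γ.prod γ) :=
      integral_map hm.measurable.aemeasurable (continuous_A2 hf).aestronglyMeasurable
    rw [← h4, hm.map_eq]
  -- step 4
  have hintA : Integrable (fun p : E × E => ‖A f p.1 p.2‖) (γ.prod γ) := by
    refine (integrable_sum.const_mul C).mono' (continuous_A2 hf).aestronglyMeasurable ?_
    filter_upwards with p
    rw [Real.norm_of_nonneg (norm_nonneg _)]
    refine (norm_A_le hC _ _).trans ?_
    apply mul_le_mul_of_nonneg_left _ hC0
    linarith [norm_nonneg p.1]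
  have hcontT : Continuous (fun x : E => ∑ i : Fin 3, fderiv ℝ (fderiv ℝ f) x
      (EuclideanSpace.single i 1) (EuclideanSpace.single i 1)) := by
    have h5 := continuous_D2 hf
    fun_prop
  have hintT : Integrable (fun x : E => ∑ i : Fin 3, fderiv ℝ (fderiv ℝ f) x
      (EuclideanSpace.single i 1) (EuclideanSpace.single i 1)) γ := by
    refine (integrable_const (∑ i : Fin 3, C)).mono' hcontT.aestronglyMeasurable ?_
    filter_upwards with x
    refine (norm_sum_le _ _).trans (Finset.sum_le_sum fun i _ => ?_)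
    refine (ContinuousLinearMap.le_opNorm₂ _ _ _).trans ?_
    rw [PiLp.norm_single]
    simpa using hC x
  have h4 : ∫ p, ‖A f p.1 p.2‖ ∂(γ.prod γ) ≤
      Real.sqrt (2 / Real.pi) * ∫ x, ⟪x, gradient f x⟫_ℝ ∂γ := by
    rw [← hI f hf hb1 ⟨C, hC⟩, ← integral_const_mul, integral_prod _ hintA]
    apply integral_mono hintA.integral_prod_left (hintT.const_mul _)
    intro x
    have h5 := hP (A f x) (fun v w => by
      rw [inner_A, real_inner_comm, inner_A]
      exact symm_D2 hf x v w) (fun v => by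
      rw [inner_A]; exact psd_D2 hf hc x v)
    refine h5.trans (le_of_eq ?_)
    simp only [inner_A]
  calc ∫ p, ‖gradient f (circ a p) - gradient f p.1‖ ∂(γ.prod γ)
      ≤ ∫ p, ∫ s, Phi f s p ∂μ ∂(γ.prod γ) := h1
    _ = ∫ s, ∫ p, Phi f s p ∂(γ.prod γ) ∂μ := h2
    _ = ∫ s, (∫ p, ‖A f p.1 p.2‖ ∂(γ.prod γ)) ∂μ := by simp only [h3]
    _ = a * ∫ p, ‖A f p.1 p.2‖ ∂(γ.prod γ) := by
        rw [integral_const, hμ]
        simp [Measure.real, ha]
    _ ≤ a * (Real.sqrt (2 / Real.pi) * ∫ x, ⟪x, gradient f x⟫_ℝ ∂γ) :=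
        mul_le_mul_of_nonneg_left h4 ha
    _ = _ := by ring

end Pool.Agent.HD3
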