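import Mathlib
import Pool.Agent.HD3.Main
import Pool.Agent.HD3.BASIC
import Pool.Agent.HD3.AC
import Pool.Agent.HD3.ROT
import Pool.Agent.HD3.PSD
import Pool.Agent.HD3.IBP
import Pool.Agent.HD3.SMOOTH
import Pool.Agent.HD3.MOLL
import Pool.Agent.HD3.GRADLIM
import Pool.Agent.HD3.INC
import Pool.Agent.HD3.RIM
import Pool.Agent.HD3.PICK
import Pool.Agent.HD3.PLANE
import Pool.Agent.HD3.DIRNULL
import Pool.Agent.HD3.PULL
import Pool.Agent.HD3.GEN
import Pool.Agent.HD3.CURVE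
import Pool.Agent.HD3.POLY
import Pool.Agent.HD3.DET
import Pool.Agent.HD3.COVER
import Pool.Agent.HD3.JOHN
import Pool.Agent.HD3.MW
import Pool.Agent.HD3.EQ
import Pool.Agent.HD3.BOX
import Pool.Agent.HD3.Lower

/-!
HD3: every convex body of Euclidean 3-space is covered by 8 translates of its interior.
-/

namespace Pool.Agent.HD3

open Set

theorem all : T_MAIN := by
  have hSm : T_SMOOTH := p_SMOOTH p_ROT (p_PSD p_ABS) p_IBP
  have hInc : T_INC := p_INC p_BASIC hSm p_MOLL p_GRADLIM p_AC p_ROT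
  have hRim : T_RIM := p_RIM hInc p_ROT p_BASIC
  have hDir : T_DIRNULL := p_DIRNULL p_PLANE
  have hPull : T_PULL := p_PULL p_AC
  have hGen : T_GEN := p_GEN hDir hPull (p_LI p_AC) p_BASIC
  have hDiff : T_DIFF := p_DIFF p_AC p_ROT p_BASIC
  have hPick : T_PICK := p_PICK hRim hGen (p_LI p_AC) hDiff
  have hDet : T_DET := p_DET p_BASIC (p_CURVE p_CHAIN) p_POLY
  have hMW : T_MW := p_MW p_BASIC p_AC p_ABS
  exact p_MAIN p_BASIC p_JOHN hMW (p_EQ p_BASIC p_AC p_ABS) hPick hDet p_COVER p_BOX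

theorem cover_three (K : Set (EuclideanSpace ℝ (Fin 3))) (hc : Convex ℝ K) (hK : IsCompact K)
    (hi : (interior K).Nonempty) :
    ∃ T : Finset (EuclideanSpace ℝ (Fin 3)), T.card ≤ 2 ^ 3 ∧
      K ⊆ ⋃ t ∈ T, (fun x => t + x) '' interior K := by
  classical
  obtain ⟨t, ht⟩ := all K hK hc hi
  refine ⟨Finset.univ.image t, ?_, ?_⟩
  · calc (Finset.univ.image t).card ≤ (Finset.univ : Finset (Fin 8)).card := Finset.card_image_le
      _ = 2 ^ 3 := by simp
  · intro x hx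
    have := ht hx
    simp only [mem_iUnion] at this ⊢
    obtain ⟨i, hi⟩ := this
    exact ⟨t i, Finset.mem_image_of_mem _ (Finset.mem_univ i), hi⟩

end Pool.Agent.HD3
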